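import Mathlib

set_option autoImplicit false

open MeasureTheory

namespace Pool.Agent.H133R3.KS

noncomputable section

/-! ### One dimensional integrals -/

theorem integrable_sqrt_inv : Integrable (fun z : ℝ => (Set.Ioo (-1 : ℝ) 1).indicator (fun z => (√|z|)⁻¹) z) := by
  rw [integrable_indicator_iff measurableSet_Ioo]
  have h1 : IntegrableOn (fun z : ℝ => (√|z|)⁻¹) (Set.Ioc 0 1) := by
    have h := (intervalIntegral.intervalIntegrable_rpow' (a := 0) (b := 1) (r := -(1 / 2 : ℝ)) (by norm_num))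
    rw [intervalIntegrable_iff_integrableOn_Ioc_of_le (by norm_num)] at h
    refine h.congr_fun ?_ measurableSet_Ioc
    intro z hz
    simp only
    rw [abs_of_pos hz.1, Real.sqrt_eq_rpow, Real.rpow_neg hz.1.le]
  have h2 : IntegrableOn (fun z : ℝ => (√|z|)⁻¹) (Set.Ico (-1) 0) := by
    have h3 := h1.comp_neg
    simp only [Set.neg_Ioc, neg_zero, abs_neg] at h3
    exact h3
  have h4 : IntegrableOn (fun z : ℝ => (√|z|)⁻¹) (Set.Ico (-1) 0 ∪ Set.Ioc 0 1 ∪ {0}) := by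
    refine (h2.union h1).union ?_
    rw [integrableOn_singleton_iff]
    right
    simp
  refine h4.mono_set ?_
  intro z hz
  simp only [Set.mem_union, Set.mem_Ico, Set.mem_Ioc, Set.mem_singleton_iff]
  rcases lt_trichotomy z 0 with h | h | h
  · left; left; exact ⟨hz.1.le, h⟩
  · right; exact h
  · left; right; exact ⟨h, hz.2.le⟩

def cA : ℝ := (∫ z : ℝ, (Set.Ioo (-1 : ℝ) 1).indicator (fun z => (√|z|)⁻¹) z) + Real.pi

theorem cA_pos : 0 < cA := by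
  unfold cA
  have : 0 ≤ ∫ z : ℝ, (Set.Ioo (-1 : ℝ) 1).indicator (fun z => (√|z|)⁻¹) z := by
    apply integral_nonneg
    intro z
    apply Set.indicator_nonneg
    intro z _
    positivity
  have := Real.pi_pos
  linarith

theorem sqrt_inv_bound (y ζ : ℝ) : (√|y|)⁻¹ * (1 + (ζ - y) ^ 2)⁻¹ ≤
    (Set.Ioo (-1 : ℝ) 1).indicator (fun z => (√|z|)⁻¹) y + (1 + (ζ - y) ^ 2)⁻¹ := by
  have h0 : 0 ≤ (√|y|)⁻¹ := by positivity
  have h1 : 0 < (1 + (ζ - y) ^ 2)⁻¹ := by positivity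
  have h2 : (1 + (ζ - y) ^ 2)⁻¹ ≤ 1 := inv_le_one_of_one_le₀ (by nlinarith [sq_nonneg (ζ - y)])
  by_cases hy : y ∈ Set.Ioo (-1 : ℝ) 1
  · rw [Set.indicator_of_mem hy]
    nlinarith
  · rw [Set.indicator_of_notMem hy]
    have h3 : 1 ≤ |y| := by
      rw [Set.mem_Ioo, not_and_or, not_lt, not_lt] at hy
      rcases hy with hy | hy
      · rw [abs_of_nonpos (by linarith)]; linarith
      · rw [abs_of_nonneg (by linarith)]; linarith
    have h4 : (√|y|)⁻¹ ≤ 1 := inv_le_one_of_one_le₀ (by rw [Real.one_le_sqrt]; exact h3)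
    nlinarith

theorem integrable_shift (ζ : ℝ) : Integrable (fun y : ℝ => (1 + (ζ - y) ^ 2)⁻¹) :=
  integrable_inv_one_add_sq.comp_sub_left ζ

theorem integral_shift (ζ : ℝ) : ∫ y : ℝ, (1 + (ζ - y) ^ 2)⁻¹ = Real.pi := by
  rw [integral_sub_left_eq_self (fun y : ℝ => (1 + y ^ 2)⁻¹), integral_univ_inv_one_add_sq]

theorem intA1 (ζ : ℝ) : Integrable (fun y : ℝ => (√|y|)⁻¹ * (1 + (ζ - y) ^ 2)⁻¹) ∧
    ∫ y : ℝ, (√|y|)⁻¹ * (1 + (ζ - y) ^ 2)⁻¹ ≤ cA := by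
  have hI : Integrable (fun y : ℝ => (Set.Ioo (-1 : ℝ) 1).indicator (fun z => (√|z|)⁻¹) y + (1 + (ζ - y) ^ 2)⁻¹) :=
    integrable_sqrt_inv.add (integrable_shift ζ)
  have h1 : Integrable (fun y : ℝ => (√|y|)⁻¹ * (1 + (ζ - y) ^ 2)⁻¹) := by
    refine hI.mono' ?_ ?_
    · apply Measurable.aestronglyMeasurable
      fun_prop
    · filter_upwards with y
      rw [Real.norm_of_nonneg (by positivity)]
      exact sqrt_inv_bound y ζ
  refine ⟨h1, ?_⟩
  calc ∫ y : ℝ, (√|y|)⁻¹ * (1 + (ζ - y) ^ 2)⁻¹ ≤ ∫ y : ℝ, ((Set.Ioo (-1 : ℝ) 1).indicator (fun z => (√|z|)⁻¹) y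
        + (1 + (ζ - y) ^ 2)⁻¹) := integral_mono h1 hI (fun y => sqrt_inv_bound y ζ)
    _ = cA := by rw [integral_add integrable_sqrt_inv (integrable_shift ζ), integral_shift]; rfl

/-- the scaled profile -/
def wb (b z : ℝ) : ℝ := (1 + (b * z) ^ 2)⁻¹

theorem wb_pos (b z : ℝ) : 0 < wb b z := by unfold wb; positivity
theorem wb_le_one (b z : ℝ) : wb b z ≤ 1 := inv_le_one_of_one_le₀ (by nlinarith [sq_nonneg (b * z)])
theorem wb_neg (b z : ℝ) : wb b (-z) = wb b z := by unfold wb; ring_nf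

theorem intA2 {b : ℝ} (hb : 0 < b) (ζ : ℝ) : Integrable (fun z : ℝ => (√|z|)⁻¹ * wb b (ζ - z)) ∧
    ∫ z : ℝ, (√|z|)⁻¹ * wb b (ζ - z) ≤ cA * (√b)⁻¹ := by
  obtain ⟨h1, h2⟩ := intA1 (b * ζ)
  have e : ∀ z : ℝ, (√|z|)⁻¹ * wb b (ζ - z) = √b * ((√|b * z|)⁻¹ * (1 + (b * ζ - b * z) ^ 2)⁻¹) := by
    intro z
    have hs : √b ≠ 0 := (Real.sqrt_pos.2 hb).ne'
    rw [abs_mul, abs_of_pos hb, Real.sqrt_mul hb.le, mul_inv]
    unfold wb
    have : b * (ζ - z) = b * ζ - b * z := by ring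
    rw [this]
    field_simp
  simp_rw [e]
  have h3 := (h1.comp_mul_left' hb.ne').const_mul (√b)
  refine ⟨h3, ?_⟩
  rw [integral_const_mul, Measure.integral_comp_mul_left (fun y => (√|y|)⁻¹ * (1 + (b * ζ - y) ^ 2)⁻¹) b]
  rw [abs_of_pos (inv_pos.2 hb), smul_eq_mul]
  have hs : 0 < √b := Real.sqrt_pos.2 hb
  have e2 : √b * (b⁻¹ * ∫ y : ℝ, (√|y|)⁻¹ * (1 + (b * ζ - y) ^ 2)⁻¹) =
      (∫ y : ℝ, (√|y|)⁻¹ * (1 + (b * ζ - y) ^ 2)⁻¹) * (√b)⁻¹ := by
    have : b⁻¹ = (√b)⁻¹ * (√b)⁻¹ := by rw [← mul_inv, Real.mul_self_sqrt hb.le]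
    rw [this]
    field_simp
  rw [e2]
  exact mul_le_mul_of_nonneg_right h2 (by positivity)

/-- Splitting inequality for the profile. -/
theorem wb_half {b ζ z : ℝ} (h : |ζ| ≤ 2 * |z|) : wb b z ≤ 4 * wb b ζ := by
  unfold wb
  rw [inv_eq_one_div, inv_eq_one_div, mul_one_div, div_le_div_iff₀ (by positivity) (by positivity)]
  have h1 : ζ ^ 2 ≤ 4 * z ^ 2 := by
    have := mul_self_le_mul_self (abs_nonneg ζ) h
    nlinarith [sq_abs ζ, sq_abs z]
  have h2 : b ^ 2 * ζ ^ 2 ≤ b ^ 2 * (4 * z ^ 2) := mul_le_mul_of_nonneg_left h1 (sq_nonneg b)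
  nlinarith

theorem abs_split (ζ z : ℝ) : |ζ| ≤ 2 * |z| ∨ |ζ| ≤ 2 * |ζ - z| := by
  by_contra h
  push Not at h
  have := abs_add_le z (ζ - z)
  have e : z + (ζ - z) = ζ := by ring
  rw [e] at this
  linarith [h.1, h.2]

/-- weight in the transversal directions -/
def pa (b z : ℝ) : ℝ := wb b z ^ 4
/-- weight in the longitudinal directions -/
def pb (b z : ℝ) : ℝ := wb b z ^ 4 * wb 1 z

theorem pa_pos (b z : ℝ) : 0 < pa b z := pow_pos (wb_pos b z) 4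
theorem pb_pos (b z : ℝ) : 0 < pb b z := mul_pos (pow_pos (wb_pos b z) 4) (wb_pos 1 z)
theorem pa_le_wb (b z : ℝ) : pa b z ≤ wb b z := by
  unfold pa
  have h1 := wb_pos b z
  have h2 := wb_le_one b z
  calc wb b z ^ 4 ≤ wb b z ^ 1 := pow_le_pow_of_le_one h1.le h2 (by norm_num)
    _ = wb b z := pow_one _
theorem pb_le_wb (b z : ℝ) : pb b z ≤ wb 1 z := by
  unfold pb
  have h1 := wb_pos b z
  have h2 := wb_le_one b z
  have h3 := wb_pos 1 z
  have : wb b z ^ 4 ≤ 1 := pow_le_one₀ h1.le h2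
  nlinarith
theorem pa_le_one (b z : ℝ) : pa b z ≤ 1 := (pa_le_wb b z).trans (wb_le_one b z)
theorem pb_le_one (b z : ℝ) : pb b z ≤ 1 := (pb_le_wb b z).trans (wb_le_one 1 z)

theorem pa_split (b ζ z : ℝ) : pa b (ζ - z) * pa b z ≤ 256 * pa b ζ * (wb b (ζ - z) + wb b (0 - z)) := by
  have e0 : wb b (0 - z) = wb b z := by rw [zero_sub, wb_neg]
  rw [e0]
  have p1 := pa_pos b ζ
  have p2 := pa_pos b z
  have p3 := pa_pos b (ζ - z)
  have q2 := pa_le_wb b z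
  have q3 := pa_le_wb b (ζ - z)
  have w2 := wb_pos b z
  have w3 := wb_pos b (ζ - z)
  rcases abs_split ζ z with h | h
  · have h1 : pa b z ≤ 256 * pa b ζ := by
      unfold pa
      calc wb b z ^ 4 ≤ (4 * wb b ζ) ^ 4 := pow_le_pow_left₀ (wb_pos b z).le (wb_half h) 4
        _ = _ := by ring
    calc pa b (ζ - z) * pa b z ≤ wb b (ζ - z) * (256 * pa b ζ) := mul_le_mul q3 h1 p2.le w3.le
      _ ≤ _ := by nlinarith
  · have h1 : pa b (ζ - z) ≤ 256 * pa b ζ := by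
      unfold pa
      calc wb b (ζ - z) ^ 4 ≤ (4 * wb b ζ) ^ 4 := pow_le_pow_left₀ (wb_pos b _).le (wb_half h) 4
        _ = _ := by ring
    calc pa b (ζ - z) * pa b z ≤ (256 * pa b ζ) * wb b z := mul_le_mul h1 q2 p2.le (by positivity)
      _ ≤ _ := by nlinarith

theorem pb_split (b ζ z : ℝ) : pb b (ζ - z) * pb b z ≤ 1024 * pb b ζ * (wb 1 (ζ - z) + wb 1 z) := by
  have p1 := pb_pos b ζ
  have p2 := pb_pos b z
  have p3 := pb_pos b (ζ - z)
  have q2 := pb_le_wb b z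
  have q3 := pb_le_wb b (ζ - z)
  have w2 := wb_pos 1 z
  have w3 := wb_pos 1 (ζ - z)
  rcases abs_split ζ z with h | h
  · have h1 : pb b z ≤ 1024 * pb b ζ := by
      unfold pb
      calc wb b z ^ 4 * wb 1 z ≤ (4 * wb b ζ) ^ 4 * (4 * wb 1 ζ) :=
            mul_le_mul (pow_le_pow_left₀ (wb_pos b z).le (wb_half h) 4) (wb_half h) (wb_pos 1 z).le
              (pow_nonneg (by have := wb_pos b ζ; linarith) 4)
        _ = _ := by ring
    calc pb b (ζ - z) * pb b z ≤ wb 1 (ζ - z) * (1024 * pb b ζ) := mul_le_mul q3 h1 p2.le w3.le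
      _ ≤ _ := by nlinarith
  · have h1 : pb b (ζ - z) ≤ 1024 * pb b ζ := by
      unfold pb
      calc wb b (ζ - z) ^ 4 * wb 1 (ζ - z) ≤ (4 * wb b ζ) ^ 4 * (4 * wb 1 ζ) :=
            mul_le_mul (pow_le_pow_left₀ (wb_pos b _).le (wb_half h) 4) (wb_half h) (wb_pos 1 _).le
              (pow_nonneg (by have := wb_pos b ζ; linarith) 4)
        _ = _ := by ring
    calc pb b (ζ - z) * pb b z ≤ (1024 * pb b ζ) * wb 1 z := mul_le_mul h1 q2 p2.le (by positivity)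
      _ ≤ _ := by nlinarith

theorem meas_wb (b : ℝ) : Measurable (wb b) := by unfold wb; fun_prop
theorem meas_pa (b : ℝ) : Measurable (pa b) := by unfold pa wb; fun_prop
theorem meas_pb (b : ℝ) : Measurable (pb b) := by unfold pb wb; fun_prop

theorem intA {b : ℝ} (hb : 0 < b) (ζ : ℝ) :
    Integrable (fun z : ℝ => (√|z|)⁻¹ * (pa b (ζ - z) * pa b z)) ∧
    ∫ z : ℝ, (√|z|)⁻¹ * (pa b (ζ - z) * pa b z) ≤ (512 * cA) * (√b)⁻¹ * pa b ζ := by
  obtain ⟨h1, h2⟩ := intA2 hb ζ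
  obtain ⟨h3, h4⟩ := intA2 hb 0
  have hI : Integrable (fun z : ℝ => 256 * pa b ζ * ((√|z|)⁻¹ * wb b (ζ - z) + (√|z|)⁻¹ * wb b (0 - z))) :=
    (h1.add h3).const_mul _
  have hb2 : ∀ z : ℝ, (√|z|)⁻¹ * (pa b (ζ - z) * pa b z) ≤
      256 * pa b ζ * ((√|z|)⁻¹ * wb b (ζ - z) + (√|z|)⁻¹ * wb b (0 - z)) := by
    intro z
    have := mul_le_mul_of_nonneg_left (pa_split b ζ z) (by positivity : 0 ≤ (√|z|)⁻¹)
    linarith
  have hi : Integrable (fun z : ℝ => (√|z|)⁻¹ * (pa b (ζ - z) * pa b z)) := by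
    refine hI.mono' ?_ ?_
    · apply Measurable.aestronglyMeasurable
      have := meas_pa b
      fun_prop
    · filter_upwards with z
      rw [Real.norm_of_nonneg (by have := pa_pos b (ζ - z); have := pa_pos b z; positivity)]
      exact hb2 z
  refine ⟨hi, ?_⟩
  calc _ ≤ ∫ z : ℝ, 256 * pa b ζ * ((√|z|)⁻¹ * wb b (ζ - z) + (√|z|)⁻¹ * wb b (0 - z)) := integral_mono hi hI hb2
    _ = 256 * pa b ζ * ((∫ z : ℝ, (√|z|)⁻¹ * wb b (ζ - z)) + ∫ z : ℝ, (√|z|)⁻¹ * wb b (0 - z)) := by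
        rw [integral_const_mul, integral_add h1 h3]
    _ ≤ 256 * pa b ζ * (cA * (√b)⁻¹ + cA * (√b)⁻¹) := by
        apply mul_le_mul_of_nonneg_left (add_le_add h2 h4)
        have := pa_pos b ζ; positivity
    _ = _ := by ring

theorem intB (b ζ : ℝ) :
    Integrable (fun z : ℝ => pb b (ζ - z) * pb b z) ∧
    ∫ z : ℝ, pb b (ζ - z) * pb b z ≤ (2048 * Real.pi) * pb b ζ := by
  have h1 : Integrable (fun z : ℝ => wb 1 (ζ - z)) := by
    have := integrable_shift ζ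
    simpa [wb] using this
  have h3 : Integrable (fun z : ℝ => wb 1 z) := by
    simpa [wb] using integrable_inv_one_add_sq
  have h2 : ∫ z : ℝ, wb 1 (ζ - z) = Real.pi := by simpa [wb] using integral_shift ζ
  have h4 : ∫ z : ℝ, wb 1 z = Real.pi := by simpa [wb] using integral_univ_inv_one_add_sq
  have hI : Integrable (fun z : ℝ => 1024 * pb b ζ * (wb 1 (ζ - z) + wb 1 z)) := (h1.add h3).const_mul _
  have hi : Integrable (fun z : ℝ => pb b (ζ - z) * pb b z) := by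
    refine hI.mono' ?_ ?_
    · apply Measurable.aestronglyMeasurable
      have := meas_pb b
      fun_prop
    · filter_upwards with z
      rw [Real.norm_of_nonneg (by have := pb_pos b (ζ - z); have := pb_pos b z; positivity)]
      exact pb_split b ζ z
  refine ⟨hi, ?_⟩
  calc _ ≤ ∫ z : ℝ, 1024 * pb b ζ * (wb 1 (ζ - z) + wb 1 z) := integral_mono hi hI (pb_split b ζ)
    _ = 1024 * pb b ζ * (Real.pi + Real.pi) := by
        rw [integral_const_mul, integral_add h1 h3, h2, h4]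
    _ = _ := by ring

end

end Pool.Agent.H133R3.KS
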