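import Pool.Agent.H133R3.KS.K9

set_option autoImplicit false

open MeasureTheory Filter Topology

namespace Pool.Agent.H133R3.KS

noncomputable section

def Gs (s : ℝ) (x : E) : ℝ := Real.exp (-(Real.pi * s * ‖x‖ ^ 2))

theorem Gs_pos (s : ℝ) (x : E) : 0 < Gs s x := Real.exp_pos _
theorem Gs_cont (s : ℝ) : Continuous (Gs s) := by unfold Gs; fun_prop

theorem Gs_ee (s : ℝ) (x ξ : E) : ((Gs s x : ℝ) : ℂ) * ee x ξ =
    Complex.exp (-((Real.pi * s : ℝ) : ℂ) * ((‖x‖ : ℝ) : ℂ) ^ 2 + (2 * Real.pi * Complex.I) * ((inner ℝ ξ x : ℝ) : ℂ)) := by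
  unfold Gs ee
  rw [Complex.ofReal_exp, ← Complex.exp_add, real_inner_comm]
  congr 1
  push_cast
  ring

theorem Gs_ee_integrable {s : ℝ} (hs : 0 < s) (ξ : E) : Integrable (fun x => ((Gs s x : ℝ) : ℂ) * ee x ξ) := by
  have hb : 0 < (((Real.pi * s : ℝ) : ℂ)).re := by rw [Complex.ofReal_re]; have := Real.pi_pos; positivity
  have h := GaussianFourier.integrable_cexp_neg_mul_sq_norm_add (V := E) hb (2 * Real.pi * Complex.I) ξ
  simp_rw [Gs_ee]
  exact h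

theorem gauss_FT {s : ℝ} (hs : 0 < s) (ξ : E) : ∫ x, ((Gs s x : ℝ) : ℂ) * ee x ξ =
    (((s ^ 2)⁻¹ * Gs s⁻¹ ξ : ℝ) : ℂ) := by
  have hp := Real.pi_pos
  have hb : 0 < (((Real.pi * s : ℝ) : ℂ)).re := by rw [Complex.ofReal_re]; positivity
  have h := GaussianFourier.integral_cexp_neg_mul_sq_norm_add (V := E) hb (2 * Real.pi * Complex.I) ξ
  simp_rw [Gs_ee]
  rw [h]
  have hs0 : (s : ℂ) ≠ 0 := Complex.ofReal_ne_zero.2 hs.ne'
  have hp0 : (Real.pi : ℂ) ≠ 0 := Complex.ofReal_ne_zero.2 hp.ne'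
  have e1 : ((Real.pi : ℂ) / ((Real.pi * s : ℝ) : ℂ)) = (s : ℂ)⁻¹ := by
    push_cast; field_simp
  have e2 : ((Module.finrank ℝ E : ℂ) / 2) = ((2 : ℕ) : ℂ) := by
    rw [finrank_euclideanSpace_fin]; norm_num
  rw [e1, e2, Complex.cpow_natCast]
  unfold Gs
  push_cast
  congr 1
  · rw [inv_pow]
  · congr 1
    rw [mul_pow, Complex.I_sq]
    field_simp
    ring

theorem Gs_integrable {s : ℝ} (hs : 0 < s) : Integrable (Gs s) := by
  have h := (Gs_ee_integrable hs 0).re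
  refine h.congr ?_
  filter_upwards with x
  simp [ee]

theorem Gs_integral {s : ℝ} (hs : 0 < s) : ∫ x, Gs s x = (s ^ 2)⁻¹ := by
  have h := gauss_FT hs 0
  have e : ∀ x : E, ((Gs s x : ℝ) : ℂ) * ee x 0 = ((Gs s x : ℝ) : ℂ) := by
    intro x; simp [ee]
  simp_rw [e] at h
  rw [integral_complex_ofReal] at h
  have h2 := Complex.ofReal_injective h
  rw [h2]
  simp [Gs]

theorem FF_pair {A : ℝ → E → ℝ} (h : Dom A) (t : ℝ) {G : E → ℂ} (hG : Integrable G) :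
    ∫ x, FF A (t, x) * G x = ∫ ξ, (A t ξ : ℂ) * ∫ x, G x * ee x ξ := by
  have hA : Integrable (fun ξ => (A t ξ : ℂ)) := by
    have h1 := integrable_FF h (t, 0)
    refine h1.congr ?_
    filter_upwards with ξ
    simp [ee]
  have hprod : Integrable (fun z : E × E => G z.1 * (A t z.2 : ℂ)) (volume.prod volume) := hG.mul_prod hA
  have hprod2 : Integrable (fun z : E × E => (G z.1 * (A t z.2 : ℂ)) * ee z.1 z.2) (volume.prod volume) := by
    refine hprod.mono (hprod.aestronglyMeasurable.mul cont_ee.aestronglyMeasurable) ?_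
    filter_upwards with z
    rw [norm_mul, norm_ee, mul_one]
  have e1 : ∀ x, FF A (t, x) * G x = ∫ ξ, (G x * (A t ξ : ℂ)) * ee x ξ := by
    intro x
    unfold FF
    rw [← integral_mul_const]
    congr 1
    ext ξ
    ring
  simp_rw [e1]
  rw [integral_integral_swap (f := fun x ξ => (G x * (A t ξ : ℂ)) * ee x ξ) hprod2]
  congr 1
  ext ξ
  rw [← integral_const_mul]
  congr 1
  ext x
  ring

section
variable {N0 : E → ℝ} {N : ℝ → E → ℝ}

theorem Sol.nn_eq (h : Sol N0 N) (t : ℝ) (x : E) : FF N (t, x) = ((nn N t x : ℝ) : ℂ) := by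
  apply Complex.ext
  · simp [nn]
  · rw [Complex.ofReal_im]
    exact FF_even_im h.even _

theorem Sol.nn_gauss (h : Sol N0 N) (t : ℝ) {s : ℝ} (hs : 0 < s) :
    ∫ x, nn N t x * Gs s x = ∫ ξ, N t ξ * ((s ^ 2)⁻¹ * Gs s⁻¹ ξ) := by
  have hG : Integrable (fun x => ((Gs s x : ℝ) : ℂ)) := (Gs_integrable hs).ofReal
  have h1 := FF_pair h.Dom_N t hG
  simp_rw [gauss_FT hs, h.nn_eq] at h1
  have e1 : ∀ x, ((nn N t x : ℝ) : ℂ) * ((Gs s x : ℝ) : ℂ) = ((nn N t x * Gs s x : ℝ) : ℂ) := by intro x; push_cast; ring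
  have e2 : ∀ ξ, ((N t ξ : ℝ) : ℂ) * (((s ^ 2)⁻¹ * Gs s⁻¹ ξ : ℝ) : ℂ) = ((N t ξ * ((s ^ 2)⁻¹ * Gs s⁻¹ ξ) : ℝ) : ℂ) := by
    intro x; push_cast; ring
  simp_rw [e1, e2] at h1
  rw [integral_complex_ofReal, integral_complex_ofReal] at h1
  exact Complex.ofReal_injective h1

theorem Sol.nn_cont_x (h : Sol N0 N) (t : ℝ) : Continuous (nn N t) := slice1 h.cont_nn t

theorem Sol.integrable_nn (h : Sol N0 N) (t : ℝ) (h0 : ∀ x, 0 ≤ nn N t x) : Integrable (nn N t) := by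
  obtain ⟨C, hC, hb⟩ := h.Rbd
  obtain ⟨K0, hK0⟩ := h.nn_bd
  have hbC : ∀ ξ, |N t ξ| ≤ C := fun ξ => (hb t ξ).trans (by have := P_le_one ξ; nlinarith [P_pos ξ])
  let f : ℕ → E → ℝ := fun k x => nn N t x * Gs (1 / ((k : ℝ) + 1)) x
  have hspos : ∀ k : ℕ, (0 : ℝ) < 1 / ((k : ℝ) + 1) := fun k => by positivity
  have hfint : ∀ k, Integrable (f k) := by
    intro k
    refine ((Gs_integrable (hspos k)).const_mul K0).mono' ?_ ?_
    · exact ((h.nn_cont_x t).mul (Gs_cont _)).aestronglyMeasurable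
    · filter_upwards with x
      rw [norm_mul, Real.norm_eq_abs, Real.norm_of_nonneg (Gs_pos _ _).le]
      exact mul_le_mul_of_nonneg_right (hK0 t x) (Gs_pos _ _).le
  have hflim : ∀ᵐ x : E, Tendsto (fun k => f k x) atTop (𝓝 (nn N t x)) := by
    filter_upwards with x
    have h1 : Tendsto (fun k : ℕ => 1 / ((k : ℝ) + 1)) atTop (𝓝 0) := tendsto_one_div_add_atTop_nhds_zero_nat
    have h2 : Continuous fun s : ℝ => nn N t x * Gs s x := by unfold Gs; fun_prop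
    have h3 := (h2.tendsto 0).comp h1
    have e : nn N t x * Gs 0 x = nn N t x := by simp [Gs]
    rw [e] at h3
    exact h3
  have hfle : ∀ k, ∫ x, f k x ≤ C := by
    intro k
    have hs := hspos k
    have hs' := inv_pos.2 hs
    show ∫ x, nn N t x * Gs (1 / ((k : ℝ) + 1)) x ≤ C
    rw [h.nn_gauss t hs]
    obtain ⟨s, hss⟩ : ∃ s : ℝ, s = 1 / ((k : ℝ) + 1) := ⟨_, rfl⟩
    rw [← hss] at hs hs' ⊢
    have hi : Integrable (fun ξ : E => C * ((s ^ 2)⁻¹ * Gs s⁻¹ ξ)) := ((Gs_integrable hs').const_mul _).const_mul _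
    have hle : ∀ ξ : E, N t ξ * ((s ^ 2)⁻¹ * Gs s⁻¹ ξ) ≤ C * ((s ^ 2)⁻¹ * Gs s⁻¹ ξ) := by
      intro ξ
      apply mul_le_mul_of_nonneg_right ((le_abs_self _).trans (hbC ξ))
      have := Gs_pos s⁻¹ ξ
      positivity
    calc ∫ ξ, N t ξ * ((s ^ 2)⁻¹ * Gs s⁻¹ ξ) ≤ ∫ ξ, C * ((s ^ 2)⁻¹ * Gs s⁻¹ ξ) := by
          apply integral_mono _ hi hle
          refine hi.mono' ?_ ?_
          · exact ((slice1 h.cont t).mul (continuous_const.mul (Gs_cont _))).aestronglyMeasurable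
          · filter_upwards with ξ
            have := Gs_pos s⁻¹ ξ
            rw [norm_mul, Real.norm_eq_abs, Real.norm_of_nonneg (by positivity : 0 ≤ (s ^ 2)⁻¹ * Gs s⁻¹ ξ)]
            exact mul_le_mul_of_nonneg_right (hbC ξ) (by positivity)
      _ = C := by
          rw [integral_const_mul, integral_const_mul, Gs_integral hs']
          have : s ≠ 0 := hs.ne'
          field_simp
  have hlin : ∀ k, ∫⁻ x, ‖f k x‖ₑ ≤ ENNReal.ofReal C := by
    intro k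
    rw [← ofReal_integral_norm_eq_lintegral_enorm (hfint k)]
    apply ENNReal.ofReal_le_ofReal
    refine le_trans (le_of_eq ?_) (hfle k)
    congr 1
    ext x
    rw [Real.norm_of_nonneg (mul_nonneg (h0 x) (Gs_pos _ _).le)]
  refine ⟨(h.nn_cont_x t).aestronglyMeasurable, ?_⟩
  have h3 : ∫⁻ x, ‖nn N t x‖ₑ ≤ liminf (fun k => ∫⁻ x, ‖f k x‖ₑ) atTop := by
    have e : ∫⁻ x, ‖nn N t x‖ₑ = ∫⁻ x, liminf (fun k => ‖f k x‖ₑ) atTop :=
      lintegral_congr_ae (by filter_upwards [hflim] with x hx using hx.enorm.liminf_eq.symm)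
    rw [e]
    exact lintegral_liminf_le' (fun k => (hfint k).aestronglyMeasurable.enorm)
  refine lt_of_le_of_lt h3 ?_
  refine lt_of_le_of_lt ?_ (ENNReal.ofReal_lt_top (r := C))
  exact liminf_le_of_le (by isBoundedDefault) (fun b hb => by
    obtain ⟨k, hk⟩ := hb.exists
    exact hk.trans (hlin k))

end

end

end Pool.Agent.H133R3.KS
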