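import Pool.Agent.H133R3.KS.K10

set_option autoImplicit false

open MeasureTheory Filter Topology

namespace Pool.Agent.H133R3.KS

noncomputable section

/-! ### One dimensional integrals for subordination -/

theorem gam_int {r : ℝ} (hr : 0 < r) : IntegrableOn (fun s : ℝ => s * Real.exp (-(r * s))) (Set.Ioi 0) ∧
    ∫ s in Set.Ioi (0 : ℝ), s * Real.exp (-(r * s)) = (r ^ 2)⁻¹ := by
  constructor
  · have h := integrableOn_rpow_mul_exp_neg_mul_rpow (s := 1) (p := 1) (b := r) (by norm_num) (by norm_num) hr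
    refine h.congr_fun ?_ measurableSet_Ioi
    intro s _
    simp only [Real.rpow_one]
    rw [neg_mul]
  · have h := Real.integral_rpow_mul_exp_neg_mul_Ioi (a := 2) (r := r) (by norm_num) hr
    have e : ∫ s in Set.Ioi (0 : ℝ), s * Real.exp (-(r * s)) = ∫ t in Set.Ioi (0 : ℝ), t ^ ((2 : ℝ) - 1) * Real.exp (-(r * t)) := by
      apply setIntegral_congr_fun measurableSet_Ioi
      intro s _
      simp only
      norm_num
    rw [e, h]
    have : Real.Gamma 2 = 1 := Real.Gamma_two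
    rw [this, mul_one, one_div]
    rw [show (2 : ℝ) = ((2 : ℕ) : ℝ) by norm_num, Real.rpow_natCast, inv_pow]

theorem inv_int {r : ℝ} (hr : 0 < r) : IntegrableOn (fun s : ℝ => (s ^ 2)⁻¹ * Real.exp (-(r * s⁻¹))) (Set.Ioi 0) ∧
    ∫ s in Set.Ioi (0 : ℝ), (s ^ 2)⁻¹ * Real.exp (-(r * s⁻¹)) = r⁻¹ := by
  have e : ∀ s ∈ Set.Ioi (0 : ℝ), (|(-1 : ℝ)| * s ^ ((-1 : ℝ) - 1)) • (fun y : ℝ => Real.exp (-(r * y))) (s ^ (-1 : ℝ)) =
      (s ^ 2)⁻¹ * Real.exp (-(r * s⁻¹)) := by
    intro s hs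
    have hs0 : (0 : ℝ) < s := hs
    simp only [smul_eq_mul]
    rw [Real.rpow_neg_one, abs_neg, abs_one, one_mul, show (-1 : ℝ) - 1 = -((2 : ℕ) : ℝ) by norm_num,
      Real.rpow_neg hs0.le, Real.rpow_natCast]
  have hexp : IntegrableOn (fun y : ℝ => Real.exp (-(r * y))) (Set.Ioi 0) := by
    have := integrableOn_exp_mul_Ioi (a := -r) (by linarith) 0
    simpa [neg_mul] using this
  constructor
  · have h := (integrableOn_Ioi_comp_rpow_iff (fun y : ℝ => Real.exp (-(r * y))) (p := -1) (by norm_num)).2 hexp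
    exact h.congr_fun e measurableSet_Ioi
  · have h := integral_comp_rpow_Ioi (fun y : ℝ => Real.exp (-(r * y))) (p := -1) (by norm_num)
    rw [setIntegral_congr_fun measurableSet_Ioi e] at h
    rw [h]
    have := integral_exp_mul_Ioi (a := -r) (by linarith) 0
    simp only [neg_mul] at this
    rw [this]
    simp

theorem loc_int {p : ℕ} (hp : p ≤ 3) : Integrable (fun z : E => if ‖z‖ < 1 then (‖z‖ ^ p)⁻¹ else 0) := by
  have h := integrable_fun_norm_addHaar (volume : Measure E) (f := fun r : ℝ => if r < 1 then (r ^ p)⁻¹ else 0)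
  rw [h]
  have h1 : IntegrableOn (Set.indicator (Set.Ioo (0 : ℝ) 1) (fun _ => (1 : ℝ))) (Set.Ioi 0) := by
    apply Integrable.integrableOn
    rw [integrable_indicator_iff measurableSet_Ioo]
    simp
  refine h1.mono' ?_ ?_
  · apply Measurable.aestronglyMeasurable
    simp only [smul_eq_mul]
    apply Measurable.mul (by fun_prop)
    exact Measurable.ite (measurableSet_lt measurable_id measurable_const) (by fun_prop) measurable_const
  · rw [ae_restrict_iff' measurableSet_Ioi]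
    filter_upwards with r hr
    have hr0 : (0 : ℝ) < r := hr
    by_cases h1 : r < 1
    · rw [if_pos h1, Set.indicator_of_mem (show r ∈ Set.Ioo (0 : ℝ) 1 from ⟨hr0, h1⟩), finrank_euclideanSpace_fin, smul_eq_mul,
        Real.norm_of_nonneg (by positivity)]
      have : r ^ (4 - 1) ≤ r ^ p := pow_le_pow_of_le_one hr0.le h1.le (by omega)
      calc r ^ (4 - 1) * (r ^ p)⁻¹ ≤ r ^ p * (r ^ p)⁻¹ := mul_le_mul_of_nonneg_right this (by positivity)
        _ = 1 := mul_inv_cancel₀ (by positivity)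
    · rw [if_neg h1, smul_zero, norm_zero]
      apply Set.indicator_nonneg
      intro _ _
      norm_num

/-- convolution bound against `‖·‖^{-p}` -/
theorem sing_int {p : ℕ} (hp : p ≤ 3) {f : E → ℝ} {K0 : ℝ} (hf : Integrable f) (hb : ∀ y, |f y| ≤ K0) (x : E) :
    Integrable (fun y => |f y| * (‖x - y‖ ^ p)⁻¹) := by
  have h1 : Integrable (fun y : E => if ‖x - y‖ < 1 then (‖x - y‖ ^ p)⁻¹ else 0) := (loc_int hp).comp_sub_left x
  refine ((h1.const_mul K0).add hf.abs).mono' ?_ ?_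
  · exact hf.abs.aestronglyMeasurable.mul (by fun_prop : Measurable fun y : E => (‖x - y‖ ^ p)⁻¹).aestronglyMeasurable
  · filter_upwards with y
    rw [Real.norm_of_nonneg (by positivity)]
    simp only [Pi.add_apply]
    have h0 : 0 ≤ (‖x - y‖ ^ p)⁻¹ := by positivity
    by_cases h : ‖x - y‖ < 1
    · rw [if_pos h]
      have := mul_le_mul_of_nonneg_right (hb y) h0
      have := abs_nonneg (f y)
      linarith
    · rw [if_neg h, mul_zero, zero_add]
      push Not at h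
      have : (‖x - y‖ ^ p)⁻¹ ≤ 1 := inv_le_one_of_one_le₀ (one_le_pow₀ h)
      calc |f y| * (‖x - y‖ ^ p)⁻¹ ≤ |f y| * 1 := mul_le_mul_of_nonneg_left this (abs_nonneg _)
        _ = |f y| := mul_one _

theorem vol_ball : (volume (Metric.ball (0 : E) 1)).toReal = Real.pi ^ 2 / 2 := by
  rw [EuclideanSpace.volume_ball, Fintype.card_fin, ENNReal.toReal_mul, ENNReal.toReal_pow, ENNReal.toReal_ofReal (by norm_num),
    ENNReal.toReal_ofReal (by have := Real.Gamma_pos_of_pos (s := ((4 : ℕ) : ℝ) / 2 + 1) (by norm_num); positivity)]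
  have e1 : ((4 : ℕ) : ℝ) / 2 + 1 = ((2 : ℕ) : ℝ) + 1 := by norm_num
  rw [e1, Real.Gamma_nat_eq_factorial]
  have e2 : √Real.pi ^ 4 = Real.pi ^ 2 := by
    rw [show 4 = 2 * 2 by norm_num, pow_mul, Real.sq_sqrt Real.pi_pos.le]
  rw [e2]
  norm_num

/-! ### Fourier transform of `z_j exp(-π s |z|²)` -/

theorem ee_comm (x ξ : E) : ee x ξ = ee ξ x := by
  unfold ee
  rw [real_inner_comm]

theorem norm_Gs_bound {s : ℝ} (hs : 0 < s) (z : E) : ‖z‖ * Gs s z ≤ (√(Real.pi * s))⁻¹ * Gs (s / 2) z := by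
  have hp := Real.pi_pos
  have hq : 0 < √(Real.pi * s) := Real.sqrt_pos.2 (by positivity)
  have h1 := exp_mul_le (√(Real.pi * s) * ‖z‖) (by positivity)
  rw [mul_pow, Real.sq_sqrt (by positivity)] at h1
  have h2 : Gs s z = Real.exp (-(Real.pi * s * ‖z‖ ^ 2 / 2)) * Gs (s / 2) z := by
    unfold Gs
    rw [← Real.exp_add]
    congr 1
    ring
  rw [h2]
  have h3 := Gs_pos (s / 2) z
  calc ‖z‖ * (Real.exp (-(Real.pi * s * ‖z‖ ^ 2 / 2)) * Gs (s / 2) z) =
        (√(Real.pi * s))⁻¹ * (Real.exp (-(Real.pi * s * ‖z‖ ^ 2 / 2)) * (√(Real.pi * s) * ‖z‖)) * Gs (s / 2) z := by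
        field_simp
    _ ≤ (√(Real.pi * s))⁻¹ * 1 * Gs (s / 2) z := by gcongr
    _ = _ := by ring

theorem zGs_integrable {s : ℝ} (hs : 0 < s) (j : Fin 4) : Integrable (fun z : E => z j * Gs s z) := by
  refine ((Gs_integrable (half_pos hs)).const_mul ((√(Real.pi * s))⁻¹)).mono' ?_ ?_
  · exact ((by fun_prop : Continuous fun z : E => z j).mul (Gs_cont s)).aestronglyMeasurable
  · filter_upwards with z
    rw [norm_mul, Real.norm_eq_abs, Real.norm_of_nonneg (Gs_pos _ _).le]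
    exact (mul_le_mul_of_nonneg_right (abs_le_norm z j) (Gs_pos _ _).le).trans (norm_Gs_bound hs z)

theorem zg_FT {s : ℝ} (hs : 0 < s) (j : Fin 4) (ζ : E) : ∫ z : E, ((z j * Gs s z : ℝ) : ℂ) * ee z ζ =
    Complex.I * ((ζ j * ((s ^ 3)⁻¹ * Gs s⁻¹ ζ) : ℝ) : ℂ) := by
  have hp := Real.pi_pos
  let A : ℝ → E → ℝ := fun _ z => Gs s z
  have hA : Dom A := ⟨fun _ => continuous_const, fun _ => (Gs_cont s).aestronglyMeasurable, Gs s, Gs_integrable hs,
    fun _ ξ => (abs_of_pos (Gs_pos s ξ)).le⟩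
  have hX : ∀ j, Dom (xi j A) := fun j => ⟨fun ξ => (continuous_const : Continuous fun _ : ℝ => ξ j * Gs s ξ), fun _ => (zGs_integrable hs j).aestronglyMeasurable,
    fun z => |z j * Gs s z|, (zGs_integrable hs j).abs, fun _ ξ => le_rfl⟩
  have h0 : Dom (fun _ _ => (0 : ℝ)) := ⟨fun _ => continuous_const, fun _ => aestronglyMeasurable_const, fun _ => 0,
    integrable_zero _ _ _, fun _ _ => by simp⟩
  have h1 := space_deriv hA hX h0 (fun ξ t _ => hasDerivAt_const t (Gs s ξ)) 1 one_pos ζ 1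
  have e1 : (fun y : E => (1 * FF A (1, y)).re) = fun y => (s ^ 2)⁻¹ * Gs s⁻¹ y := by
    ext y
    have : FF A (1, y) = (((s ^ 2)⁻¹ * Gs s⁻¹ y : ℝ) : ℂ) := by
      rw [← gauss_FT hs]
      unfold FF
      congr 1
      ext ξ
      rw [ee_comm]
    rw [one_mul, this, Complex.ofReal_re]
  rw [e1] at h1
  have h2 : HasFDerivAt (fun y : E => (s ^ 2)⁻¹ * Gs s⁻¹ y)
      (∑ j, ((s ^ 2)⁻¹ * (Gs s⁻¹ ζ * (-(Real.pi * s⁻¹) * (2 * ζ j)))) • projL j) ζ := by
    have h3 : ∀ j : Fin 4, HasFDerivAt (fun x : E => (x j) ^ 2) ((2 * ζ j) • projL j) ζ := by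
      intro j
      have h4 : HasFDerivAt (fun x : E => x j) (projL j) ζ := (projL j).hasFDerivAt
      refine (h4.pow 2).congr_fderiv ?_
      ext v
      simp
    have h4 : HasFDerivAt (fun x : E => ∑ j, (x j) ^ 2) (∑ j, (2 * ζ j) • projL j) ζ := HasFDerivAt.fun_sum (fun j _ => h3 j)
    have h5 := ((h4.const_mul (-(Real.pi * s⁻¹))).exp).const_mul ((s ^ 2)⁻¹)
    have e2 : (fun y : E => (s ^ 2)⁻¹ * Gs s⁻¹ y) = fun x : E => (s ^ 2)⁻¹ * Real.exp (-(Real.pi * s⁻¹) * ∑ j, (x j) ^ 2) := by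
      ext y
      unfold Gs
      rw [norm_sq_eq]
      congr 2
      ring
    rw [e2]
    refine h5.congr_fderiv (ContinuousLinearMap.ext fun v => ?_)
    have e3 : Real.exp (-(Real.pi * s⁻¹) * ∑ j, (ζ j) ^ 2) = Gs s⁻¹ ζ := by
      unfold Gs
      rw [norm_sq_eq]
      congr 1
      ring
    simp only [_root_.sum_apply, _root_.smul_apply, smul_eq_mul, Finset.mul_sum] at e3 ⊢
    rw [e3]
    apply Finset.sum_congr rfl
    intro j _
    ring
  have h3 := h1.unique h2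
  have h4 := congrArg (fun L : E →L[ℝ] ℝ => L (EuclideanSpace.single j (1 : ℝ))) h3
  simp only [_root_.sum_apply, _root_.smul_apply, projL_single, smul_eq_mul, mul_ite, mul_one, mul_zero,
    Finset.sum_ite_eq', Finset.mem_univ, if_true, one_mul] at h4
  rw [cI_re] at h4
  have h5 : (FF (xi j A) (1, ζ)).im = ζ j * ((s ^ 3)⁻¹ * Gs s⁻¹ ζ) := by
    have : -(2 * Real.pi) * (FF (xi j A) (1, ζ)).im = -(2 * Real.pi) * (ζ j * ((s ^ 3)⁻¹ * Gs s⁻¹ ζ)) := by
      rw [h4]
      have := hs.ne'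
      field_simp
    exact mul_left_cancel₀ (by simp [hp.ne']) this
  have h6 : (FF (xi j A) (1, ζ)).re = 0 := FF_odd_re (fun t ξ => by simp [xi, A, Gs]) _
  have h7 : ∫ z : E, ((z j * Gs s z : ℝ) : ℂ) * ee z ζ = FF (xi j A) (1, ζ) := by
    unfold FF
    congr 1
    ext z
    rw [ee_comm]
    rfl
  rw [h7]
  apply Complex.ext
  · rw [h6, Complex.I_mul_re, Complex.ofReal_im, neg_zero]
  · rw [h5, Complex.I_mul_im, Complex.ofReal_re]

end

end Pool.Agent.H133R3.KS
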