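import Pool.Agent.H133R3.KS.K11

set_option autoImplicit false

open MeasureTheory Filter Topology

namespace Pool.Agent.H133R3.KS

noncomputable section

theorem ee_sub_left (x z ξ : E) : ee (x - z) ξ = ee x ξ * ee z (-ξ) := by
  unfold ee
  rw [← Complex.exp_add, inner_sub_left, inner_neg_right]
  congr 1
  push_cast
  ring

theorem shift_pair {s : ℝ} (hs : 0 < s) (x ξ : E) (j : Fin 4) :
    ∫ y : E, (((x - y) j * Gs s (x - y) : ℝ) : ℂ) * ee y ξ =
      ee x ξ * (-Complex.I * ((ξ j * ((s ^ 3)⁻¹ * Gs s⁻¹ ξ) : ℝ) : ℂ)) := by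
  have h1 := integral_sub_left_eq_self (fun z : E => ((z j * Gs s z : ℝ) : ℂ) * ee (x - z) ξ) volume x
  have e1 : ∀ y : E, (((x - y) j * Gs s (x - y) : ℝ) : ℂ) * ee (x - (x - y)) ξ =
      (((x - y) j * Gs s (x - y) : ℝ) : ℂ) * ee y ξ := by
    intro y
    rw [sub_sub_cancel]
  simp_rw [e1] at h1
  rw [h1]
  have e2 : ∀ z : E, ((z j * Gs s z : ℝ) : ℂ) * ee (x - z) ξ = ee x ξ * (((z j * Gs s z : ℝ) : ℂ) * ee z (-ξ)) := by
    intro z
    rw [ee_sub_left]
    ring
  simp_rw [e2]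
  rw [integral_const_mul, zg_FT hs]
  congr 1
  have e3 : Gs s⁻¹ (-ξ) = Gs s⁻¹ ξ := by unfold Gs; rw [norm_neg]
  rw [e3]
  simp only [PiLp.neg_apply]
  push_cast
  ring

section
variable {N0 : E → ℝ} {N : ℝ → E → ℝ}

theorem Sol.slice_pair (h : Sol N0 N) (t : ℝ) (x : E) (j : Fin 4) {s : ℝ} (hs : 0 < s) :
    ((∫ y, nn N t y * ((x - y) j * Gs s (x - y)) : ℝ) : ℂ) =
      ∫ ξ, ((N t ξ : ℝ) : ℂ) * (ee x ξ * (-Complex.I * ((ξ j * ((s ^ 3)⁻¹ * Gs s⁻¹ ξ) : ℝ) : ℂ))) := by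
  have hG : Integrable (fun y : E => (((x - y) j * Gs s (x - y) : ℝ) : ℂ)) :=
    (((zGs_integrable hs j).comp_sub_left x)).ofReal
  have h1 := FF_pair h.Dom_N t hG
  simp_rw [shift_pair hs, h.nn_eq] at h1
  rw [← h1, ← integral_complex_ofReal]
  congr 1
  ext y
  push_cast
  ring

theorem Gs_eq_exp (s : ℝ) (z : E) : Gs s z = Real.exp (-((Real.pi * ‖z‖ ^ 2) * s)) := by
  unfold Gs
  congr 1
  ring

theorem Sol.kernel (h : Sol N0 N) (t : ℝ) (hint : Integrable (nn N t)) (x : E) (j : Fin 4) :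
    ∫ y, nn N t y / ‖x - y‖ ^ 4 * (x - y) j = Real.pi * (FF (Rj j N) (t, x)).im := by
  have hp := Real.pi_pos
  obtain ⟨K0, hK0⟩ := h.nn_bd
  let μs : Measure ℝ := volume.restrict (Set.Ioi (0 : ℝ))
  have hnx : ∀ᵐ y : E, y ≠ x := compl_mem_ae_iff.2 (measure_singleton x)
  -- first Fubini
  let Φ : E → ℝ → ℝ := fun y s => (Real.pi ^ 2 * s) * (nn N t y * ((x - y) j * Gs s (x - y)))
  have eΦ : ∀ y s, Φ y s = (Real.pi ^ 2 * (nn N t y * (x - y) j)) * (s * Real.exp (-((Real.pi * ‖x - y‖ ^ 2) * s))) := by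
    intro y s
    simp only [Φ]
    rw [Gs_eq_exp]
    ring
  have hr : ∀ y : E, y ≠ x → 0 < Real.pi * ‖x - y‖ ^ 2 := by
    intro y hy
    have : 0 < ‖x - y‖ := norm_pos_iff.2 (sub_ne_zero.2 hy.symm)
    positivity
  have hΦm : AEStronglyMeasurable (Function.uncurry Φ) ((volume : Measure E).prod μs) := by
    apply Continuous.aestronglyMeasurable
    have c1 : Continuous fun q : E × ℝ => nn N t q.1 := (h.nn_cont_x t).comp continuous_fst
    have c2 : Continuous fun q : E × ℝ => (x - q.1) j * Gs q.2 (x - q.1) := by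
      unfold Gs; fun_prop
    exact (by fun_prop : Continuous fun q : E × ℝ => Real.pi ^ 2 * q.2).mul (c1.mul c2)
  have hval : ∀ y : E, y ≠ x → ∫ s, Φ y s ∂μs = nn N t y / ‖x - y‖ ^ 4 * (x - y) j := by
    intro y hy
    simp_rw [eΦ y]
    rw [integral_const_mul, (gam_int (hr y hy)).2]
    have : ‖x - y‖ ≠ 0 := norm_ne_zero_iff.2 (sub_ne_zero.2 hy.symm)
    field_simp
  have hvaln : ∀ y : E, y ≠ x → ∫ s, ‖Φ y s‖ ∂μs = |nn N t y| * |(x - y) j| * (‖x - y‖ ^ 4)⁻¹ := by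
    intro y hy
    have e1 : ∫ s, ‖Φ y s‖ ∂μs = ∫ s in Set.Ioi (0 : ℝ), (Real.pi ^ 2 * (|nn N t y| * |(x - y) j|)) * (s * Real.exp (-((Real.pi * ‖x - y‖ ^ 2) * s))) := by
      apply setIntegral_congr_fun measurableSet_Ioi
      intro s hs
      have hs0 : (0 : ℝ) < s := hs
      simp only
      rw [eΦ, norm_mul, norm_mul, norm_mul, norm_mul, Real.norm_of_nonneg (by positivity : 0 ≤ Real.pi ^ 2),
        Real.norm_of_nonneg hs0.le, Real.norm_of_nonneg (Real.exp_pos _).le, Real.norm_eq_abs, Real.norm_eq_abs]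
    rw [e1, integral_const_mul, (gam_int (hr y hy)).2]
    have : ‖x - y‖ ≠ 0 := norm_ne_zero_iff.2 (sub_ne_zero.2 hy.symm)
    field_simp
  have hΦi : Integrable (Function.uncurry Φ) ((volume : Measure E).prod μs) := by
    rw [integrable_prod_iff hΦm]
    constructor
    · filter_upwards [hnx] with y hy
      show Integrable (fun s => Φ y s) μs
      simp_rw [eΦ y]
      exact (gam_int (hr y hy)).1.const_mul _
    · have h3 := sing_int (p := 3) le_rfl hint (hK0 t) x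
      have h4 : Integrable (fun y => |nn N t y| * |(x - y) j| * (‖x - y‖ ^ 4)⁻¹) := by
        refine h3.mono' ?_ ?_
        · apply AEStronglyMeasurable.mul
          · exact (hint.abs.aestronglyMeasurable).mul (by fun_prop : Continuous fun y : E => |(x - y) j|).aestronglyMeasurable
          · exact (by fun_prop : Measurable fun y : E => (‖x - y‖ ^ 4)⁻¹).aestronglyMeasurable
        · filter_upwards [hnx] with y hy
          have hn : 0 < ‖x - y‖ := norm_pos_iff.2 (sub_ne_zero.2 hy.symm)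
          rw [Real.norm_of_nonneg (by positivity)]
          calc |nn N t y| * |(x - y) j| * (‖x - y‖ ^ 4)⁻¹ ≤ |nn N t y| * ‖x - y‖ * (‖x - y‖ ^ 4)⁻¹ := by
                gcongr
                exact abs_le_norm _ _
            _ = _ := by field_simp
      refine h4.congr ?_
      filter_upwards [hnx] with y hy
      exact (hvaln y hy).symm
  have hL : ∫ y, nn N t y / ‖x - y‖ ^ 4 * (x - y) j = ∫ s, (∫ y, Φ y s) ∂μs := by
    rw [← integral_integral_swap hΦi]
    apply integral_congr_ae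
    filter_upwards [hnx] with y hy
    exact (hval y hy).symm
  -- second Fubini
  let Ψ : E → ℝ → ℂ := fun ξ s => (-Complex.I * (Real.pi ^ 2 : ℝ) * (((N t ξ * ξ j : ℝ) : ℂ) * ee x ξ)) *
    ((((s ^ 2)⁻¹ * Real.exp (-((Real.pi * ‖ξ‖ ^ 2) * s⁻¹)) : ℝ)) : ℂ)
  have hn0 : ∀ᵐ ξ : E, ξ ≠ 0 := compl_mem_ae_iff.2 (measure_singleton 0)
  have hr' : ∀ ξ : E, ξ ≠ 0 → 0 < Real.pi * ‖ξ‖ ^ 2 := by
    intro y hy
    have : 0 < ‖y‖ := norm_pos_iff.2 hy
    positivity
  have hΨm : AEStronglyMeasurable (Function.uncurry Ψ) ((volume : Measure E).prod μs) := by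
    apply Measurable.aestronglyMeasurable
    have c1 : Continuous fun q : E × ℝ => N t q.1 := (slice1 h.cont t).comp continuous_fst
    have c2 : Continuous fun q : E × ℝ => ee x q.1 := (slice1 cont_ee x).comp continuous_fst
    have c3 : Continuous fun q : E × ℝ => (-Complex.I * (Real.pi ^ 2 : ℝ) * (((N t q.1 * q.1 j : ℝ) : ℂ) * ee x q.1)) :=
      continuous_const.mul ((Complex.continuous_ofReal.comp (c1.mul (by fun_prop))).mul c2)
    have c4 : Measurable fun q : E × ℝ => (((q.2 ^ 2)⁻¹ * Real.exp (-((Real.pi * ‖q.1‖ ^ 2) * q.2⁻¹)) : ℝ)) := by fun_prop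
    exact c3.measurable.mul (Complex.measurable_ofReal.comp c4)
  have hvalΨ : ∀ ξ : E, ξ ≠ 0 → ∫ s, Ψ ξ s ∂μs = -Complex.I * (Real.pi : ℂ) * (((Rj j N t ξ : ℝ) : ℂ) * ee x ξ) := by
    intro ξ hξ
    simp only [Ψ]
    rw [integral_const_mul, integral_complex_ofReal, (inv_int (hr' ξ hξ)).2]
    unfold Rj
    have h1 : (‖ξ‖ : ℂ) ≠ 0 := Complex.ofReal_ne_zero.2 (norm_ne_zero_iff.2 hξ)
    have h2 : (Real.pi : ℂ) ≠ 0 := Complex.ofReal_ne_zero.2 hp.ne'
    push_cast
    field_simp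
  have hvalΨn : ∀ ξ : E, ξ ≠ 0 → ∫ s, ‖Ψ ξ s‖ ∂μs = Real.pi * |Rj j N t ξ| := by
    intro ξ hξ
    have e1 : ∫ s, ‖Ψ ξ s‖ ∂μs = ∫ s in Set.Ioi (0 : ℝ), (Real.pi ^ 2 * |N t ξ * ξ j|) * ((s ^ 2)⁻¹ * Real.exp (-((Real.pi * ‖ξ‖ ^ 2) * s⁻¹))) := by
      apply setIntegral_congr_fun measurableSet_Ioi
      intro s hs
      have hs0 : (0 : ℝ) < s := hs
      simp only [Ψ]
      rw [norm_mul, norm_mul, norm_mul, norm_mul, norm_neg, Complex.norm_I, norm_ee, Complex.norm_real, Complex.norm_real,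
        Complex.norm_real, Real.norm_of_nonneg (by positivity : 0 ≤ Real.pi ^ 2),
        Real.norm_of_nonneg (by positivity : 0 ≤ (s ^ 2)⁻¹ * Real.exp (-((Real.pi * ‖ξ‖ ^ 2) * s⁻¹))), Real.norm_eq_abs]
      ring
    rw [e1, integral_const_mul, (inv_int (hr' ξ hξ)).2]
    unfold Rj
    have h1 : 0 < ‖ξ‖ := norm_pos_iff.2 hξ
    rw [abs_mul, abs_mul, abs_div, abs_of_pos (by positivity : 0 < ‖ξ‖ ^ 2)]
    field_simp
  have hΨi : Integrable (Function.uncurry Ψ) ((volume : Measure E).prod μs) := by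
    rw [integrable_prod_iff hΨm]
    constructor
    · filter_upwards [hn0] with ξ hξ
      show Integrable (fun s => Ψ ξ s) μs
      exact ((inv_int (hr' ξ hξ)).1.ofReal).const_mul _
    · have h3 : Integrable (fun ξ : E => Real.pi * |Rj j N t ξ|) := by
        have h4 := (integrable_FF (h.Dom_R j) (t, x)).norm.const_mul Real.pi
        refine h4.congr ?_
        filter_upwards with ξ
        rw [norm_FF_integrand]
      refine h3.congr ?_
      filter_upwards [hn0] with ξ hξ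
      exact (hvalΨn ξ hξ).symm
  have hR : ∫ s, (∫ ξ, Ψ ξ s) ∂μs = -Complex.I * (Real.pi : ℂ) * FF (Rj j N) (t, x) := by
    rw [← integral_integral_swap hΨi]
    unfold FF
    rw [← integral_const_mul]
    apply integral_congr_ae
    filter_upwards [hn0] with y hy
    exact hvalΨ y hy
  have hmid : ((∫ s, (∫ y, Φ y s) ∂μs : ℝ) : ℂ) = ∫ s, (∫ ξ, Ψ ξ s) ∂μs := by
    rw [← integral_complex_ofReal]
    apply setIntegral_congr_fun measurableSet_Ioi
    intro s hs
    have hs0 : (0 : ℝ) < s := hs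
    simp only [Φ, Ψ]
    rw [integral_const_mul, Complex.ofReal_mul, h.slice_pair t x j hs0, ← integral_const_mul]
    congr 1
    ext ξ
    rw [Gs_eq_exp]
    have h1 : (s : ℂ) ≠ 0 := Complex.ofReal_ne_zero.2 hs0.ne'
    push_cast
    field_simp
  have hfin : ((∫ y, nn N t y / ‖x - y‖ ^ 4 * (x - y) j : ℝ) : ℂ) = -Complex.I * (Real.pi : ℂ) * FF (Rj j N) (t, x) := by
    rw [hL, hmid, hR]
  have := congrArg Complex.re hfin
  rw [Complex.ofReal_re] at this
  rw [this]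
  simp

theorem Sol.Kvec (h : Sol N0 N) (t : ℝ) (hint : Integrable (nn N t)) (x : E) (j : Fin 4) :
    ((-(1 / (((4 : ℕ) : ℝ) * (volume (Metric.ball (0 : E) 1)).toReal))) •
      ∫ y, (nn N t y / ‖x - y‖ ^ 4) • (x - y)) j = Kc N j t x := by
  obtain ⟨K0, hK0⟩ := h.nn_bd
  have hnx : ∀ᵐ y : E, y ≠ x := compl_mem_ae_iff.2 (measure_singleton x)
  have hi : Integrable (fun y : E => (nn N t y / ‖x - y‖ ^ 4) • (x - y)) := by
    refine (sing_int (p := 3) le_rfl hint (hK0 t) x).mono' ?_ ?_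
    · have m1 : AEStronglyMeasurable (fun y : E => nn N t y / ‖x - y‖ ^ 4) volume := by
        simp_rw [div_eq_mul_inv]
        exact hint.aestronglyMeasurable.mul (by fun_prop : Measurable fun y : E => (‖x - y‖ ^ 4)⁻¹).aestronglyMeasurable
      exact m1.smul (by fun_prop : Continuous fun y : E => x - y).aestronglyMeasurable
    · filter_upwards [hnx] with y hy
      have hn : 0 < ‖x - y‖ := norm_pos_iff.2 (sub_ne_zero.2 hy.symm)
      rw [norm_smul, norm_div, Real.norm_eq_abs, Real.norm_of_nonneg (by positivity : 0 ≤ ‖x - y‖ ^ 4)]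
      apply le_of_eq
      field_simp
  have h1 : (∫ y, (nn N t y / ‖x - y‖ ^ 4) • (x - y)) j = ∫ y, nn N t y / ‖x - y‖ ^ 4 * (x - y) j := by
    have := (projL j).integral_comp_comm hi
    simp only [yL_apply] at this
    rw [← this]
    rfl
  rw [PiLp.smul_apply, h1, h.kernel t hint x j, vol_ball]
  unfold Kc
  have hp := Real.pi_pos.ne'
  rw [smul_eq_mul]
  push_cast
  field_simp
  ring

end

end

end Pool.Agent.H133R3.KS
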