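import Pool.Agent.H133R3.KS.K12

set_option autoImplicit false

open MeasureTheory Filter Topology

namespace Pool.Agent.H133R3.KS

noncomputable section

def aj (e : ℝ) (j : Fin 4) : ℝ := if j.val < 2 then e else 1
def rho (a z : ℝ) : ℝ := (√a)⁻¹ * Real.exp (-(Real.pi * z ^ 2 / a))
def n0f (m e : ℝ) (x : E) : ℝ := m * ∏ j, rho (aj e j) (x j)
def N0f (m e : ℝ) (ξ : E) : ℝ := m * ∏ j, Real.exp (-(Real.pi * aj e j * (ξ j) ^ 2))

theorem aj_pos {e : ℝ} (he : 0 < e) (j : Fin 4) : 0 < aj e j := by unfold aj; split_ifs <;> [exact he; norm_num]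
theorem aj_le {e : ℝ} (he : e ≤ 1) (j : Fin 4) : aj e j ≤ 1 := by unfold aj; split_ifs <;> [exact he; norm_num]
theorem rho_pos {a : ℝ} (ha : 0 < a) (z : ℝ) : 0 < rho a z := by
  unfold rho
  have := Real.sqrt_pos.2 ha
  positivity

theorem rho_FT {a : ℝ} (ha : 0 < a) (x : ℝ) :
    ∫ z : ℝ, ((Real.exp (-(Real.pi * a * z ^ 2)) : ℝ) : ℂ) * Complex.exp ((2 * Real.pi * (x * z) : ℝ) * Complex.I) =
      ((rho a x : ℝ) : ℂ) := by
  have hp := Real.pi_pos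
  have hb : 0 < (((Real.pi * a : ℝ) : ℂ)).re := by rw [Complex.ofReal_re]; positivity
  have h := fourierIntegral_gaussian hb (((2 * Real.pi * x : ℝ) : ℂ))
  have e1 : ∀ z : ℝ, ((Real.exp (-(Real.pi * a * z ^ 2)) : ℝ) : ℂ) * Complex.exp ((2 * Real.pi * (x * z) : ℝ) * Complex.I) =
      Complex.exp (Complex.I * ((2 * Real.pi * x : ℝ) : ℂ) * z) * Complex.exp (-((Real.pi * a : ℝ) : ℂ) * z ^ 2) := by
    intro z
    rw [Complex.ofReal_exp, mul_comm]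
    congr 1
    · congr 1; push_cast; ring
    · congr 1; push_cast; ring
  simp_rw [e1]
  rw [h]
  unfold rho
  have e2 : ((Real.pi : ℂ) / ((Real.pi * a : ℝ) : ℂ)) = ((a⁻¹ : ℝ) : ℂ) := by
    have : (Real.pi : ℂ) ≠ 0 := Complex.ofReal_ne_zero.2 hp.ne'
    have : (a : ℂ) ≠ 0 := Complex.ofReal_ne_zero.2 ha.ne'
    push_cast; field_simp
  have e3 : (((a⁻¹ : ℝ) : ℂ)) ^ (1 / 2 : ℂ) = (((√a)⁻¹ : ℝ) : ℂ) := by
    rw [← Real.sqrt_inv, Real.sqrt_eq_rpow, Complex.ofReal_cpow (by positivity)]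
    norm_num
  rw [e2, e3, Complex.ofReal_mul (√a)⁻¹ _, Complex.ofReal_exp]
  congr 2
  have : (Real.pi : ℂ) ≠ 0 := Complex.ofReal_ne_zero.2 hp.ne'
  have : (a : ℂ) ≠ 0 := Complex.ofReal_ne_zero.2 ha.ne'
  push_cast
  field_simp
  ring

theorem integral_prod4C (f : Fin 4 → ℝ → ℂ) :
    ∫ ξ : E, ∏ j, f j (ξ j) = ∏ j, ∫ z, f j z := by
  have h2 := (PiLp.volume_preserving_ofLp (Fin 4)).integral_comp
    (MeasurableEquiv.toLp 2 (Fin 4 → ℝ)).symm.measurableEmbedding (fun x : Fin 4 → ℝ => ∏ i, f i (x i))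
  have h3 : ∫ x : Fin 4 → ℝ, ∏ i, f i (x i) = ∏ i, ∫ x, f i x := integral_fintype_prod_volume_eq_prod f
  rw [← h3, ← h2]

theorem ee_prod (x ξ : E) : ee x ξ = ∏ j, Complex.exp ((2 * Real.pi * (x j * ξ j) : ℝ) * Complex.I) := by
  unfold ee
  rw [inner_sum, ← Complex.exp_sum]
  congr 1
  rw [Finset.mul_sum]
  push_cast
  rw [Finset.sum_mul]

theorem N0f_FT {e : ℝ} (he : 0 < e) (m : ℝ) (x : E) :
    ∫ ξ, ((N0f m e ξ : ℝ) : ℂ) * ee x ξ = ((n0f m e x : ℝ) : ℂ) := by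
  have e1 : ∀ ξ : E, ((N0f m e ξ : ℝ) : ℂ) * ee x ξ =
      (m : ℂ) * ∏ j, (((Real.exp (-(Real.pi * aj e j * (ξ j) ^ 2)) : ℝ) : ℂ) *
        Complex.exp ((2 * Real.pi * (x j * ξ j) : ℝ) * Complex.I)) := by
    intro ξ
    rw [ee_prod, Finset.prod_mul_distrib]
    unfold N0f
    rw [Complex.ofReal_mul, Complex.ofReal_prod]
    ring
  simp_rw [e1]
  rw [integral_const_mul, integral_prod4C (fun j z => ((Real.exp (-(Real.pi * aj e j * z ^ 2)) : ℝ) : ℂ) *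
        Complex.exp ((2 * Real.pi * (x j * z) : ℝ) * Complex.I))]
  simp_rw [rho_FT (aj_pos he _)]
  unfold n0f
  rw [Complex.ofReal_mul, Complex.ofReal_prod]

theorem N0f_cont (m e : ℝ) : Continuous (N0f m e) := by
  unfold N0f
  apply continuous_const.mul
  apply continuous_finsetProd
  intro j _
  fun_prop

theorem N0f_even (m e : ℝ) (ξ : E) : N0f m e (-ξ) = N0f m e ξ := by
  unfold N0f
  simp

theorem N0f_bound {e m : ℝ} (he : 0 < e) (he1 : e ≤ 1) (hm : 0 ≤ m) (ξ : E) :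
    |N0f m e ξ| ≤ m * M (√(e / 2)) ξ := by
  have hp := Real.pi_gt_three
  have hnn : 0 ≤ N0f m e ξ := by
    unfold N0f
    positivity
  rw [abs_of_nonneg hnn]
  unfold N0f M
  apply mul_le_mul_of_nonneg_left _ hm
  apply Finset.prod_le_prod (fun j _ => (Real.exp_pos _).le)
  intro j _
  have hsq : ∀ z : ℝ, (√(e / 2) * z) ^ 2 = e / 2 * z ^ 2 := by
    intro z
    rw [mul_pow, Real.sq_sqrt (by positivity)]
  have hwb : ∀ z : ℝ, Real.exp (-(e / 2 * z ^ 2)) ≤ wb (√(e / 2)) z := by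
    intro z
    unfold wb
    rw [hsq, Real.exp_neg]
    apply inv_anti₀ (by positivity)
    have := Real.add_one_le_exp (e / 2 * z ^ 2)
    linarith
  have hwb4 : ∀ z : ℝ, Real.exp (-(2 * e * z ^ 2)) ≤ wb (√(e / 2)) z ^ 4 := by
    intro z
    calc Real.exp (-(2 * e * z ^ 2)) = Real.exp (-(e / 2 * z ^ 2)) ^ 4 := by
          rw [← Real.exp_nat_mul]; congr 1; push_cast; ring
      _ ≤ _ := pow_le_pow_left₀ (Real.exp_pos _).le (hwb z) 4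
  have hwb1 : ∀ z : ℝ, Real.exp (-(z ^ 2)) ≤ wb 1 z := by
    intro z
    unfold wb
    rw [Real.exp_neg, one_mul]
    apply inv_anti₀ (by positivity)
    have := Real.add_one_le_exp (z ^ 2)
    linarith
  unfold aj pj
  split_ifs
  · refine le_trans ?_ (hwb4 (ξ j))
    apply Real.exp_le_exp.2
    have : 0 ≤ e * ξ j ^ 2 := by positivity
    nlinarith
  · unfold pb
    refine le_trans ?_ (mul_le_mul (hwb4 (ξ j)) (hwb1 (ξ j)) (Real.exp_pos _).le (pow_nonneg (wb_pos _ _).le 4))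
    rw [← Real.exp_add]
    apply Real.exp_le_exp.2
    have h1 : 0 ≤ (1 - e) * ξ j ^ 2 := mul_nonneg (by linarith) (sq_nonneg _)
    have h2 : 0 ≤ (Real.pi - 3) * ξ j ^ 2 := mul_nonneg (by linarith) (sq_nonneg _)
    nlinarith

/-! ### the solution -/

theorem exists_sol {e : ℝ} (he : 0 < e) (he1 : e ≤ 1) :
    ∃ N : ℝ → E → ℝ, Sol (N0f (1 / (24 * C1)) e) N := by
  have hC := C1_pos
  have hδ : 0 < e / 2 := by positivity
  have hδ1 : e / 2 ≤ 1 := by linarith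
  have hs : 0 < √(e / 2) := Real.sqrt_pos.2 hδ
  have hs1 : √(e / 2) ≤ 1 := sqrt_le_one hδ1
  have hm : (0 : ℝ) ≤ 1 / (24 * C1) := by positivity
  obtain ⟨u, hu1, hu2, hu3⟩ := fixed_point hδ hδ1 hm (by field_simp; exact le_rfl) (N0f_cont _ e) (N0f_bound he he1 hm) (N0f_even _ e)
  have hM3 : ∀ t (ξ : E), M (bt (e / 2) t) ξ ≤ ((√(e / 2)) ^ 32)⁻¹ * W 3 ξ := by
    intro t ξ
    refine (M_bt_le t ξ).trans ?_
    have := M_decay hs hs1 ξ
    unfold W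
    rw [← mul_assoc, mul_comm _ ((1 + ‖ξ‖ ^ 2) ^ 3)⁻¹, mul_assoc, ← div_eq_inv_mul, le_div_iff₀ (by positivity)]
    linarith
  refine ⟨Nf (e / 2) u, ⟨Nf_cont _ u, ?_, ?_, BB_cont hδ hδ1 u u, ?_, ?_⟩⟩
  · intro t ξ
    unfold Nf
    rw [hu2, M_neg]
  · refine ⟨‖u‖ * ((√(e / 2)) ^ 32)⁻¹, by positivity, fun t ξ => ?_⟩
    refine (Nf_bound _ u t ξ).trans ?_
    rw [mul_assoc]
    exact mul_le_mul_of_nonneg_left (hM3 t ξ) (norm_nonneg _)
  · refine ⟨‖u‖ * ‖u‖ * C1 * (√(e / 2))⁻¹ * ((√(e / 2)) ^ 32)⁻¹, by positivity, fun t ξ => ?_⟩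
    refine (BB_bound hδ u u t ξ).trans ?_
    have h1 : (bt (e / 2) t)⁻¹ ≤ (√(e / 2))⁻¹ := inv_anti₀ hs (bt_ge t)
    have h2 := hM3 t ξ
    have h3 := M_pos (bt (e / 2) t) ξ
    calc ‖u‖ * ‖u‖ * (C1 * (‖ξ‖ * (bt (e / 2) t)⁻¹ * M (bt (e / 2) t) ξ)) ≤
          ‖u‖ * ‖u‖ * (C1 * (‖ξ‖ * (√(e / 2))⁻¹ * (((√(e / 2)) ^ 32)⁻¹ * W 3 ξ))) := by gcongr
      _ = _ := by ring
  · intro t ξ ht
    rw [hu3 t ξ]
    unfold DI
    rw [tp_of_nonneg ht]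
    rfl

theorem Sol.nn_zero {e m : ℝ} (he : 0 < e) {N : ℝ → E → ℝ} (h : Sol (N0f m e) N) (x : E) : nn N 0 x = n0f m e x := by
  have h0 : ∀ ξ, N 0 ξ = N0f m e ξ := by
    intro ξ
    rw [h.duh 0 ξ le_rfl]
    simp
  have h1 : FF N (0, x) = ((n0f m e x : ℝ) : ℂ) := by
    rw [← N0f_FT he]
    unfold FF
    simp only [h0]
  unfold nn
  rw [h1, Complex.ofReal_re]

end

end Pool.Agent.H133R3.KS
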