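import Pool.Agent.H133R3.KS.K13

set_option autoImplicit false

open MeasureTheory Filter Topology

namespace Pool.Agent.H133R3.KS

noncomputable section

/-! ### Properties of the data -/

theorem rho_int {a : ℝ} (ha : 0 < a) : Integrable (rho a) ∧ ∫ z, rho a z = 1 := by
  have hp := Real.pi_pos
  have e : rho a = fun z => (√a)⁻¹ * Real.exp (-(Real.pi / a) * z ^ 2) := by
    ext z
    unfold rho
    congr 2
    field_simp
  have hb : 0 < Real.pi / a := by positivity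
  rw [e]
  refine ⟨(integrable_exp_neg_mul_sq hb).const_mul _, ?_⟩
  rw [integral_const_mul, integral_gaussian]
  have : Real.pi / (Real.pi / a) = a := by field_simp
  rw [this]
  exact inv_mul_cancel₀ (Real.sqrt_pos.2 ha).ne'

theorem rho_cont (a : ℝ) : Continuous (rho a) := by unfold rho; fun_prop

theorem n0f_cont (m e : ℝ) : Continuous (n0f m e) := by
  unfold n0f
  apply continuous_const.mul
  apply continuous_finsetProd
  intro j _
  exact (rho_cont _).comp (by fun_prop)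

theorem n0f_pos {m e : ℝ} (hm : 0 < m) (he : 0 < e) (x : E) : 0 < n0f m e x := by
  unfold n0f
  exact mul_pos hm (Finset.prod_pos fun j _ => rho_pos (aj_pos he j) _)

theorem n0f_int {m e : ℝ} (he : 0 < e) : Integrable (n0f m e) ∧ ∫ x, n0f m e x = m := by
  obtain ⟨h1, h2⟩ := integrable_prod4 (f := fun j => rho (aj e j)) (fun j => (rho_int (aj_pos he j)).1)
  refine ⟨h1.const_mul m, ?_⟩
  unfold n0f
  rw [integral_const_mul, h2]
  simp [(rho_int (aj_pos he _)).2]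

theorem n0f_le {m e : ℝ} (hm : 0 ≤ m) (he : 0 < e) (he1 : e ≤ 1) (x : E) :
    n0f m e x ≤ (m * ∏ j, (√(aj e j))⁻¹) * Gs 1 x := by
  have hp := Real.pi_pos
  unfold n0f
  have h1 : ∏ j, rho (aj e j) (x j) ≤ ∏ j, ((√(aj e j))⁻¹ * Real.exp (-(Real.pi * (x j) ^ 2))) := by
    apply Finset.prod_le_prod (fun j _ => (rho_pos (aj_pos he j) _).le)
    intro j _
    unfold rho
    apply mul_le_mul_of_nonneg_left _ (by positivity)
    apply Real.exp_le_exp.2
    have ha := aj_pos he j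
    have ha1 := aj_le he1 j
    rw [neg_le_neg_iff, le_div_iff₀ ha]
    have : 0 ≤ Real.pi * (x j) ^ 2 := by positivity
    nlinarith
  have h2 : ∏ j, ((√(aj e j))⁻¹ * Real.exp (-(Real.pi * (x j) ^ 2))) = (∏ j, (√(aj e j))⁻¹) * Gs 1 x := by
    rw [Finset.prod_mul_distrib, ← Real.exp_sum]
    unfold Gs
    rw [norm_sq_eq, Finset.sum_neg_distrib, ← Finset.mul_sum]
    ring_nf
  calc m * ∏ j, rho (aj e j) (x j) ≤ m * ((∏ j, (√(aj e j))⁻¹) * Gs 1 x) :=
        mul_le_mul_of_nonneg_left (h1.trans (le_of_eq h2)) hm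
    _ = _ := by ring

theorem n0f_bdd {m e : ℝ} (hm : 0 ≤ m) (he : 0 < e) (he1 : e ≤ 1) : ∃ C : ℝ, ∀ x, n0f m e x ≤ C := by
  refine ⟨m * ∏ j, (√(aj e j))⁻¹, fun x => (n0f_le hm he he1 x).trans ?_⟩
  have h1 : Gs 1 x ≤ 1 := by
    unfold Gs
    apply Real.exp_le_one_iff.2
    have := Real.pi_pos
    have : 0 ≤ Real.pi * 1 * ‖x‖ ^ 2 := by positivity
    linarith
  have h2 : 0 ≤ m * ∏ j, (√(aj e j))⁻¹ := mul_nonneg hm (Finset.prod_nonneg fun j _ => by positivity)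
  exact mul_le_of_le_one_right h2 h1

theorem n0f_mom {m e : ℝ} (hm : 0 < m) (he : 0 < e) (he1 : e ≤ 1) : Integrable (fun x => ‖x‖ ^ 2 * n0f m e x) := by
  have hp := Real.pi_gt_three
  obtain ⟨C, hC⟩ : ∃ C, C = m * ∏ j, (√(aj e j))⁻¹ := ⟨_, rfl⟩
  have hC0 : 0 ≤ C := by rw [hC]; exact mul_nonneg hm.le (Finset.prod_nonneg fun j _ => by positivity)
  refine ((Gs_integrable (s := 1 / 2) (by norm_num)).const_mul C).mono' ?_ ?_
  · exact ((by fun_prop : Continuous fun x : E => ‖x‖ ^ 2).mul (n0f_cont m e)).aestronglyMeasurable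
  · filter_upwards with x
    have h0 := n0f_pos hm he x
    rw [Real.norm_of_nonneg (by positivity)]
    have h1 := n0f_le hm.le he he1 x
    rw [← hC] at h1
    have h2 : ‖x‖ ^ 2 * Gs 1 x ≤ Gs (1 / 2) x := by
      have e1 : Gs 1 x = Real.exp (-(Real.pi / 2 * ‖x‖ ^ 2)) * Gs (1 / 2) x := by
        unfold Gs
        rw [← Real.exp_add]
        congr 1
        ring
      rw [e1, ← mul_assoc]
      apply mul_le_of_le_one_left (Gs_pos _ _).le
      have h3 := Real.add_one_le_exp (Real.pi / 2 * ‖x‖ ^ 2)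
      rw [Real.exp_neg, ← div_eq_mul_inv, div_le_one (Real.exp_pos _)]
      nlinarith [sq_nonneg ‖x‖]
    calc ‖x‖ ^ 2 * n0f m e x ≤ ‖x‖ ^ 2 * (C * Gs 1 x) := mul_le_mul_of_nonneg_left h1 (by positivity)
      _ = C * (‖x‖ ^ 2 * Gs 1 x) := by ring
      _ ≤ C * Gs (1 / 2) x := mul_le_mul_of_nonneg_left h2 hC0

/-! ### The Gaussian energies -/

theorem gauss_shift (c x0 : ℝ) : ∫ y : ℝ, Real.exp (-(Real.pi * c * (y - x0) ^ 2)) = (√c)⁻¹ := by
  have h := integral_sub_right_eq_self (fun y : ℝ => Real.exp (-(Real.pi * c * y ^ 2))) x0 (μ := volume)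
  rw [h]
  have e : ∀ y : ℝ, Real.exp (-(Real.pi * c * y ^ 2)) = Real.exp (-(Real.pi * c) * y ^ 2) := by
    intro y; rw [neg_mul]
  simp_rw [e]
  rw [integral_gaussian]
  have hp := Real.pi_pos.ne'
  have : Real.pi / (Real.pi * c) = c⁻¹ := by field_simp
  rw [this, Real.sqrt_inv]

theorem gauss_shift_int {c : ℝ} (hc : 0 < c) (x0 : ℝ) : Integrable (fun y : ℝ => Real.exp (-(Real.pi * c * (y - x0) ^ 2))) := by
  have hp := Real.pi_pos
  have h := (integrable_exp_neg_mul_sq (b := Real.pi * c) (by positivity)).comp_sub_right x0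
  simpa [neg_mul] using h

theorem conv1 {a s : ℝ} (ha : 0 < a) (hs : 0 < s) (x : ℝ) :
    Integrable (fun y => rho a y * Real.exp (-(Real.pi * s * (x - y) ^ 2))) ∧
    ∫ y, rho a y * Real.exp (-(Real.pi * s * (x - y) ^ 2)) =
      (√(1 + a * s))⁻¹ * Real.exp (-(Real.pi * s * x ^ 2 / (1 + a * s))) := by
  have has : 0 < 1 + a * s := by positivity
  obtain ⟨c, hc⟩ : ∃ c, c = (1 + a * s) / a := ⟨_, rfl⟩
  have hc0 : 0 < c := by rw [hc]; positivity
  have e : ∀ y, rho a y * Real.exp (-(Real.pi * s * (x - y) ^ 2)) =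
      ((√a)⁻¹ * Real.exp (-(Real.pi * s * x ^ 2 / (1 + a * s)))) * Real.exp (-(Real.pi * c * (y - s * x / c) ^ 2)) := by
    intro y
    unfold rho
    have e' : Real.exp (-(Real.pi * y ^ 2 / a)) * Real.exp (-(Real.pi * s * (x - y) ^ 2)) =
        Real.exp (-(Real.pi * s * x ^ 2 / (1 + a * s))) * Real.exp (-(Real.pi * c * (y - s * x / c) ^ 2)) := by
      rw [← Real.exp_add, ← Real.exp_add]
      congr 1
      rw [hc]
      field_simp
      ring
    calc _ = (√a)⁻¹ * (Real.exp (-(Real.pi * y ^ 2 / a)) * Real.exp (-(Real.pi * s * (x - y) ^ 2))) := by ring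
      _ = _ := by rw [e']; ring
  simp_rw [e]
  refine ⟨(gauss_shift_int hc0 _).const_mul _, ?_⟩
  rw [integral_const_mul, gauss_shift]
  have e2 : (√(1 + a * s))⁻¹ = (√a)⁻¹ * (√c)⁻¹ := by
    rw [← mul_inv, ← Real.sqrt_mul ha.le, hc]
    congr 2
    field_simp
  rw [e2]
  ring

theorem conv2 {a s : ℝ} (ha : 0 < a) (hs : 0 < s) :
    Integrable (fun x => rho a x * ((√(1 + a * s))⁻¹ * Real.exp (-(Real.pi * s * x ^ 2 / (1 + a * s))))) ∧
    ∫ x, rho a x * ((√(1 + a * s))⁻¹ * Real.exp (-(Real.pi * s * x ^ 2 / (1 + a * s)))) = (√(1 + 2 * (a * s)))⁻¹ := by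
  have has : 0 < 1 + a * s := by positivity
  obtain ⟨c, hc⟩ : ∃ c, c = (1 + 2 * (a * s)) / (a * (1 + a * s)) := ⟨_, rfl⟩
  have hc0 : 0 < c := by rw [hc]; positivity
  have e : ∀ x, rho a x * ((√(1 + a * s))⁻¹ * Real.exp (-(Real.pi * s * x ^ 2 / (1 + a * s)))) =
      ((√a)⁻¹ * (√(1 + a * s))⁻¹) * Real.exp (-(Real.pi * c * (x - 0) ^ 2)) := by
    intro x
    unfold rho
    have : Real.exp (-(Real.pi * c * (x - 0) ^ 2)) = Real.exp (-(Real.pi * x ^ 2 / a)) * Real.exp (-(Real.pi * s * x ^ 2 / (1 + a * s))) := by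
      rw [← Real.exp_add]
      congr 1
      rw [hc]
      field_simp
      ring
    rw [this]
    ring
  simp_rw [e]
  refine ⟨(gauss_shift_int hc0 _).const_mul _, ?_⟩
  rw [integral_const_mul, gauss_shift, ← mul_inv, ← mul_inv, ← Real.sqrt_mul ha.le, ← Real.sqrt_mul (by positivity), hc]
  congr 2
  field_simp

theorem Gs_prod (s : ℝ) (x y : E) : Gs s (x - y) = ∏ j, Real.exp (-(Real.pi * s * (x j - y j) ^ 2)) := by
  unfold Gs
  rw [norm_sq_eq, ← Real.exp_sum, Finset.sum_neg_distrib, ← Finset.mul_sum]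
  simp

theorem energy_inner {m e s : ℝ} (he : 0 < e) (hs : 0 < s) (x : E) :
    Integrable (fun y => n0f m e y * Gs s (x - y)) ∧
    ∫ y, n0f m e y * Gs s (x - y) =
      m * ∏ j, ((√(1 + aj e j * s))⁻¹ * Real.exp (-(Real.pi * s * (x j) ^ 2 / (1 + aj e j * s)))) := by
  obtain ⟨h1, h2⟩ := integrable_prod4 (f := fun j y => rho (aj e j) y * Real.exp (-(Real.pi * s * (x j - y) ^ 2)))
    (fun j => (conv1 (aj_pos he j) hs (x j)).1)
  have e1 : ∀ y : E, n0f m e y * Gs s (x - y) = m * ∏ j, (rho (aj e j) (y j) * Real.exp (-(Real.pi * s * (x j - y j) ^ 2))) := by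
    intro y
    rw [Gs_prod, Finset.prod_mul_distrib]
    unfold n0f
    ring
  simp_rw [e1]
  refine ⟨h1.const_mul m, ?_⟩
  rw [integral_const_mul, h2]
  congr 1
  apply Finset.prod_congr rfl
  intro j _
  exact (conv1 (aj_pos he j) hs (x j)).2

theorem energy_slice {m e s : ℝ} (he : 0 < e) (hs : 0 < s) :
    Integrable (fun x => n0f m e x * ∫ y, n0f m e y * Gs s (x - y)) ∧
    ∫ x, n0f m e x * ∫ y, n0f m e y * Gs s (x - y) = m ^ 2 * ∏ j, (√(1 + 2 * (aj e j * s)))⁻¹ := by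
  obtain ⟨h1, h2⟩ := integrable_prod4 (f := fun j x => rho (aj e j) x * ((√(1 + aj e j * s))⁻¹ * Real.exp (-(Real.pi * s * x ^ 2 / (1 + aj e j * s)))))
    (fun j => (conv2 (aj_pos he j) hs).1)
  have e1 : ∀ x : E, n0f m e x * ∫ y, n0f m e y * Gs s (x - y) =
      m ^ 2 * ∏ j, (rho (aj e j) (x j) * ((√(1 + aj e j * s))⁻¹ * Real.exp (-(Real.pi * s * (x j) ^ 2 / (1 + aj e j * s))))) := by
    intro x
    have e2 : ∏ j, (rho (aj e j) (x j) * ((√(1 + aj e j * s))⁻¹ * Real.exp (-(Real.pi * s * (x j) ^ 2 / (1 + aj e j * s))))) =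
      (∏ j, rho (aj e j) (x j)) * ∏ j, ((√(1 + aj e j * s))⁻¹ * Real.exp (-(Real.pi * s * (x j) ^ 2 / (1 + aj e j * s)))) :=
      Finset.prod_mul_distrib
    rw [(energy_inner he hs x).2, e2]
    unfold n0f
    ring
  simp_rw [e1]
  refine ⟨h1.const_mul _, ?_⟩
  rw [integral_const_mul, h2]
  congr 1
  apply Finset.prod_congr rfl
  intro j _
  exact (conv2 (aj_pos he j) hs).2

theorem energy_slice_lower {m e s : ℝ} (he : 0 < e) (hs : 1 ≤ s) (hes : e * s ≤ 1) :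
    m ^ 2 / (9 * s) ≤ m ^ 2 * ∏ j, (√(1 + 2 * (aj e j * s)))⁻¹ := by
  have hs0 : 0 < s := by linarith
  have e1 : ∏ j : Fin 4, (√(1 + 2 * (aj e j * s)))⁻¹ = (1 + 2 * (e * s))⁻¹ * (1 + 2 * s)⁻¹ := by
    rw [Fin.prod_univ_four]
    have a0 : aj e 0 = e := by simp [aj]
    have a1 : aj e 1 = e := by simp [aj]
    have a2 : aj e 2 = 1 := by simp [aj]
    have a3 : aj e 3 = 1 := by simp [aj]
    rw [a0, a1, a2, a3, one_mul]
    have q1 : (√(1 + 2 * (e * s)))⁻¹ * (√(1 + 2 * (e * s)))⁻¹ = (1 + 2 * (e * s))⁻¹ := by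
      rw [← mul_inv, Real.mul_self_sqrt (by positivity)]
    have q2 : (√(1 + 2 * s))⁻¹ * (√(1 + 2 * s))⁻¹ = (1 + 2 * s)⁻¹ := by
      rw [← mul_inv, Real.mul_self_sqrt (by positivity)]
    rw [q1, mul_assoc, q2]
  rw [e1, div_eq_mul_inv]
  apply mul_le_mul_of_nonneg_left _ (sq_nonneg m)
  rw [← mul_inv]
  apply inv_anti₀ (by positivity)
  have h1 : 1 + 2 * (e * s) ≤ 3 := by linarith
  have h2 : 1 + 2 * s ≤ 3 * s := by linarith
  calc (1 + 2 * (e * s)) * (1 + 2 * s) ≤ 3 * (3 * s) := mul_le_mul h1 h2 (by positivity) (by norm_num)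
    _ = 9 * s := by ring

/-- the dyadic lower bound -/
theorem dyadic (r : ℝ) (K : ℕ) :
    ∑ k ∈ Finset.range K, (Real.pi * 2 ^ k) * r * Real.exp (-(Real.pi * 2 ^ (k + 1) * r)) ≤
      Real.exp (-(Real.pi * r)) - Real.exp (-(Real.pi * 2 ^ K * r)) := by
  induction K with
  | zero => simp
  | succ K ih =>
    rw [Finset.sum_range_succ]
    have hp := Real.pi_pos
    have h1 := Real.add_one_le_exp (Real.pi * 2 ^ K * r)
    have h2 : Real.exp (-(Real.pi * 2 ^ K * r)) = Real.exp (-(Real.pi * 2 ^ (K + 1) * r)) * Real.exp (Real.pi * 2 ^ K * r) := by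
      rw [← Real.exp_add]
      congr 1
      ring
    have h3 := Real.exp_pos (-(Real.pi * 2 ^ (K + 1) * r))
    have h4 : Real.pi * 2 ^ K * r * Real.exp (-(Real.pi * 2 ^ (K + 1) * r)) ≤
        Real.exp (-(Real.pi * 2 ^ K * r)) - Real.exp (-(Real.pi * 2 ^ (K + 1) * r)) := by
      rw [h2]
      nlinarith
    linarith

theorem dyadic' {z : E} (hz : z ≠ 0) (K : ℕ) :
    ∑ k ∈ Finset.range K, (Real.pi * 2 ^ k) * Gs (2 ^ (k + 1)) z ≤ (‖z‖ ^ 2)⁻¹ := by
  have hn : 0 < ‖z‖ ^ 2 := by have := norm_pos_iff.2 hz; positivity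
  have hp := Real.pi_pos
  have h1 := dyadic (‖z‖ ^ 2) K
  have h2 : Real.exp (-(Real.pi * ‖z‖ ^ 2)) ≤ 1 := by
    apply Real.exp_le_one_iff.2
    have : 0 ≤ Real.pi * ‖z‖ ^ 2 := by positivity
    linarith
  have h3 := Real.exp_pos (-(Real.pi * 2 ^ K * ‖z‖ ^ 2))
  rw [← mul_le_mul_iff_of_pos_right hn, inv_mul_cancel₀ hn.ne', Finset.sum_mul]
  refine le_trans (le_of_eq ?_) (h1.trans (by linarith))
  apply Finset.sum_congr rfl
  intro k _
  unfold Gs
  ring

end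

end Pool.Agent.H133R3.KS
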