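import Pool.Agent.H133R3.KS.K14

set_option autoImplicit false

open MeasureTheory Filter Topology

namespace Pool.Agent.H133R3.KS

noncomputable section

theorem potential_bound {f : E → ℝ} {K0 : ℝ} (hf : Integrable f) (hf0 : ∀ y, 0 ≤ f y) (hb : ∀ y, f y ≤ K0) :
    ∃ V : ℝ, ∀ x : E, ∫ y, f y * (‖x - y‖ ^ 2)⁻¹ ≤ V := by
  refine ⟨K0 * (∫ z : E, if ‖z‖ < 1 then (‖z‖ ^ 2)⁻¹ else 0) + ∫ y, f y, fun x => ?_⟩
  have h0 : Integrable (fun z : E => if ‖z‖ < 1 then (‖z‖ ^ 2)⁻¹ else 0) := loc_int (by norm_num)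
  have h1 : Integrable (fun y : E => if ‖x - y‖ < 1 then (‖x - y‖ ^ 2)⁻¹ else 0) := h0.comp_sub_left x
  have h2 : ∫ y : E, (if ‖x - y‖ < 1 then (‖x - y‖ ^ 2)⁻¹ else 0) = ∫ z : E, if ‖z‖ < 1 then (‖z‖ ^ 2)⁻¹ else 0 :=
    integral_sub_left_eq_self (fun z : E => if ‖z‖ < 1 then (‖z‖ ^ 2)⁻¹ else 0) volume x
  rw [← h2, ← integral_const_mul, ← integral_add (h1.const_mul K0) hf]
  have habs : ∀ y, |f y| ≤ K0 := fun y => by rw [abs_of_nonneg (hf0 y)]; exact hb y
  have h3 : Integrable (fun y => f y * (‖x - y‖ ^ 2)⁻¹) := by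
    have := sing_int (p := 2) (by norm_num) hf habs x
    refine this.congr ?_
    filter_upwards with y
    rw [abs_of_nonneg (hf0 y)]
  apply integral_mono h3 ((h1.const_mul K0).add hf)
  intro y
  simp only [Pi.add_apply]
  have h5 : 0 ≤ (‖x - y‖ ^ 2)⁻¹ := by positivity
  by_cases h : ‖x - y‖ < 1
  · rw [if_pos h]
    have := mul_le_mul_of_nonneg_right (hb y) h5
    have := hf0 y
    linarith
  · rw [if_neg h, mul_zero, zero_add]
    push Not at h
    have : (‖x - y‖ ^ 2)⁻¹ ≤ 1 := inv_le_one_of_one_le₀ (one_le_pow₀ h)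
    calc f y * (‖x - y‖ ^ 2)⁻¹ ≤ f y * 1 := mul_le_mul_of_nonneg_left this (hf0 y)
      _ = f y := mul_one _

theorem energy_lower {m e : ℝ} (hm : 0 < m) (he : 0 < e) (he1 : e ≤ 1) (K : ℕ) (hK : e * 2 ^ K ≤ 1) :
    (K : ℝ) * (Real.pi * m ^ 2 / 18) ≤ ∫ x, ∫ y, n0f m e x * n0f m e y / ‖x - y‖ ^ 2 := by
  have hp := Real.pi_pos
  obtain ⟨K0, hK0⟩ := n0f_bdd hm.le he he1
  have hn := fun x => (n0f_pos hm he x)
  have hint := (n0f_int (m := m) he).1
  obtain ⟨V, hV⟩ := potential_bound hint (fun y => (hn y).le) hK0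
  have habs : ∀ y, |n0f m e y| ≤ K0 := fun y => by rw [abs_of_nonneg (hn y).le]; exact hK0 y
  have hinner : ∀ x, Integrable (fun y => n0f m e x * n0f m e y / ‖x - y‖ ^ 2) := by
    intro x
    have := (sing_int (p := 2) (by norm_num) hint habs x).const_mul (n0f m e x)
    refine this.congr ?_
    filter_upwards with y
    rw [abs_of_nonneg (hn y).le]
    ring
  have hspos : ∀ k : ℕ, (0 : ℝ) < 2 ^ (k + 1) := fun k => by positivity
  have hlow : ∀ x, ∑ k ∈ Finset.range K, (Real.pi * 2 ^ k) * (n0f m e x * ∫ y, n0f m e y * Gs (2 ^ (k + 1)) (x - y)) ≤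
      ∫ y, n0f m e x * n0f m e y / ‖x - y‖ ^ 2 := by
    intro x
    have e1 : ∑ k ∈ Finset.range K, (Real.pi * 2 ^ k) * (n0f m e x * ∫ y, n0f m e y * Gs (2 ^ (k + 1)) (x - y)) =
        ∫ y, ∑ k ∈ Finset.range K, (Real.pi * 2 ^ k) * (n0f m e x * (n0f m e y * Gs (2 ^ (k + 1)) (x - y))) := by
      rw [integral_finsetSum]
      · apply Finset.sum_congr rfl
        intro k _
        rw [integral_const_mul, integral_const_mul]
      · intro k _
        exact ((energy_inner he (hspos k) x).1.const_mul _).const_mul _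
    rw [e1]
    apply integral_mono_ae _ (hinner x)
    · have hnx : ∀ᵐ y : E, y ≠ x := compl_mem_ae_iff.2 (measure_singleton x)
      filter_upwards [hnx] with y hy
      have h1 := dyadic' (sub_ne_zero.2 hy.symm : x - y ≠ 0) K
      have h2 : 0 ≤ n0f m e x * n0f m e y := by have := hn x; have := hn y; positivity
      have h3 := mul_le_mul_of_nonneg_left h1 h2
      rw [div_eq_mul_inv]
      refine le_trans (le_of_eq ?_) h3
      rw [Finset.mul_sum]
      apply Finset.sum_congr rfl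
      intro k _
      ring
    · apply integrable_finsetSum
      intro k _
      exact ((energy_inner he (hspos k) x).1.const_mul _).const_mul _
  have houter : Integrable (fun x => ∫ y, n0f m e x * n0f m e y / ‖x - y‖ ^ 2) := by
    refine (hint.mul_const V).mono' ?_ ?_
    · have hm2 : StronglyMeasurable (fun q : E × E => n0f m e q.1 * n0f m e q.2 / ‖q.1 - q.2‖ ^ 2) := by
        apply Measurable.stronglyMeasurable
        apply Measurable.div
        · exact (((n0f_cont m e).comp continuous_fst).mul ((n0f_cont m e).comp continuous_snd)).measurable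
        · fun_prop
      exact (hm2.integral_prod_right' (ν := volume)).aestronglyMeasurable
    · filter_upwards with x
      have e2 : ∫ y, n0f m e x * n0f m e y / ‖x - y‖ ^ 2 = n0f m e x * ∫ y, n0f m e y * (‖x - y‖ ^ 2)⁻¹ := by
        rw [← integral_const_mul]
        congr 1
        ext y
        ring
      rw [e2, Real.norm_of_nonneg]
      · exact mul_le_mul_of_nonneg_left (hV x) (hn x).le
      · apply mul_nonneg (hn x).le
        apply integral_nonneg
        intro y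
        have := (hn y).le
        simp only [Pi.zero_apply]
        positivity
  have h4 : ∫ x, ∑ k ∈ Finset.range K, (Real.pi * 2 ^ k) * (n0f m e x * ∫ y, n0f m e y * Gs (2 ^ (k + 1)) (x - y)) ≤
      ∫ x, ∫ y, n0f m e x * n0f m e y / ‖x - y‖ ^ 2 := by
    apply integral_mono _ houter hlow
    apply integrable_finsetSum
    intro k _
    exact (energy_slice he (hspos k)).1.const_mul _
  refine le_trans ?_ h4
  rw [integral_finsetSum _ (fun k _ => (energy_slice he (hspos k)).1.const_mul _)]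
  have h5 : ∑ k ∈ Finset.range K, Real.pi * m ^ 2 / 18 = (K : ℝ) * (Real.pi * m ^ 2 / 18) := by
    rw [Finset.sum_const, Finset.card_range, nsmul_eq_mul]
  rw [← h5]
  apply Finset.sum_le_sum
  intro k hk
  rw [Finset.mem_range] at hk
  rw [integral_const_mul, (energy_slice he (hspos k)).2]
  have hek : e * 2 ^ (k + 1) ≤ 1 := by
    refine le_trans ?_ hK
    apply mul_le_mul_of_nonneg_left _ he.le
    exact pow_le_pow_right₀ (by norm_num) hk
  have h6 := energy_slice_lower (m := m) he (one_le_pow₀ (by norm_num : (1 : ℝ) ≤ 2) (n := k + 1)) hek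
  have h7 := mul_le_mul_of_nonneg_left h6 (by positivity : 0 ≤ Real.pi * 2 ^ k)
  refine le_trans (le_of_eq ?_) h7
  rw [pow_succ]
  have : (2 : ℝ) ^ k ≠ 0 := by positivity
  field_simp
  ring

theorem energy_big {m : ℝ} (hm : 0 < m) : ∃ e : ℝ, 0 < e ∧ e ≤ 1 ∧
    2 * ((4 : ℕ) : ℝ) * (∫ x, n0f m e x) * (((4 : ℕ) : ℝ) * (volume (Metric.ball (0 : E) 1)).toReal) <
      ∫ x, ∫ y, n0f m e x * n0f m e y / ‖x - y‖ ^ 2 := by
  have hp := Real.pi_pos
  obtain ⟨K, hK⟩ := exists_nat_gt (288 * Real.pi / m)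
  have he : (0 : ℝ) < (2 ^ K)⁻¹ := by positivity
  have he1 : ((2 : ℝ) ^ K)⁻¹ ≤ 1 := inv_le_one_of_one_le₀ (one_le_pow₀ (by norm_num))
  refine ⟨(2 ^ K)⁻¹, he, he1, ?_⟩
  have h1 := energy_lower hm he he1 K (by rw [inv_mul_cancel₀ (by positivity)])
  refine lt_of_lt_of_le ?_ h1
  rw [(n0f_int he).2, vol_ball]
  rw [div_lt_iff₀ hm] at hK
  push_cast
  have h2 : 288 * Real.pi * (Real.pi * m / 18) < (K : ℝ) * m * (Real.pi * m / 18) :=
    mul_lt_mul_of_pos_right hK (by positivity)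
  calc 2 * 4 * m * (4 * (Real.pi ^ 2 / 2)) = 288 * Real.pi * (Real.pi * m / 18) := by ring
    _ < (K : ℝ) * m * (Real.pi * m / 18) := h2
    _ = _ := by ring

end

end Pool.Agent.H133R3.KS
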