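import Pool.Agent.H133R3.KS.K1

set_option autoImplicit false

open MeasureTheory

namespace Pool.Agent.H133R3.KS

noncomputable section

abbrev E : Type := EuclideanSpace ℝ (Fin 4)

theorem integrable_prod4 {f : Fin 4 → ℝ → ℝ} (hf : ∀ j, Integrable (f j)) :
    Integrable (fun ξ : E => ∏ j, f j (ξ j)) ∧ ∫ ξ : E, ∏ j, f j (ξ j) = ∏ j, ∫ z, f j z := by
  have h0 : Integrable (fun x : Fin 4 → ℝ => ∏ i, f i (x i)) (Measure.pi fun _ => volume) :=
    Integrable.fintype_prod (f := f) hf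
  have h1 := (PiLp.volume_preserving_ofLp (Fin 4)).integrable_comp_of_integrable h0
  refine ⟨h1, ?_⟩
  have h2 := (PiLp.volume_preserving_ofLp (Fin 4)).integral_comp
    (MeasurableEquiv.toLp 2 (Fin 4 → ℝ)).symm.measurableEmbedding (fun x : Fin 4 → ℝ => ∏ i, f i (x i))
  have h3 : ∫ x : Fin 4 → ℝ, ∏ i, f i (x i) = ∏ i, ∫ x, f i x := integral_fintype_prod_volume_eq_prod f
  rw [← h3, ← h2]

/-- the weights -/
def pj (b : ℝ) (j : Fin 4) : ℝ → ℝ := if j.val < 2 then pa b else pb b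

def M (b : ℝ) (ξ : E) : ℝ := ∏ j, pj b j (ξ j)

theorem pj_pos (b : ℝ) (j : Fin 4) (z : ℝ) : 0 < pj b j z := by
  unfold pj; split_ifs
  · exact pa_pos b z
  · exact pb_pos b z

theorem pj_le_one (b : ℝ) (j : Fin 4) (z : ℝ) : pj b j z ≤ 1 := by
  unfold pj; split_ifs
  · exact pa_le_one b z
  · exact pb_le_one b z

theorem M_pos (b : ℝ) (ξ : E) : 0 < M b ξ := Finset.prod_pos (fun j _ => pj_pos b j _)
theorem M_le_one (b : ℝ) (ξ : E) : M b ξ ≤ 1 :=
  Finset.prod_le_one (fun j _ => (pj_pos b j _).le) (fun j _ => pj_le_one b j _)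

theorem wb_anti {b b' : ℝ} (hb : 0 ≤ b) (h : b ≤ b') (z : ℝ) : wb b' z ≤ wb b z := by
  unfold wb
  apply inv_anti₀ (by positivity)
  have : (b * z) ^ 2 ≤ (b' * z) ^ 2 := by
    rw [mul_pow, mul_pow]
    exact mul_le_mul_of_nonneg_right (pow_le_pow_left₀ hb h 2) (sq_nonneg z)
  linarith

theorem pj_anti {b b' : ℝ} (hb : 0 ≤ b) (h : b ≤ b') (j : Fin 4) (z : ℝ) : pj b' j z ≤ pj b j z := by
  have h1 := wb_anti hb h z
  have h2 := wb_pos b' z
  have h3 := wb_pos 1 z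
  unfold pj; split_ifs
  · exact pow_le_pow_left₀ h2.le h1 4
  · exact mul_le_mul_of_nonneg_right (pow_le_pow_left₀ h2.le h1 4) h3.le

theorem M_anti {b b' : ℝ} (hb : 0 ≤ b) (h : b ≤ b') (ξ : E) : M b' ξ ≤ M b ξ :=
  Finset.prod_le_prod (fun j _ => (pj_pos b' j _).le) (fun j _ => pj_anti hb h j _)

theorem norm_sq_eq (ξ : E) : ‖ξ‖ ^ 2 = ∑ j, (ξ j) ^ 2 := EuclideanSpace.real_norm_sq_eq ξ

theorem wb_exp {b b' r : ℝ} (hr : 0 ≤ r) (h : b' ^ 2 = b ^ 2 + r) (z : ℝ) :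
    wb b z ≤ Real.exp (z ^ 2 * r) * wb b' z := by
  unfold wb
  rw [← div_eq_mul_inv, le_div_iff₀ (by positivity), inv_mul_le_iff₀ (by positivity), mul_pow, mul_pow, h]
  have h1 := Real.add_one_le_exp (z ^ 2 * r)
  have h2 : 0 ≤ z ^ 2 * r := by positivity
  have h3 : 0 ≤ b ^ 2 * z ^ 2 := by positivity
  nlinarith [Real.exp_pos (z ^ 2 * r)]

theorem pj_exp {b b' r : ℝ} (hr : 0 ≤ r) (h : b' ^ 2 = b ^ 2 + r) (j : Fin 4) (z : ℝ) :
    pj b j z ≤ Real.exp (4 * (z ^ 2 * r)) * pj b' j z := by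
  have h1 : wb b z ^ 4 ≤ Real.exp (4 * (z ^ 2 * r)) * wb b' z ^ 4 := by
    calc wb b z ^ 4 ≤ (Real.exp (z ^ 2 * r) * wb b' z) ^ 4 := pow_le_pow_left₀ (wb_pos b z).le (wb_exp hr h z) 4
      _ = _ := by rw [mul_pow, ← Real.exp_nat_mul]; norm_num
  unfold pj; split_ifs
  · exact h1
  · unfold pb
    rw [← mul_assoc]
    exact mul_le_mul_of_nonneg_right h1 (wb_pos 1 z).le

theorem M_exp {b b' r : ℝ} (hr : 0 ≤ r) (h : b' ^ 2 = b ^ 2 + r) (ξ : E) :
    M b ξ ≤ Real.exp (4 * (‖ξ‖ ^ 2 * r)) * M b' ξ := by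
  unfold M
  have e : Real.exp (4 * (‖ξ‖ ^ 2 * r)) = ∏ j, Real.exp (4 * ((ξ j) ^ 2 * r)) := by
    rw [← Real.exp_sum, norm_sq_eq, ← Finset.mul_sum, ← Finset.sum_mul]
  rw [e, ← Finset.prod_mul_distrib]
  exact Finset.prod_le_prod (fun j _ => (pj_pos b j _).le) (fun j _ => pj_exp hr h j _)

/-- dominating product weight -/
def P (ξ : E) : ℝ := ∏ j, wb 1 (ξ j)

theorem P_pos (ξ : E) : 0 < P ξ := Finset.prod_pos (fun j _ => wb_pos 1 _)
theorem P_le_one (ξ : E) : P ξ ≤ 1 := Finset.prod_le_one (fun j _ => (wb_pos 1 _).le) (fun j _ => wb_le_one 1 _)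

theorem integrable_wb_one : Integrable (wb 1) := by
  have : wb 1 = fun z : ℝ => (1 + z ^ 2)⁻¹ := by ext z; simp [wb]
  rw [this]; exact integrable_inv_one_add_sq

theorem integrable_P : Integrable P := (integrable_prod4 (f := fun _ => wb 1) (fun _ => integrable_wb_one)).1

theorem wb_low {b : ℝ} (hb : 0 < b) (hb1 : b ≤ 1) (z : ℝ) : wb b z ≤ (b ^ 2)⁻¹ * wb 1 z := by
  unfold wb
  rw [← mul_inv]
  apply inv_anti₀ (by positivity)
  have : b ^ 2 ≤ 1 := pow_le_one₀ hb.le hb1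
  nlinarith

theorem pj_low {b : ℝ} (hb : 0 < b) (hb1 : b ≤ 1) (j : Fin 4) (z : ℝ) :
    pj b j z ≤ (b ^ 8)⁻¹ * wb 1 z ^ 4 := by
  have h1 : wb b z ^ 4 ≤ (b ^ 8)⁻¹ * wb 1 z ^ 4 := by
    calc wb b z ^ 4 ≤ ((b ^ 2)⁻¹ * wb 1 z) ^ 4 := pow_le_pow_left₀ (wb_pos b z).le (wb_low hb hb1 z) 4
      _ = _ := by rw [mul_pow, inv_pow, ← pow_mul]
  unfold pj; split_ifs
  · exact h1
  · unfold pb
    have h2 := wb_le_one 1 z
    have h3 := pow_pos (wb_pos b z) 4
    nlinarith [wb_pos 1 z]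

theorem one_add_norm_sq_le (ξ : E) : 1 + ‖ξ‖ ^ 2 ≤ ∏ j, (1 + (ξ j) ^ 2) := by
  rw [norm_sq_eq, Fin.sum_univ_four, Fin.prod_univ_four]
  have step : ∀ x y z : ℝ, 0 ≤ x → 0 ≤ z → 1 + x ≤ y → 1 + (x + z) ≤ y * (1 + z) := by
    intro x y z hx hz hxy
    nlinarith [mul_nonneg hx hz, mul_nonneg (by linarith : 0 ≤ y - (1 + x)) hz]
  have h0 := sq_nonneg (ξ 0)
  have h1 := sq_nonneg (ξ 1)
  have h2 := sq_nonneg (ξ 2)
  have h3 := sq_nonneg (ξ 3)
  exact step _ _ _ (by linarith) h3 (step _ _ _ (by linarith) h2 (step _ _ _ h0 h1 le_rfl))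

/-- `M b ≤ b^{-32} (1+|ξ|²)^{-3} P`. -/
theorem M_decay {b : ℝ} (hb : 0 < b) (hb1 : b ≤ 1) (ξ : E) :
    (1 + ‖ξ‖ ^ 2) ^ 3 * M b ξ ≤ (b ^ 32)⁻¹ * P ξ := by
  have h1 : M b ξ ≤ ∏ j, ((b ^ 8)⁻¹ * wb 1 (ξ j) ^ 4) :=
    Finset.prod_le_prod (fun j _ => (pj_pos b j _).le) (fun j _ => pj_low hb hb1 j _)
  have h2 : (1 + ‖ξ‖ ^ 2) ^ 3 ≤ ∏ j, (1 + (ξ j) ^ 2) ^ 3 := by
    rw [Finset.prod_pow]
    exact pow_le_pow_left₀ (by positivity) (one_add_norm_sq_le ξ) 3
  calc (1 + ‖ξ‖ ^ 2) ^ 3 * M b ξ ≤ (∏ j, (1 + (ξ j) ^ 2) ^ 3) * ∏ j, ((b ^ 8)⁻¹ * wb 1 (ξ j) ^ 4) :=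
        mul_le_mul h2 h1 (M_pos b ξ).le (by positivity)
    _ = ∏ j : Fin 4, ((b ^ 8)⁻¹ * wb 1 (ξ j)) := by
        rw [← Finset.prod_mul_distrib]
        apply Finset.prod_congr rfl
        intro j _
        have : (1 + (ξ j) ^ 2) * wb 1 (ξ j) = 1 := by
          unfold wb
          rw [one_mul]
          exact mul_inv_cancel₀ (by positivity)
        calc (1 + (ξ j) ^ 2) ^ 3 * ((b ^ 8)⁻¹ * wb 1 (ξ j) ^ 4) = (b ^ 8)⁻¹ * wb 1 (ξ j) * ((1 + (ξ j) ^ 2) * wb 1 (ξ j)) ^ 3 := by ring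
          _ = _ := by rw [this]; ring
    _ = (b ^ 32)⁻¹ * P ξ := by
        rw [Finset.prod_mul_distrib, Finset.prod_const, Finset.card_univ, Fintype.card_fin, ← inv_pow, ← inv_pow,
          ← pow_mul]
        rfl

/-- kernel factors -/
def kq (j : Fin 4) (z : ℝ) : ℝ := if j.val < 2 then (√|z|)⁻¹ else 1

theorem norm_inv_le {η : E} (h0 : η 0 ≠ 0) (h1 : η 1 ≠ 0) : ‖η‖⁻¹ ≤ ∏ j, kq j (η j) := by
  have e : ∏ j, kq j (η j) = (√|η 0|)⁻¹ * (√|η 1|)⁻¹ := by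
    simp [Fin.prod_univ_four, kq]
  rw [e, ← mul_inv, ← Real.sqrt_mul (abs_nonneg _)]
  apply inv_anti₀
  · apply Real.sqrt_pos.2
    positivity
  · apply Real.sqrt_le_iff.2
    refine ⟨norm_nonneg _, ?_⟩
    rw [norm_sq_eq, Fin.sum_univ_four]
    have := two_mul_le_add_sq (|η 0|) (|η 1|)
    rw [sq_abs, sq_abs] at this
    nlinarith [sq_nonneg (η 2), sq_nonneg (η 3), abs_nonneg (η 0), abs_nonneg (η 1), mul_nonneg (abs_nonneg (η 0)) (abs_nonneg (η 1))]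

theorem ae_ne (j : Fin 4) : ∀ᵐ η : E, η j ≠ 0 := by
  have h := (PiLp.volume_preserving_ofLp (Fin 4)).measure_preimage
    (s := {f : Fin 4 → ℝ | f j = 0}) (measurableSet_eq_fun (measurable_pi_apply j) measurable_const).nullMeasurableSet
  have h2 : volume {f : Fin 4 → ℝ | f j = 0} = 0 := Measure.pi_hyperplane _ j 0
  rw [h2] at h
  rw [ae_iff]
  convert h using 2
  ext η
  simp

theorem integrable_mul_norm_inv {g : Fin 4 → ℝ → ℝ} (hg : ∀ j, Measurable (g j)) (hg0 : ∀ j z, 0 ≤ g j z)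
    (hi : ∀ j, Integrable (fun z => kq j z * g j z)) {F : E → ℝ} (hF : AEStronglyMeasurable F volume)
    (hb : ∀ η, ‖F η‖ ≤ ‖η‖⁻¹ * ∏ j, g j (η j)) :
    Integrable F ∧ ∫ η, ‖F η‖ ≤ ∏ j, ∫ z, kq j z * g j z := by
  obtain ⟨h1, h2⟩ := integrable_prod4 hi
  have hle : ∀ᵐ η : E, ‖F η‖ ≤ ∏ j, (kq j (η j) * g j (η j)) := by
    filter_upwards [ae_ne 0, ae_ne 1] with η e0 e1
    refine (hb η).trans ?_
    rw [Finset.prod_mul_distrib]
    exact mul_le_mul_of_nonneg_right (norm_inv_le e0 e1) (Finset.prod_nonneg (fun j _ => hg0 j _))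
  have hFi : Integrable F := h1.mono' hF hle
  refine ⟨hFi, ?_⟩
  rw [← h2]
  exact integral_mono_ae hFi.norm h1 hle

def C1 : ℝ := (512 * cA) ^ 2 * (2048 * Real.pi) ^ 2

theorem C1_pos : 0 < C1 := by
  unfold C1
  have := cA_pos
  positivity

theorem meas_pj (b : ℝ) (j : Fin 4) : Measurable (pj b j) := by
  unfold pj; split_ifs
  · exact meas_pa b
  · exact meas_pb b

theorem meas_M (b : ℝ) : Measurable (M b) := by
  unfold M
  exact Finset.measurable_prod _ (fun j _ => (meas_pj b j).comp (by fun_prop))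

theorem J_bound {b : ℝ} (hb : 0 < b) (ξ : E) {F : E → ℝ} (hF : AEStronglyMeasurable F volume)
    (hFb : ∀ η, ‖F η‖ ≤ ‖η‖⁻¹ * (M b (ξ - η) * M b η)) :
    Integrable F ∧ ∫ η, ‖F η‖ ≤ C1 * b⁻¹ * M b ξ := by
  have key := integrable_mul_norm_inv (g := fun j z => pj b j (ξ j - z) * pj b j z) (F := F)
    (fun j => ((meas_pj b j).comp (by fun_prop)).mul (meas_pj b j))
    (fun j z => mul_nonneg (pj_pos b j _).le (pj_pos b j _).le) ?_ hF ?_
  · refine ⟨key.1, key.2.trans ?_⟩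
    rw [Fin.prod_univ_four]
    obtain ⟨a1, a2⟩ := intA hb (ξ 0)
    obtain ⟨a3, a4⟩ := intA hb (ξ 1)
    obtain ⟨a5, a6⟩ := intB b (ξ 2)
    obtain ⟨a7, a8⟩ := intB b (ξ 3)
    have e0 : ∫ z, kq 0 z * (pj b 0 (ξ 0 - z) * pj b 0 z) ≤ 512 * cA * (√b)⁻¹ * pj b 0 (ξ 0) := by simpa [kq, pj] using a2
    have e1 : ∫ z, kq 1 z * (pj b 1 (ξ 1 - z) * pj b 1 z) ≤ 512 * cA * (√b)⁻¹ * pj b 1 (ξ 1) := by simpa [kq, pj] using a4
    have e2 : ∫ z, kq 2 z * (pj b 2 (ξ 2 - z) * pj b 2 z) ≤ 2048 * Real.pi * pj b 2 (ξ 2) := by simpa [kq, pj] using a6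
    have e3 : ∫ z, kq 3 z * (pj b 3 (ξ 3 - z) * pj b 3 z) ≤ 2048 * Real.pi * pj b 3 (ξ 3) := by simpa [kq, pj] using a8
    have n (j : Fin 4) : 0 ≤ ∫ z, kq j z * (pj b j (ξ j - z) * pj b j z) := by
      apply integral_nonneg
      intro z
      have : 0 ≤ kq j z := by unfold kq; split_ifs <;> positivity
      have := (pj_pos b j (ξ j - z)).le
      have := (pj_pos b j z).le
      simp only [Pi.zero_apply]
      positivity
    have hcA := cA_pos
    have q0 := (pj_pos b 0 (ξ 0)).le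
    have q1 := (pj_pos b 1 (ξ 1)).le
    have q2 := (pj_pos b 2 (ξ 2)).le
    have q3 := (pj_pos b 3 (ξ 3)).le
    calc _ ≤ (512 * cA * (√b)⁻¹ * pj b 0 (ξ 0)) * (512 * cA * (√b)⁻¹ * pj b 1 (ξ 1)) * (2048 * Real.pi * pj b 2 (ξ 2)) *
          (2048 * Real.pi * pj b 3 (ξ 3)) := by
          apply mul_le_mul _ e3 (n 3) (by positivity)
          apply mul_le_mul _ e2 (n 2) (by positivity)
          exact mul_le_mul e0 e1 (n 1) (by positivity)
      _ = C1 * ((√b)⁻¹ * (√b)⁻¹) * M b ξ := by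
          unfold C1 M
          rw [Fin.prod_univ_four]
          ring
      _ = _ := by rw [← mul_inv, Real.mul_self_sqrt hb.le]
  · intro j
    have hcases : j = 0 ∨ j = 1 ∨ j = 2 ∨ j = 3 := by fin_cases j <;> simp
    rcases hcases with h | h | h | h <;> subst h
    · simpa [kq, pj] using (intA hb (ξ 0)).1
    · simpa [kq, pj] using (intA hb (ξ 1)).1
    · simpa [kq, pj] using (intB b (ξ 2)).1
    · simpa [kq, pj] using (intB b (ξ 3)).1
  · intro η
    refine (hFb η).trans (le_of_eq ?_)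
    unfold M
    rw [← Finset.prod_mul_distrib]
    rfl

theorem integrable_kq_wb (j : Fin 4) : Integrable (fun z => kq j z * wb 1 z) := by
  have h1 : Integrable (fun z : ℝ => (√|z|)⁻¹ * wb 1 z) := by
    have := (intA1 0).1
    simpa [wb] using this
  unfold kq
  split_ifs
  · exact h1
  · simpa using integrable_wb_one

theorem meas_P : Measurable P := by
  unfold P
  exact Finset.measurable_prod _ (fun j _ => (meas_wb 1).comp (by fun_prop))

theorem integrable_norm_inv_P : Integrable (fun η : E => ‖η‖⁻¹ * P η) := by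
  refine (integrable_mul_norm_inv (g := fun _ => wb 1) (fun _ => meas_wb 1) (fun _ z => (wb_pos 1 z).le)
    integrable_kq_wb ?_ ?_).1
  · apply Measurable.aestronglyMeasurable
    exact (by fun_prop : Measurable fun η : E => ‖η‖⁻¹).mul meas_P
  · intro η
    rw [Real.norm_of_nonneg (by have := P_pos η; positivity)]
    exact le_rfl

/-! ### the time integral -/

theorem exp_mul_le (y : ℝ) (hy : 0 ≤ y) : Real.exp (-(y ^ 2 / 2)) * y ≤ 1 := by
  have h1 : y ≤ Real.exp (y ^ 2 / 2) := by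
    have := Real.add_one_le_exp (y ^ 2 / 2)
    nlinarith [sq_nonneg (y - 1)]
  rw [Real.exp_neg, inv_mul_le_iff₀ (Real.exp_pos _), mul_one]
  exact h1

theorem time_integral {a t δ : ℝ} (ha : 0 ≤ a) (ht : 0 ≤ t) (hδ : 0 < δ) :
    ∫ s in (0 : ℝ)..t, Real.exp (-(a ^ 2 * (t - s))) * a * (√(s + δ))⁻¹ ≤ 3 := by
  rcases eq_or_lt_of_le ht with rfl | ht0
  · simp
  rcases eq_or_lt_of_le ha with rfl | ha0
  · simp
  have hc : ∀ s ∈ Set.Icc 0 t, ContinuousAt (fun s => (√(s + δ))⁻¹) s := by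
    intro s hs
    apply ContinuousAt.inv₀ (by fun_prop)
    exact (Real.sqrt_pos.2 (by linarith [hs.1])).ne'
  have hcont : ContinuousOn (fun s => Real.exp (-(a ^ 2 * (t - s))) * a * (√(s + δ))⁻¹) (Set.Icc 0 t) := by
    apply ContinuousOn.mul (by fun_prop)
    exact fun s hs => (hc s hs).continuousWithinAt
  have hI : ∀ u v : ℝ, 0 ≤ u → u ≤ v → v ≤ t → IntervalIntegrable (fun s => Real.exp (-(a ^ 2 * (t - s))) * a * (√(s + δ))⁻¹) volume u v := by
    intro u v hu huv hv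
    apply ContinuousOn.intervalIntegrable_of_Icc huv
    exact hcont.mono (Set.Icc_subset_Icc hu hv)
  rw [← intervalIntegral.integral_add_adjacent_intervals (hI 0 (t / 2) le_rfl (by linarith) (by linarith))
    (hI (t / 2) t (by linarith) (by linarith) le_rfl)]
  have hst : 0 < √t := Real.sqrt_pos.2 ht0
  have hst2 : √t * √t = t := Real.mul_self_sqrt ht
  -- first half
  have h1 : ∫ s in (0 : ℝ)..(t / 2), Real.exp (-(a ^ 2 * (t - s))) * a * (√(s + δ))⁻¹ ≤ 2 := by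
    have hint : IntervalIntegrable (fun s => (√t)⁻¹ * (√(s + δ))⁻¹) volume 0 (t / 2) := by
      apply ContinuousOn.intervalIntegrable_of_Icc (by linarith)
      apply ContinuousOn.mul continuousOn_const
      exact fun s hs => (hc s ⟨hs.1, by linarith [hs.2]⟩).continuousWithinAt
    have hle : ∫ s in (0 : ℝ)..(t / 2), Real.exp (-(a ^ 2 * (t - s))) * a * (√(s + δ))⁻¹ ≤
        ∫ s in (0 : ℝ)..(t / 2), (√t)⁻¹ * (√(s + δ))⁻¹ := by
      apply intervalIntegral.integral_mono_on (by linarith) (hI 0 (t / 2) le_rfl (by linarith) (by linarith)) hint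
      intro s hs
      apply mul_le_mul_of_nonneg_right _ (by positivity)
      have h2 : Real.exp (-(a ^ 2 * (t - s))) ≤ Real.exp (-((a * √t) ^ 2 / 2)) := by
        apply Real.exp_le_exp.2
        have : (a * √t) ^ 2 = a ^ 2 * t := by rw [mul_pow, Real.sq_sqrt ht]
        rw [this]
        nlinarith [hs.2, sq_nonneg a, mul_nonneg (sq_nonneg a) (by linarith [hs.2] : 0 ≤ t / 2 - s)]
      have h3 := exp_mul_le (a * √t) (by positivity)
      calc Real.exp (-(a ^ 2 * (t - s))) * a ≤ Real.exp (-((a * √t) ^ 2 / 2)) * a :=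
            mul_le_mul_of_nonneg_right h2 ha
        _ = (Real.exp (-((a * √t) ^ 2 / 2)) * (a * √t)) * (√t)⁻¹ := by field_simp
        _ ≤ 1 * (√t)⁻¹ := mul_le_mul_of_nonneg_right h3 (by positivity)
        _ = (√t)⁻¹ := one_mul _
    refine hle.trans ?_
    have hFTC : ∫ s in (0 : ℝ)..(t / 2), (√t)⁻¹ * (√(s + δ))⁻¹ = (√t)⁻¹ * (2 * √(t / 2 + δ)) - (√t)⁻¹ * (2 * √(0 + δ)) := by
      apply intervalIntegral.integral_eq_sub_of_hasDerivAt (f := fun s => (√t)⁻¹ * (2 * √(s + δ)))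
      · intro s hs
        rw [Set.uIcc_of_le (by linarith)] at hs
        have hs0 : s + δ ≠ 0 := by linarith [hs.1]
        have := ((((hasDerivAt_id s).add_const δ).sqrt hs0).const_mul 2).const_mul ((√t)⁻¹)
        refine this.congr_deriv ?_
        simp only [id]
        field_simp
      · exact hint
    rw [hFTC, zero_add]
    have h4 : √(t / 2 + δ) ≤ √t + √δ := by
      rw [Real.sqrt_le_left (by positivity)]
      have e1 := Real.sq_sqrt ht
      have e2 := Real.sq_sqrt hδ.le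
      nlinarith [Real.sqrt_nonneg t, Real.sqrt_nonneg δ, mul_nonneg (Real.sqrt_nonneg t) (Real.sqrt_nonneg δ)]
    have h5 : (√t)⁻¹ * √(t / 2 + δ) ≤ (√t)⁻¹ * (√t + √δ) := mul_le_mul_of_nonneg_left h4 (by positivity)
    have h6 : (√t)⁻¹ * √t = 1 := inv_mul_cancel₀ hst.ne'
    nlinarith
  have h2 : ∫ s in (t / 2)..t, Real.exp (-(a ^ 2 * (t - s))) * a * (√(s + δ))⁻¹ ≤ 1 := by
    have hq : 0 < √(t / 2) := Real.sqrt_pos.2 (by linarith)
    have hint : IntervalIntegrable (fun s => Real.exp (-(a ^ 2 * (t - s))) * a * (√(t / 2))⁻¹) volume (t / 2) t := by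
      apply Continuous.intervalIntegrable; fun_prop
    have hle : ∫ s in (t / 2)..t, Real.exp (-(a ^ 2 * (t - s))) * a * (√(s + δ))⁻¹ ≤
        ∫ s in (t / 2)..t, Real.exp (-(a ^ 2 * (t - s))) * a * (√(t / 2))⁻¹ := by
      apply intervalIntegral.integral_mono_on (by linarith) (hI (t / 2) t (by linarith) (by linarith) le_rfl) hint
      intro s hs
      apply mul_le_mul_of_nonneg_left _ (by positivity)
      apply inv_anti₀ hq
      exact Real.sqrt_le_sqrt (by linarith [hs.1])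
    refine hle.trans ?_
    have hFTC : ∫ s in (t / 2)..t, Real.exp (-(a ^ 2 * (t - s))) * a * (√(t / 2))⁻¹ =
        Real.exp (-(a ^ 2 * (t - t))) * a⁻¹ * (√(t / 2))⁻¹ - Real.exp (-(a ^ 2 * (t - t / 2))) * a⁻¹ * (√(t / 2))⁻¹ := by
      apply intervalIntegral.integral_eq_sub_of_hasDerivAt (f := fun s => Real.exp (-(a ^ 2 * (t - s))) * a⁻¹ * (√(t / 2))⁻¹)
      · intro s _
        have h3 : HasDerivAt (fun s => -(a ^ 2 * (t - s))) (a ^ 2) s := by
          have := (((hasDerivAt_id s).const_sub t).const_mul (a ^ 2)).neg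
          refine this.congr_deriv ?_
          ring
        refine ((h3.exp.mul_const a⁻¹).mul_const _).congr_deriv ?_
        field_simp
      · exact hint
    rw [hFTC, sub_self, mul_zero, neg_zero, Real.exp_zero, one_mul]
    have h3 : t - t / 2 = t / 2 := by ring
    rw [h3]
    -- (1 - exp(-y²)) / y ≤ 1 with y = a √(t/2)
    obtain ⟨y, hy⟩ : ∃ y, y = a * √(t / 2) := ⟨_, rfl⟩
    have hy0 : 0 < y := by rw [hy]; positivity
    have e1 : a ^ 2 * (t / 2) = y ^ 2 := by rw [hy, mul_pow, Real.sq_sqrt (by linarith)]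
    have e2 : a⁻¹ * (√(t / 2))⁻¹ = y⁻¹ := by rw [hy, mul_inv]
    rw [e1, mul_assoc, e2]
    have h4 : 1 - y ≤ Real.exp (-(y ^ 2)) := by
      by_cases hy1 : y ≤ 1
      · have := Real.add_one_le_exp (-(y ^ 2))
        nlinarith
      · push Not at hy1
        have := Real.exp_pos (-(y ^ 2))
        linarith
    rw [← one_sub_mul, mul_comm, inv_mul_le_iff₀ hy0, mul_one]
    linarith
  linarith

end

end Pool.Agent.H133R3.KS
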