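import Pool.Agent.H133R3.KS.K2

set_option autoImplicit false

open MeasureTheory
open scoped BoundedContinuousFunction

namespace Pool.Agent.H133R3.KS

noncomputable section

/-- `4π²` -/
def kap : ℝ := 4 * Real.pi ^ 2

theorem kap_ge : 5 ≤ kap := by
  unfold kap
  have := Real.pi_gt_three
  nlinarith

def tp (t : ℝ) : ℝ := max t 0
theorem tp_nonneg (t : ℝ) : 0 ≤ tp t := le_max_right _ _
theorem tp_of_nonneg {t : ℝ} (h : 0 ≤ t) : tp t = t := max_eq_left h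
theorem tp_cont : Continuous tp := continuous_id.max continuous_const

def bt (δ t : ℝ) : ℝ := √(tp t + δ)

theorem bt_pos {δ : ℝ} (hδ : 0 < δ) (t : ℝ) : 0 < bt δ t := Real.sqrt_pos.2 (by have := tp_nonneg t; linarith)
theorem bt_cont (δ : ℝ) : Continuous (bt δ) := by unfold bt; exact (tp_cont.add continuous_const).sqrt
theorem bt_ge {δ : ℝ} (t : ℝ) : √δ ≤ bt δ t := Real.sqrt_le_sqrt (by have := tp_nonneg t; linarith)
theorem bt_sq {δ : ℝ} (hδ : 0 < δ) (t : ℝ) : bt δ t ^ 2 = tp t + δ := Real.sq_sqrt (by have := tp_nonneg t; linarith)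

theorem cont_wb : Continuous fun q : ℝ × ℝ => wb q.1 q.2 := by
  unfold wb
  apply Continuous.inv₀ (by fun_prop)
  intro q
  positivity

theorem cont_M : Continuous fun q : ℝ × E => M q.1 q.2 := by
  unfold M
  apply continuous_finsetProd
  intro j _
  have h1 : Continuous fun q : ℝ × E => wb q.1 (q.2 j) := cont_wb.comp (by fun_prop : Continuous fun q : ℝ × E => (q.1, q.2 j))
  have h2 : Continuous fun q : ℝ × E => wb 1 (q.2 j) := cont_wb.comp (by fun_prop : Continuous fun q : ℝ × E => ((1 : ℝ), q.2 j))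
  unfold pj
  split_ifs
  · unfold pa; exact h1.pow 4
  · unfold pb; exact (h1.pow 4).mul h2

theorem cont_M' {X : Type*} [TopologicalSpace X] {f : X → ℝ} {g : X → E} (hf : Continuous f) (hg : Continuous g) :
    Continuous fun x => M (f x) (g x) := by
  have h : Continuous (fun x => (f x, g x)) := hf.prodMk hg
  have h3 := cont_M
  generalize M = MM at h3 ⊢
  exact h3.comp h

def kern (ξ η : E) : ℝ := inner ℝ ξ η / ‖η‖ ^ 2

theorem kern_bound (ξ η : E) : |kern ξ η| ≤ ‖ξ‖ * ‖η‖⁻¹ := by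
  unfold kern
  rcases eq_or_ne η 0 with rfl | h
  · simp
  have hn : 0 < ‖η‖ := norm_pos_iff.2 h
  rw [abs_div, abs_of_pos (by positivity : 0 < ‖η‖ ^ 2), div_le_iff₀ (by positivity)]
  have := abs_real_inner_le_norm ξ η
  calc |inner ℝ ξ η| ≤ ‖ξ‖ * ‖η‖ := this
    _ = _ := by field_simp

theorem kern_neg (ξ η : E) : kern (-ξ) (-η) = kern ξ η := by
  unfold kern
  simp

variable (δ : ℝ)

def Nf (u : (ℝ × E) →ᵇ ℝ) (t : ℝ) (ξ : E) : ℝ := u (t, ξ) * M (bt δ t) ξ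

theorem Nf_bound (u : (ℝ × E) →ᵇ ℝ) (t : ℝ) (ξ : E) : |Nf δ u t ξ| ≤ ‖u‖ * M (bt δ t) ξ := by
  unfold Nf
  rw [abs_mul, abs_of_pos (M_pos _ _)]
  exact mul_le_mul_of_nonneg_right (u.norm_coe_le_norm _) (M_pos _ _).le

theorem Nf_cont (u : (ℝ × E) →ᵇ ℝ) : Continuous fun q : ℝ × E => Nf δ u q.1 q.2 := by
  unfold Nf
  exact (u.continuous.comp (by fun_prop : Continuous fun q : ℝ × E => (q.1, q.2))).mul
    (cont_M' ((bt_cont δ).comp continuous_fst) continuous_snd)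

theorem Nf_cont' (u : (ℝ × E) →ᵇ ℝ) {X : Type*} [TopologicalSpace X] {f : X → ℝ} {g : X → E} (hf : Continuous f)
    (hg : Continuous g) : Continuous fun x => Nf δ u (f x) (g x) := (Nf_cont δ u).comp (hf.prodMk hg)

def BB (u v : (ℝ × E) →ᵇ ℝ) (t : ℝ) (ξ : E) : ℝ := ∫ η, kern ξ η * (Nf δ u t (ξ - η) * Nf δ v t η)

theorem meas_kern (ξ : E) : Measurable (kern ξ) := by unfold kern; fun_prop

variable {δ}

theorem integrand_bound (u v : (ℝ × E) →ᵇ ℝ) (t : ℝ) (ξ η : E) :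
    ‖kern ξ η * (Nf δ u t (ξ - η) * Nf δ v t η)‖ ≤
      (‖u‖ * ‖v‖ * ‖ξ‖) * (‖η‖⁻¹ * (M (bt δ t) (ξ - η) * M (bt δ t) η)) := by
  rw [norm_mul, norm_mul, Real.norm_eq_abs, Real.norm_eq_abs, Real.norm_eq_abs]
  calc |kern ξ η| * (|Nf δ u t (ξ - η)| * |Nf δ v t η|) ≤ (‖ξ‖ * ‖η‖⁻¹) * ((‖u‖ * M (bt δ t) (ξ - η)) * (‖v‖ * M (bt δ t) η)) := by
        apply mul_le_mul (kern_bound ξ η) _ (by positivity) (by positivity)
        exact mul_le_mul (Nf_bound δ u t _) (Nf_bound δ v t _) (abs_nonneg _) (mul_nonneg (norm_nonneg _) (M_pos _ _).le)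
    _ = _ := by ring

theorem meas_integrand (u v : (ℝ × E) →ᵇ ℝ) (t : ℝ) (ξ : E) :
    AEStronglyMeasurable (fun η => kern ξ η * (Nf δ u t (ξ - η) * Nf δ v t η)) volume := by
  apply (meas_kern ξ).aestronglyMeasurable.mul
  apply Continuous.aestronglyMeasurable
  exact (Nf_cont' δ u continuous_const (by fun_prop)).mul (Nf_cont' δ v continuous_const continuous_id)

theorem J0 {b : ℝ} (hb : 0 < b) (ξ : E) :
    Integrable (fun η : E => ‖η‖⁻¹ * (M b (ξ - η) * M b η)) ∧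
      ∫ η : E, ‖η‖⁻¹ * (M b (ξ - η) * M b η) ≤ C1 * b⁻¹ * M b ξ := by
  have hnn : ∀ η : E, 0 ≤ ‖η‖⁻¹ * (M b (ξ - η) * M b η) := fun η =>
    mul_nonneg (by positivity) (mul_nonneg (M_pos _ _).le (M_pos _ _).le)
  have := J_bound hb ξ (F := fun η : E => ‖η‖⁻¹ * (M b (ξ - η) * M b η)) ?_ ?_
  · refine ⟨this.1, ?_⟩
    refine le_trans (le_of_eq ?_) this.2
    congr 1
    ext η
    rw [Real.norm_of_nonneg (hnn η)]
  · apply Measurable.aestronglyMeasurable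
    apply (by fun_prop : Measurable fun η : E => ‖η‖⁻¹).mul
    exact ((meas_M b).comp (by fun_prop)).mul (meas_M b)
  · intro η
    rw [Real.norm_of_nonneg (hnn η)]

theorem BB_integrable (hδ : 0 < δ) (u v : (ℝ × E) →ᵇ ℝ) (t : ℝ) (ξ : E) :
    Integrable (fun η => kern ξ η * (Nf δ u t (ξ - η) * Nf δ v t η)) := by
  refine ((J0 (bt_pos hδ t) ξ).1.const_mul (‖u‖ * ‖v‖ * ‖ξ‖)).mono' (meas_integrand u v t ξ) ?_
  filter_upwards with η
  exact integrand_bound u v t ξ η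

theorem BB_bound (hδ : 0 < δ) (u v : (ℝ × E) →ᵇ ℝ) (t : ℝ) (ξ : E) :
    |BB δ u v t ξ| ≤ ‖u‖ * ‖v‖ * (C1 * (‖ξ‖ * (bt δ t)⁻¹ * M (bt δ t) ξ)) := by
  obtain ⟨h1, h2⟩ := J0 (bt_pos hδ t) ξ
  unfold BB
  calc |∫ η, kern ξ η * (Nf δ u t (ξ - η) * Nf δ v t η)| ≤
        ∫ η, (‖u‖ * ‖v‖ * ‖ξ‖) * (‖η‖⁻¹ * (M (bt δ t) (ξ - η) * M (bt δ t) η)) := by
        rw [← Real.norm_eq_abs]
        apply norm_integral_le_of_norm_le (h1.const_mul _)
        filter_upwards with η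
        exact integrand_bound u v t ξ η
    _ = (‖u‖ * ‖v‖ * ‖ξ‖) * ∫ η, (‖η‖⁻¹ * (M (bt δ t) (ξ - η) * M (bt δ t) η)) := integral_const_mul _ _
    _ ≤ (‖u‖ * ‖v‖ * ‖ξ‖) * (C1 * (bt δ t)⁻¹ * M (bt δ t) ξ) := mul_le_mul_of_nonneg_left h2 (by positivity)
    _ = _ := by ring

theorem sqrt_le_one {δ : ℝ} (h : δ ≤ 1) : √δ ≤ 1 := by
  rw [Real.sqrt_le_one]; exact h

theorem M_le_P {b : ℝ} (hb : 0 < b) (hb1 : b ≤ 1) (ξ : E) : M b ξ ≤ (b ^ 32)⁻¹ * P ξ := by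
  refine le_trans ?_ (M_decay hb hb1 ξ)
  have h1 : 1 ≤ (1 + ‖ξ‖ ^ 2) ^ 3 := one_le_pow₀ (by nlinarith [sq_nonneg ‖ξ‖])
  have := M_pos b ξ
  nlinarith

theorem M_bt_le {δ : ℝ} (t : ℝ) (ξ : E) : M (bt δ t) ξ ≤ M (√δ) ξ :=
  M_anti (Real.sqrt_nonneg _) (bt_ge t) ξ

theorem BB_cont (hδ : 0 < δ) (hδ1 : δ ≤ 1) (u v : (ℝ × E) →ᵇ ℝ) : Continuous fun q : ℝ × E => BB δ u v q.1 q.2 := by
  rw [continuous_iff_continuousAt]
  intro q₀
  unfold BB
  have hs : 0 < √δ := Real.sqrt_pos.2 hδ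
  apply continuousAt_of_dominated (bound := fun η : E => (‖u‖ * ‖v‖ * (‖q₀.2‖ + 1)) * (((√δ) ^ 32)⁻¹ * (‖η‖⁻¹ * P η)))
  · filter_upwards with q
    exact meas_integrand u v q.1 q.2
  · have : ∀ᶠ q : ℝ × E in nhds q₀, ‖q.2‖ < ‖q₀.2‖ + 1 := by
      apply (continuous_snd.norm.continuousAt).eventually_lt_const
      linarith
    filter_upwards [this] with q hq
    filter_upwards with η
    refine (integrand_bound u v q.1 q.2 η).trans ?_
    apply mul_le_mul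
    · exact mul_le_mul_of_nonneg_left hq.le (by positivity)
    · have h1 : M (bt δ q.1) (q.2 - η) * M (bt δ q.1) η ≤ 1 * (((√δ) ^ 32)⁻¹ * P η) :=
        mul_le_mul (M_le_one _ _) ((M_bt_le _ _).trans (M_le_P hs (sqrt_le_one hδ1) η)) (M_pos _ _).le (by norm_num)
      calc ‖η‖⁻¹ * (M (bt δ q.1) (q.2 - η) * M (bt δ q.1) η) ≤ ‖η‖⁻¹ * (1 * (((√δ) ^ 32)⁻¹ * P η)) :=
            mul_le_mul_of_nonneg_left h1 (by positivity)
        _ = _ := by ring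
    · exact mul_nonneg (by positivity) (mul_nonneg (M_pos _ _).le (M_pos _ _).le)
    · positivity
  · exact (integrable_norm_inv_P.const_mul _).const_mul _
  · filter_upwards with η
    apply Continuous.continuousAt
    apply Continuous.mul
    · unfold kern; fun_prop
    · exact (Nf_cont' δ u (by fun_prop) (by fun_prop)).mul (Nf_cont' δ v (by fun_prop) (by fun_prop))

/-! ### Duhamel integral -/

variable (δ)

def DI (u v : (ℝ × E) →ᵇ ℝ) (t : ℝ) (ξ : E) : ℝ :=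
  ∫ s in (0 : ℝ)..tp t, Real.exp (-(kap * ‖ξ‖ ^ 2 * (tp t - s))) * BB δ u v s ξ

variable {δ}

theorem DI_cont (hδ : 0 < δ) (hδ1 : δ ≤ 1) (u v : (ℝ × E) →ᵇ ℝ) : Continuous fun q : ℝ × E => DI δ u v q.1 q.2 := by
  unfold DI
  apply intervalIntegral.continuous_parametric_intervalIntegral_of_continuous
    (f := fun (q : ℝ × E) (s : ℝ) => Real.exp (-(kap * ‖q.2‖ ^ 2 * (tp q.1 - s))) * BB δ u v s q.2) (s := fun q : ℝ × E => tp q.1)
  · have h1 : Continuous fun p : (ℝ × E) × ℝ => BB δ u v p.2 p.1.2 :=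
      (BB_cont hδ hδ1 u v).comp (by fun_prop : Continuous fun p : (ℝ × E) × ℝ => (p.2, p.1.2))
    have h2 : Continuous fun p : (ℝ × E) × ℝ => tp p.1.1 := tp_cont.comp (by fun_prop)
    unfold Function.uncurry
    exact (Real.continuous_exp.comp (by fun_prop)).mul h1
  · exact tp_cont.comp continuous_fst

theorem M_step (hδ : 0 < δ) {s t : ℝ} (hs : 0 ≤ s) (hst : s ≤ t) (ξ : E) :
    Real.exp (-(kap * ‖ξ‖ ^ 2 * (t - s))) * M (bt δ s) ξ ≤ Real.exp (-(‖ξ‖ ^ 2 * (t - s))) * M (bt δ t) ξ := by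
  have h1 : bt δ t ^ 2 = bt δ s ^ 2 + (t - s) := by
    rw [bt_sq hδ, bt_sq hδ, tp_of_nonneg hs, tp_of_nonneg (hs.trans hst)]; ring
  have h2 := M_exp (sub_nonneg.2 hst) h1 ξ
  calc Real.exp (-(kap * ‖ξ‖ ^ 2 * (t - s))) * M (bt δ s) ξ ≤
        Real.exp (-(kap * ‖ξ‖ ^ 2 * (t - s))) * (Real.exp (4 * (‖ξ‖ ^ 2 * (t - s))) * M (bt δ t) ξ) :=
        mul_le_mul_of_nonneg_left h2 (Real.exp_pos _).le
    _ = Real.exp (-(kap * ‖ξ‖ ^ 2 * (t - s)) + 4 * (‖ξ‖ ^ 2 * (t - s))) * M (bt δ t) ξ := by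
        rw [Real.exp_add]; ring
    _ ≤ _ := by
        apply mul_le_mul_of_nonneg_right _ (M_pos _ _).le
        apply Real.exp_le_exp.2
        have h3 := kap_ge
        have h4 : 0 ≤ ‖ξ‖ ^ 2 * (t - s) := mul_nonneg (sq_nonneg _) (sub_nonneg.2 hst)
        nlinarith

theorem DI_bound (hδ : 0 < δ) (hδ1 : δ ≤ 1) (u v : (ℝ × E) →ᵇ ℝ) (t : ℝ) (ξ : E) :
    |DI δ u v t ξ| ≤ 3 * C1 * (‖u‖ * ‖v‖) * M (bt δ t) ξ := by
  unfold DI
  have htp := tp_nonneg t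
  have e0 : M (bt δ t) ξ = M (bt δ (tp t)) ξ := by
    unfold bt; rw [tp_of_nonneg htp]
  have hc1 : Continuous fun s : ℝ => BB δ u v s ξ :=
    (BB_cont hδ hδ1 u v).comp (by fun_prop : Continuous fun s : ℝ => (s, ξ))
  have hIc : IntervalIntegrable (fun s => Real.exp (-(‖ξ‖ ^ 2 * (tp t - s))) * ‖ξ‖ * (√(s + δ))⁻¹) volume 0 (tp t) := by
    apply ContinuousOn.intervalIntegrable_of_Icc htp
    apply ContinuousOn.mul (by fun_prop)
    apply ContinuousOn.inv₀ (by fun_prop)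
    intro s hs
    exact (Real.sqrt_pos.2 (by linarith [hs.1])).ne'
  rw [← Real.norm_eq_abs]
  calc ‖∫ s in (0 : ℝ)..tp t, Real.exp (-(kap * ‖ξ‖ ^ 2 * (tp t - s))) * BB δ u v s ξ‖
      ≤ ∫ s in (0 : ℝ)..tp t, ‖Real.exp (-(kap * ‖ξ‖ ^ 2 * (tp t - s))) * BB δ u v s ξ‖ :=
        intervalIntegral.norm_integral_le_integral_norm htp
    _ ≤ ∫ s in (0 : ℝ)..tp t, (‖u‖ * ‖v‖ * C1 * M (bt δ t) ξ) * (Real.exp (-(‖ξ‖ ^ 2 * (tp t - s))) * ‖ξ‖ * (√(s + δ))⁻¹) := by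
        apply intervalIntegral.integral_mono_on htp _ (hIc.const_mul _)
        · intro s hs
          rw [norm_mul, Real.norm_of_nonneg (Real.exp_pos _).le, Real.norm_eq_abs]
          have h1 := BB_bound hδ u v s ξ
          have h2 := M_step hδ hs.1 hs.2 ξ
          have h3 : (bt δ s)⁻¹ = (√(s + δ))⁻¹ := by unfold bt; rw [tp_of_nonneg hs.1]
          rw [h3] at h1
          calc Real.exp (-(kap * ‖ξ‖ ^ 2 * (tp t - s))) * |BB δ u v s ξ| ≤
                Real.exp (-(kap * ‖ξ‖ ^ 2 * (tp t - s))) * (‖u‖ * ‖v‖ * (C1 * (‖ξ‖ * (√(s + δ))⁻¹ * M (bt δ s) ξ))) :=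
                mul_le_mul_of_nonneg_left h1 (Real.exp_pos _).le
            _ = (‖u‖ * ‖v‖ * C1 * ‖ξ‖ * (√(s + δ))⁻¹) * (Real.exp (-(kap * ‖ξ‖ ^ 2 * (tp t - s))) * M (bt δ s) ξ) := by ring
            _ ≤ (‖u‖ * ‖v‖ * C1 * ‖ξ‖ * (√(s + δ))⁻¹) * (Real.exp (-(‖ξ‖ ^ 2 * (tp t - s))) * M (bt δ (tp t)) ξ) := by
                apply mul_le_mul_of_nonneg_left h2
                have := C1_pos
                positivity
            _ = _ := by rw [← e0]; ring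
        · apply Continuous.intervalIntegrable
          apply Continuous.norm
          exact (by fun_prop : Continuous fun s => Real.exp (-(kap * ‖ξ‖ ^ 2 * (tp t - s)))).mul hc1
    _ = (‖u‖ * ‖v‖ * C1 * M (bt δ t) ξ) * ∫ s in (0 : ℝ)..tp t, (Real.exp (-(‖ξ‖ ^ 2 * (tp t - s))) * ‖ξ‖ * (√(s + δ))⁻¹) :=
        intervalIntegral.integral_const_mul _ _
    _ ≤ (‖u‖ * ‖v‖ * C1 * M (bt δ t) ξ) * 3 := by
        apply mul_le_mul_of_nonneg_left (time_integral (norm_nonneg ξ) htp hδ)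
        have := C1_pos
        have := M_pos (bt δ t) ξ
        positivity
    _ = _ := by ring

theorem BB_sub_left (hδ : 0 < δ) (u u' v : (ℝ × E) →ᵇ ℝ) (t : ℝ) (ξ : E) :
    BB δ (u - u') v t ξ = BB δ u v t ξ - BB δ u' v t ξ := by
  unfold BB
  rw [← integral_sub (BB_integrable hδ u v t ξ) (BB_integrable hδ u' v t ξ)]
  congr 1
  ext η
  simp only [Nf, BoundedContinuousFunction.coe_sub, Pi.sub_apply]
  ring

theorem BB_sub_right (hδ : 0 < δ) (u v v' : (ℝ × E) →ᵇ ℝ) (t : ℝ) (ξ : E) :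
    BB δ u (v - v') t ξ = BB δ u v t ξ - BB δ u v' t ξ := by
  unfold BB
  rw [← integral_sub (BB_integrable hδ u v t ξ) (BB_integrable hδ u v' t ξ)]
  congr 1
  ext η
  simp only [Nf, BoundedContinuousFunction.coe_sub, Pi.sub_apply]
  ring

theorem DI_sub (hδ : 0 < δ) (hδ1 : δ ≤ 1) (u v : (ℝ × E) →ᵇ ℝ) (t : ℝ) (ξ : E) :
    DI δ u u t ξ - DI δ v v t ξ = DI δ (u - v) u t ξ + DI δ v (u - v) t ξ := by
  have hI : ∀ a b : (ℝ × E) →ᵇ ℝ, IntervalIntegrable (fun s => Real.exp (-(kap * ‖ξ‖ ^ 2 * (tp t - s))) * BB δ a b s ξ) volume 0 (tp t) := by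
    intro a b
    apply Continuous.intervalIntegrable
    exact (by fun_prop : Continuous fun s => Real.exp (-(kap * ‖ξ‖ ^ 2 * (tp t - s)))).mul
      ((BB_cont hδ hδ1 a b).comp (by fun_prop : Continuous fun s : ℝ => (s, ξ)))
  unfold DI
  rw [← intervalIntegral.integral_sub (hI u u) (hI v v), ← intervalIntegral.integral_add (hI _ _) (hI _ _)]
  congr 1
  ext s
  rw [BB_sub_left hδ, BB_sub_right hδ]
  ring

/-! ### the fixed point -/

/-- even reflection -/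
def IsEven (u : (ℝ × E) →ᵇ ℝ) : Prop := ∀ t ξ, u (t, -ξ) = u (t, ξ)

theorem M_neg (b : ℝ) (ξ : E) : M b (-ξ) = M b ξ := by
  unfold M
  apply Finset.prod_congr rfl
  intro j _
  unfold pj
  split_ifs
  · simp [pa, wb_neg]
  · simp [pb, wb_neg]

theorem BB_even {u v : (ℝ × E) →ᵇ ℝ} (hu : IsEven u) (hv : IsEven v) (t : ℝ) (ξ : E) :
    BB δ u v t (-ξ) = BB δ u v t ξ := by
  unfold BB
  rw [← integral_neg_eq_self]
  congr 1
  ext η
  have e : -ξ - -η = -(ξ - η) := by abel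
  rw [kern_neg, e]
  simp only [Nf, M_neg, hu t, hv t]

theorem DI_even {u v : (ℝ × E) →ᵇ ℝ} (hu : IsEven u) (hv : IsEven v) (t : ℝ) (ξ : E) :
    DI δ u v t (-ξ) = DI δ u v t ξ := by
  unfold DI
  simp only [norm_neg, BB_even hu hv]

theorem fixed_point (hδ : 0 < δ) (hδ1 : δ ≤ 1) {m0 : ℝ} (hm0 : 0 ≤ m0) (hm : 24 * C1 * m0 ≤ 1) {N0 : E → ℝ}
    (hN0c : Continuous N0) (hN0b : ∀ ξ, |N0 ξ| ≤ m0 * M (√δ) ξ) (hN0e : ∀ ξ, N0 (-ξ) = N0 ξ) :
    ∃ u : (ℝ × E) →ᵇ ℝ, ‖u‖ ≤ 2 * m0 ∧ IsEven u ∧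
      ∀ t ξ, Nf δ u t ξ = Real.exp (-(kap * ‖ξ‖ ^ 2 * tp t)) * N0 ξ + DI δ u u t ξ := by
  classical
  have hC1 := C1_pos
  -- bound of the linear part
  have hlin : ∀ t ξ, |Real.exp (-(kap * ‖ξ‖ ^ 2 * tp t)) * N0 ξ| ≤ m0 * M (bt δ t) ξ := by
    intro t ξ
    have h1 := M_step hδ le_rfl (tp_nonneg t) ξ
    have e1 : bt δ 0 = √δ := by unfold bt tp; simp
    have e2 : bt δ (tp t) = bt δ t := by unfold bt; rw [tp_of_nonneg (tp_nonneg t)]
    rw [sub_zero, e1, e2] at h1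
    rw [abs_mul, abs_of_pos (Real.exp_pos _)]
    have h2 : Real.exp (-(‖ξ‖ ^ 2 * tp t)) ≤ 1 := by
      apply Real.exp_le_one_iff.2
      have := mul_nonneg (sq_nonneg ‖ξ‖) (tp_nonneg t)
      linarith
    calc Real.exp (-(kap * ‖ξ‖ ^ 2 * tp t)) * |N0 ξ| ≤ Real.exp (-(kap * ‖ξ‖ ^ 2 * tp t)) * (m0 * M (√δ) ξ) :=
          mul_le_mul_of_nonneg_left (hN0b ξ) (Real.exp_pos _).le
      _ = m0 * (Real.exp (-(kap * ‖ξ‖ ^ 2 * tp t)) * M (√δ) ξ) := by ring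
      _ ≤ m0 * (Real.exp (-(‖ξ‖ ^ 2 * tp t)) * M (bt δ t) ξ) := mul_le_mul_of_nonneg_left h1 hm0
      _ ≤ m0 * (1 * M (bt δ t) ξ) := by
          apply mul_le_mul_of_nonneg_left _ hm0
          exact mul_le_mul_of_nonneg_right h2 (M_pos _ _).le
      _ = _ := by ring
  let raw : ((ℝ × E) →ᵇ ℝ) → ℝ × E → ℝ := fun u q =>
    (Real.exp (-(kap * ‖q.2‖ ^ 2 * tp q.1)) * N0 q.2 + DI δ u u q.1 q.2) / M (bt δ q.1) q.2
  have hrawc : ∀ u, Continuous (raw u) := by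
    intro u
    apply Continuous.div
    · apply Continuous.add _ (DI_cont hδ hδ1 u u)
      have h2 : Continuous fun q : ℝ × E => tp q.1 := tp_cont.comp continuous_fst
      exact (Real.continuous_exp.comp (by fun_prop)).mul (hN0c.comp continuous_snd)
    · exact cont_M' ((bt_cont δ).comp continuous_fst) continuous_snd
    · intro q; exact (M_pos _ _).ne'
  have hrawb : ∀ u q, ‖raw u q‖ ≤ m0 + 3 * C1 * (‖u‖ * ‖u‖) := by
    intro u q
    simp only [raw]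
    rw [norm_div, Real.norm_of_nonneg (M_pos _ _).le, div_le_iff₀ (M_pos _ _), Real.norm_eq_abs]
    calc _ ≤ |Real.exp (-(kap * ‖q.2‖ ^ 2 * tp q.1)) * N0 q.2| + |DI δ u u q.1 q.2| := abs_add_le _ _
      _ ≤ m0 * M (bt δ q.1) q.2 + 3 * C1 * (‖u‖ * ‖u‖) * M (bt δ q.1) q.2 := add_le_add (hlin _ _) (DI_bound hδ hδ1 u u _ _)
      _ = _ := by ring
  let T : ((ℝ × E) →ᵇ ℝ) → ((ℝ × E) →ᵇ ℝ) := fun u =>
    BoundedContinuousFunction.ofNormedAddCommGroup (raw u) (hrawc u) _ (hrawb u)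
  have hTb : ∀ u, ‖T u‖ ≤ m0 + 3 * C1 * (‖u‖ * ‖u‖) := by
    intro u
    apply BoundedContinuousFunction.norm_ofNormedAddCommGroup_le
    positivity
  let s : Set ((ℝ × E) →ᵇ ℝ) := {u | ‖u‖ ≤ 2 * m0 ∧ IsEven u}
  have hsc : IsClosed s := by
    have h1 : IsClosed {u : (ℝ × E) →ᵇ ℝ | ‖u‖ ≤ 2 * m0} := isClosed_le continuous_norm continuous_const
    have h2 : IsClosed {u : (ℝ × E) →ᵇ ℝ | IsEven u} := by
      have : {u : (ℝ × E) →ᵇ ℝ | IsEven u} = ⋂ t : ℝ, ⋂ ξ : E, {u | u (t, -ξ) = u (t, ξ)} := by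
        ext u; simp [IsEven]
      rw [this]
      apply isClosed_iInter; intro t
      apply isClosed_iInter; intro ξ
      exact isClosed_eq (continuous_eval_const _) (continuous_eval_const _)
    exact h1.inter h2
  have hmaps : Set.MapsTo T s s := by
    intro u hu
    refine ⟨?_, ?_⟩
    · refine (hTb u).trans ?_
      have h1 : ‖u‖ * ‖u‖ ≤ (2 * m0) * (2 * m0) := mul_le_mul hu.1 hu.1 (norm_nonneg _) (by positivity)
      have h2 : 3 * C1 * (‖u‖ * ‖u‖) ≤ 3 * C1 * ((2 * m0) * (2 * m0)) := mul_le_mul_of_nonneg_left h1 (by positivity)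
      have h3 : 24 * C1 * m0 * m0 ≤ 1 * m0 := mul_le_mul_of_nonneg_right hm hm0
      nlinarith
    · intro t ξ
      simp only [T, raw, BoundedContinuousFunction.coe_ofNormedAddCommGroup]
      rw [norm_neg, hN0e, DI_even hu.2 hu.2, M_neg]
  have hlip : ∀ u ∈ s, ∀ v ∈ s, ‖T u - T v‖ ≤ (1 / 2) * ‖u - v‖ := by
    intro u hu v hv
    rw [BoundedContinuousFunction.norm_le (by positivity)]
    intro q
    have e : (T u - T v) q = (DI δ (u - v) u q.1 q.2 + DI δ v (u - v) q.1 q.2) / M (bt δ q.1) q.2 := by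
      rw [← DI_sub hδ hδ1]
      simp only [T, raw, BoundedContinuousFunction.coe_sub, Pi.sub_apply, BoundedContinuousFunction.coe_ofNormedAddCommGroup]
      ring
    rw [e, norm_div, Real.norm_of_nonneg (M_pos _ _).le, div_le_iff₀ (M_pos _ _), Real.norm_eq_abs]
    have h1 := DI_bound hδ hδ1 (u - v) u q.1 q.2
    have h2 := DI_bound hδ hδ1 v (u - v) q.1 q.2
    have hMp := M_pos (bt δ q.1) q.2
    have h4 : 3 * C1 * (‖u - v‖ * ‖u‖) ≤ 3 * C1 * (‖u - v‖ * (2 * m0)) :=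
      mul_le_mul_of_nonneg_left (mul_le_mul_of_nonneg_left hu.1 (norm_nonneg _)) (by positivity)
    have h5 : 3 * C1 * (‖v‖ * ‖u - v‖) ≤ 3 * C1 * ((2 * m0) * ‖u - v‖) :=
      mul_le_mul_of_nonneg_left (mul_le_mul_of_nonneg_right hv.1 (norm_nonneg _)) (by positivity)
    have h6 : 12 * C1 * m0 * ‖u - v‖ ≤ 1 / 2 * ‖u - v‖ := mul_le_mul_of_nonneg_right (by linarith) (norm_nonneg _)
    calc _ ≤ |DI δ (u - v) u q.1 q.2| + |DI δ v (u - v) q.1 q.2| := abs_add_le _ _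
      _ ≤ 3 * C1 * (‖u - v‖ * ‖u‖) * M (bt δ q.1) q.2 + 3 * C1 * (‖v‖ * ‖u - v‖) * M (bt δ q.1) q.2 := add_le_add h1 h2
      _ ≤ (1 / 2 * ‖u - v‖) * M (bt δ q.1) q.2 := by
          rw [← add_mul]
          apply mul_le_mul_of_nonneg_right _ hMp.le
          linarith
  have hcontr : ContractingWith (1 / 2) (hmaps.restrict T s s) := by
    refine ⟨by norm_num, ?_⟩
    apply LipschitzWith.of_dist_le_mul
    intro u v
    rw [Subtype.dist_eq, Subtype.dist_eq, dist_eq_norm, dist_eq_norm]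
    simpa using hlip u.1 u.2 v.1 v.2
  have h0 : (0 : (ℝ × E) →ᵇ ℝ) ∈ s := ⟨by simpa using hm0, fun t ξ => by simp⟩
  obtain ⟨u, hus, hfix, -⟩ := hcontr.exists_fixedPoint' hsc.isComplete hmaps h0 (edist_ne_top _ _)
  refine ⟨u, hus.1, hus.2, fun t ξ => ?_⟩
  have h1 : T u = u := hfix
  have h2 : (T u) (t, ξ) = u (t, ξ) := by rw [h1]
  unfold Nf
  rw [← h2]
  simp only [T, raw, BoundedContinuousFunction.coe_ofNormedAddCommGroup]
  rw [div_mul_cancel₀ _ (M_pos _ _).ne']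

end

end Pool.Agent.H133R3.KS
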