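import Pool.Agent.H133R3.KS.K3

set_option autoImplicit false

open MeasureTheory
open scoped BoundedContinuousFunction

namespace Pool.Agent.H133R3.KS

noncomputable section

/-! ### The Fourier operator -/

def ee (x ξ : E) : ℂ := Complex.exp ((2 * Real.pi * inner ℝ x ξ : ℝ) * Complex.I)

theorem norm_ee (x ξ : E) : ‖ee x ξ‖ = 1 := Complex.norm_exp_ofReal_mul_I _

theorem cont_ee : Continuous fun q : E × E => ee q.1 q.2 := by
  unfold ee
  exact Complex.continuous_exp.comp ((Complex.continuous_ofReal.comp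
    (continuous_const.mul (continuous_fst.inner continuous_snd))).mul continuous_const)

def FF (A : ℝ → E → ℝ) (p : ℝ × E) : ℂ := ∫ ξ, (A p.1 ξ : ℂ) * ee p.2 ξ

structure Dom (A : ℝ → E → ℝ) : Prop where
  cont : ∀ ξ, Continuous (fun t => A t ξ)
  meas : ∀ t, AEStronglyMeasurable (A t) volume
  dom : ∃ g : E → ℝ, Integrable g ∧ ∀ t ξ, |A t ξ| ≤ g ξ

theorem meas_FF {A : ℝ → E → ℝ} (h : Dom A) (p : ℝ × E) :
    AEStronglyMeasurable (fun ξ => (A p.1 ξ : ℂ) * ee p.2 ξ) volume := by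
  apply AEStronglyMeasurable.mul
  · exact Complex.continuous_ofReal.comp_aestronglyMeasurable (h.meas p.1)
  · exact (cont_ee.comp (by fun_prop : Continuous fun ξ : E => (p.2, ξ))).aestronglyMeasurable

theorem norm_FF_integrand {A : ℝ → E → ℝ} (t : ℝ) (x ξ : E) : ‖(A t ξ : ℂ) * ee x ξ‖ = |A t ξ| := by
  rw [norm_mul, norm_ee, mul_one, Complex.norm_real, Real.norm_eq_abs]

theorem integrable_FF {A : ℝ → E → ℝ} (h : Dom A) (p : ℝ × E) :
    Integrable (fun ξ => (A p.1 ξ : ℂ) * ee p.2 ξ) := by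
  obtain ⟨g, hg, hb⟩ := h.dom
  refine hg.mono' (meas_FF h p) ?_
  filter_upwards with ξ
  rw [norm_FF_integrand]
  exact hb _ _

theorem FF_cont {A : ℝ → E → ℝ} (h : Dom A) : Continuous (FF A) := by
  obtain ⟨g, hg, hb⟩ := h.dom
  unfold FF
  apply continuous_of_dominated (bound := g)
  · intro p; exact meas_FF h p
  · intro p
    filter_upwards with ξ
    rw [norm_FF_integrand]
    exact hb _ _
  · exact hg
  · filter_upwards with ξ
    apply Continuous.mul
    · exact Complex.continuous_ofReal.comp ((h.cont ξ).comp continuous_fst)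
    · exact cont_ee.comp (by fun_prop : Continuous fun p : ℝ × E => (p.2, ξ))

def tL : ℝ × E →L[ℝ] ℂ := Complex.ofRealCLM.comp (ContinuousLinearMap.fst ℝ ℝ E)
def xL (j : Fin 4) : ℝ × E →L[ℝ] ℂ :=
  Complex.ofRealCLM.comp ((EuclideanSpace.proj (𝕜 := ℝ) j : E →L[ℝ] ℝ).comp (ContinuousLinearMap.snd ℝ ℝ E))

theorem tL_apply (v : ℝ × E) : tL v = (v.1 : ℂ) := rfl
theorem xL_apply (j : Fin 4) (v : ℝ × E) : xL j v = (v.2 j : ℂ) := rfl

def cI : ℂ := 2 * Real.pi * Complex.I

/-- multiplication by the coordinate -/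
def xi (j : Fin 4) (A : ℝ → E → ℝ) : ℝ → E → ℝ := fun t ξ => ξ j * A t ξ

def LL (A A' : ℝ → E → ℝ) (p : ℝ × E) : ℝ × E →L[ℝ] ℂ :=
  FF A' p • tL + ∑ j, (cI * FF (xi j A) p) • xL j

theorem inner_sum (x ξ : E) : inner ℝ x ξ = ∑ j, x j * ξ j := by
  rw [PiLp.inner_apply]
  apply Finset.sum_congr rfl
  intro j _
  simp [mul_comm]

theorem hasFDerivAt_ee (ξ : E) (p : ℝ × E) :
    HasFDerivAt (fun p : ℝ × E => ee p.2 ξ) (∑ j, (cI * ((ξ j : ℂ) * ee p.2 ξ)) • xL j) p := by
  have h1 : HasFDerivAt (fun p : ℝ × E => inner ℝ p.2 ξ) ((innerSL ℝ ξ).comp (ContinuousLinearMap.snd ℝ ℝ E)) p := by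
    have : (fun p : ℝ × E => inner ℝ p.2 ξ) = fun p => ((innerSL ℝ ξ).comp (ContinuousLinearMap.snd ℝ ℝ E)) p := by
      ext q
      simp [real_inner_comm]
    rw [this]
    exact ContinuousLinearMap.hasFDerivAt _
  have h2 : HasFDerivAt (fun p : ℝ × E => (2 * Real.pi * inner ℝ p.2 ξ)) _ p := h1.const_mul (2 * Real.pi)
  have h3 := (Complex.ofRealCLM.hasFDerivAt.comp p h2)
  have h4 := (h3.mul_const Complex.I).cexp
  refine h4.congr_fderiv (ContinuousLinearMap.ext fun v => ?_)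
  have e1 : (∑ j, (cI * ((ξ j : ℂ) * ee p.2 ξ)) • xL j) v = ee p.2 ξ * (cI * ((inner ℝ ξ v.2 : ℝ) : ℂ)) := by
    rw [inner_sum, _root_.sum_apply, Complex.ofReal_sum, Finset.mul_sum, Finset.mul_sum]
    apply Finset.sum_congr rfl
    intro j _
    rw [_root_.smul_apply, xL_apply, smul_eq_mul, Complex.ofReal_mul]
    ring
  rw [e1]
  simp [ee, cI]
  ring

theorem hasFDerivAt_FF {A A' : ℝ → E → ℝ} (h : Dom A) (hx : ∀ j, Dom (xi j A)) (h' : Dom A')
    (hd : ∀ ξ t, 0 < t → HasDerivAt (fun t => A t ξ) (A' t ξ) t) (p : ℝ × E) (hp : 0 < p.1) :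
    HasFDerivAt (FF A) (LL A A' p) p := by
  let F' : ℝ × E → E → (ℝ × E →L[ℝ] ℂ) := fun p ξ =>
    ((A' p.1 ξ : ℂ) * ee p.2 ξ) • tL + ∑ j, (cI * ((xi j A p.1 ξ : ℂ) * ee p.2 ξ)) • xL j
  obtain ⟨g', hg', hb'⟩ := h'.dom
  choose gx hgx hbx using fun j => (hx j).dom
  have hLL : LL A A' p = ∫ ξ, F' p ξ := by
    simp only [F', LL]
    rw [integral_add, integral_finsetSum, integral_smul_const]
    · congr 1
      apply Finset.sum_congr rfl
      intro j _
      rw [integral_smul_const, integral_const_mul]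
      rfl
    · intro j _
      exact ((integrable_FF (hx j) p).const_mul cI).smul_const _
    · exact (integrable_FF h' p).smul_const _
    · apply integrable_finsetSum
      intro j _
      exact ((integrable_FF (hx j) p).const_mul cI).smul_const _
  rw [hLL]
  have hs : {p : ℝ × E | 0 < p.1} ∈ nhds p := (isOpen_lt continuous_const continuous_fst).mem_nhds hp
  apply hasFDerivAt_integral_of_dominated_of_fderiv_le (F := fun p ξ => (A p.1 ξ : ℂ) * ee p.2 ξ) (F' := F')
    (bound := fun ξ => g' ξ * ‖tL‖ + ∑ j, ‖cI‖ * gx j ξ * ‖xL j‖) hs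
  · filter_upwards with q
    exact meas_FF h q
  · exact integrable_FF h p
  · simp only [F']
    apply AEStronglyMeasurable.add
    · exact (meas_FF h' p).smul_const _
    · apply Finset.aestronglyMeasurable_fun_sum
      intro j _
      exact ((meas_FF (hx j) p).const_mul cI).smul_const _
  · filter_upwards with ξ q _
    simp only [F']
    refine (norm_add_le _ _).trans (add_le_add ?_ ?_)
    · rw [norm_smul, norm_FF_integrand]
      exact mul_le_mul_of_nonneg_right (hb' _ _) (norm_nonneg _)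
    · refine (norm_sum_le _ _).trans (Finset.sum_le_sum fun j _ => ?_)
      rw [norm_smul, norm_mul, norm_FF_integrand]
      exact mul_le_mul_of_nonneg_right (mul_le_mul_of_nonneg_left (hbx j _ _) (norm_nonneg _)) (norm_nonneg _)
  · apply Integrable.add
    · exact hg'.mul_const _
    · apply integrable_finsetSum
      intro j _
      exact ((hgx j).const_mul _).mul_const _
  · filter_upwards with ξ q hq
    have h1 : HasFDerivAt (fun p : ℝ × E => (A p.1 ξ : ℂ)) (((A' q.1 ξ : ℝ) : ℂ) • tL) q := by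
      have h2 := ((hd ξ q.1 hq).ofReal_comp).hasFDerivAt.comp q (hasFDerivAt_fst (𝕜 := ℝ) (p := q))
      refine h2.congr_fderiv (ContinuousLinearMap.ext fun v => ?_)
      rw [_root_.smul_apply, tL_apply]
      simp [mul_comm]
    have h3 := h1.mul (hasFDerivAt_ee ξ q)
    refine h3.congr_fderiv (ContinuousLinearMap.ext fun v => ?_)
    simp only [F', _root_.add_apply, _root_.smul_apply, _root_.sum_apply,
      xi, Complex.ofReal_mul, smul_eq_mul, Finset.mul_sum]
    rw [add_comm]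
    congr 1
    · ring
    · apply Finset.sum_congr rfl
      intro j _
      ring

def Nice : ℕ → (ℝ → E → ℝ) → Prop
  | 0, A => Dom A
  | (k + 1), A => Dom A ∧ (∀ j, Nice k (xi j A)) ∧
      ∃ A' : ℝ → E → ℝ, (∀ ξ t, 0 < t → HasDerivAt (fun t => A t ξ) (A' t ξ) t) ∧ Nice k A'

theorem Nice.dom' {k : ℕ} {A : ℝ → E → ℝ} (h : Nice k A) : Dom A := by
  cases k with
  | zero => exact h
  | succ k => exact h.1

/-- scalar times fixed CLM -/
def sm (L : ℝ × E →L[ℝ] ℂ) : ℂ →ₗ[ℝ] (ℝ × E →L[ℝ] ℂ) where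
  toFun c := c • L
  map_add' a b := add_smul a b L
  map_smul' a b := by ext v <;> simp [mul_assoc]

theorem contDiffOn_FF : ∀ (k : ℕ) (A : ℝ → E → ℝ), Nice k A →
    ContDiffOn ℝ k (FF A) (Set.Ioi (0 : ℝ) ×ˢ Set.univ) := by
  intro k
  induction k with
  | zero =>
    intro A hA
    rw [Nat.cast_zero, contDiffOn_zero]
    exact (FF_cont hA).continuousOn
  | succ k ih =>
    intro A hA
    obtain ⟨hD, hx, A', hd, hA'⟩ := hA
    have hopen : IsOpen (Set.Ioi (0 : ℝ) ×ˢ (Set.univ : Set E)) := isOpen_Ioi.prod isOpen_univ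
    have hF : ∀ p ∈ Set.Ioi (0 : ℝ) ×ˢ (Set.univ : Set E), HasFDerivAt (FF A) (LL A A' p) p := by
      intro p hp
      exact hasFDerivAt_FF hD (fun j => (hx j).dom') hA'.dom' hd p hp.1
    rw [Nat.cast_succ, contDiffOn_succ_iff_fderiv_of_isOpen hopen]
    refine ⟨fun p hp => (hF p hp).differentiableAt.differentiableWithinAt, by simp, ?_⟩
    have hLL : ContDiffOn ℝ k (LL A A') (Set.Ioi (0 : ℝ) ×ˢ Set.univ) := by
      unfold LL
      apply ContDiffOn.add
      · exact (sm tL).toContinuousLinearMap.contDiff.comp_contDiffOn (ih A' hA')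
      · apply ContDiffOn.sum
        intro j _
        exact (sm (xL j)).toContinuousLinearMap.contDiff.comp_contDiffOn (contDiffOn_const.mul (ih (xi j A) (hx j)))
    exact hLL.congr (fun p hp => (hF p hp).fderiv)

end

end Pool.Agent.H133R3.KS
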