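import Pool.Agent.H133R3.KS.K5

set_option autoImplicit false
set_option maxHeartbeats 200000

open MeasureTheory
open scoped BoundedContinuousFunction

namespace Pool.Agent.H133R3.KS

noncomputable section

theorem slice1 {X Y Z : Type*} [TopologicalSpace X] [TopologicalSpace Y] [TopologicalSpace Z] {f : X → Y → Z}
    (h : Continuous fun q : X × Y => f q.1 q.2) (x : X) : Continuous (f x) := by
  have : Continuous fun y : Y => (x, y) := by fun_prop
  exact h.comp this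

theorem slice2 {X Y Z : Type*} [TopologicalSpace X] [TopologicalSpace Y] [TopologicalSpace Z] {f : X → Y → Z}
    (h : Continuous fun q : X × Y => f q.1 q.2) (y : Y) : Continuous (fun x => f x y) := by
  have : Continuous fun x : X => (x, y) := by fun_prop
  exact h.comp this

def W (k : ℕ) (ξ : E) : ℝ := ((1 + ‖ξ‖ ^ 2) ^ k)⁻¹ * P ξ

theorem W_pos (k : ℕ) (ξ : E) : 0 < W k ξ := mul_pos (by positivity) (P_pos ξ)

theorem W_zero (ξ : E) : W 0 ξ = P ξ := by simp [W]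

theorem W_step (k : ℕ) (ξ : E) : (1 + ‖ξ‖ ^ 2) * W (k + 1) ξ = W k ξ := by
  unfold W
  rw [pow_succ]
  have : (1 + ‖ξ‖ ^ 2) ≠ 0 := by positivity
  have : (1 + ‖ξ‖ ^ 2) ^ k ≠ 0 := by positivity
  field_simp
  ring

theorem W_succ_le (k : ℕ) (ξ : E) : W (k + 1) ξ ≤ W k ξ := by
  rw [← W_step k]
  have := W_pos (k + 1) ξ
  nlinarith [sq_nonneg ‖ξ‖]

theorem W_le_P (k : ℕ) (ξ : E) : W k ξ ≤ P ξ := by
  induction k with
  | zero => rw [W_zero]
  | succ k ih => exact (W_succ_le k ξ).trans ih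

theorem norm_mul_W (k : ℕ) (ξ : E) : ‖ξ‖ * W (k + 1) ξ ≤ W k ξ := by
  rw [← W_step k]
  apply mul_le_mul_of_nonneg_right _ (W_pos _ _).le
  nlinarith [sq_nonneg (‖ξ‖ - 1), sq_nonneg ‖ξ‖]

theorem norm_sq_mul_W (k : ℕ) (ξ : E) : ‖ξ‖ ^ 2 * W (k + 1) ξ ≤ W k ξ := by
  rw [← W_step k]
  apply mul_le_mul_of_nonneg_right _ (W_pos _ _).le
  linarith

theorem one_add_mul_W (k : ℕ) (ξ : E) : (1 + ‖ξ‖) * W (k + 1) ξ ≤ 2 * W k ξ := by
  rw [← W_step k, ← mul_assoc]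
  apply mul_le_mul_of_nonneg_right _ (W_pos _ _).le
  nlinarith [sq_nonneg (‖ξ‖ - 1), sq_nonneg ‖ξ‖]

def Bf (N : ℝ → E → ℝ) (t : ℝ) (ξ : E) : ℝ := ∫ η, kern ξ η * (N t (ξ - η) * N t η)

structure Sol (N0 : E → ℝ) (N : ℝ → E → ℝ) : Prop where
  cont : Continuous fun q : ℝ × E => N q.1 q.2
  even : ∀ t ξ, N t (-ξ) = N t ξ
  bd : ∃ C, 0 ≤ C ∧ ∀ t ξ, |N t ξ| ≤ C * W 3 ξ
  Bcont : Continuous fun q : ℝ × E => Bf N q.1 q.2
  Bbd : ∃ C, 0 ≤ C ∧ ∀ t ξ, |Bf N t ξ| ≤ C * (‖ξ‖ * W 3 ξ)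
  duh : ∀ t ξ, 0 ≤ t → N t ξ = Real.exp (-(kap * ‖ξ‖ ^ 2 * t)) * N0 ξ +
    ∫ s in (0 : ℝ)..t, Real.exp (-(kap * ‖ξ‖ ^ 2 * (t - s))) * Bf N s ξ

theorem cont_P : Continuous P := by
  unfold P
  apply continuous_finsetProd
  intro j _
  unfold wb
  apply Continuous.inv₀ (by fun_prop)
  intro q
  positivity

/-- `Q = P * (‖·‖⁻¹ P)` -/
def Q (ξ : E) : ℝ := ∫ η, P (ξ - η) * (‖η‖⁻¹ * P η)

theorem integrable_Q_integrand : Integrable (fun q : E × E => P (q.1 - q.2) * (‖q.2‖⁻¹ * P q.2)) (volume.prod volume) := by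
  have := Integrable.convolution_integrand (𝕜 := ℝ) (ContinuousLinearMap.mul ℝ ℝ) integrable_norm_inv_P integrable_P
  refine this.congr ?_
  filter_upwards with q
  simp [mul_comm]

theorem integrable_Q : Integrable Q := by
  have := integrable_Q_integrand.integral_prod_left
  exact this

theorem Q_int (ξ : E) : Integrable (fun η => P (ξ - η) * (‖η‖⁻¹ * P η)) := by
  refine integrable_norm_inv_P.mono' ?_ ?_
  · apply Measurable.aestronglyMeasurable
    exact (meas_P.comp (by fun_prop)).mul ((by fun_prop : Measurable fun η : E => ‖η‖⁻¹).mul meas_P)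
  · filter_upwards with η
    have h1 := P_pos η
    have h2 := P_pos (ξ - η)
    have h3 := P_le_one (ξ - η)
    rw [Real.norm_of_nonneg (by positivity)]
    have : 0 ≤ ‖η‖⁻¹ * P η := by positivity
    nlinarith

/-- pointwise bound for the convolution integrand -/
theorem kern_W_bound {f g : E → ℝ} {c c' : ℝ} (hc : 0 ≤ c) (hc' : 0 ≤ c') (hf : ∀ ζ, |f ζ| ≤ c * W 1 ζ)
    (hg : ∀ ζ, |g ζ| ≤ c' * W 1 ζ) (ξ η : E) :
    |kern ξ η * (f (ξ - η) * g η)| ≤ (4 * c * c') * (P (ξ - η) * (‖η‖⁻¹ * P η)) := by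
  have h1 : ‖ξ‖ ≤ (1 + ‖ξ - η‖) * (1 + ‖η‖) := by
    have : ‖ξ‖ ≤ ‖ξ - η‖ + ‖η‖ := by
      calc ‖ξ‖ = ‖(ξ - η) + η‖ := by rw [sub_add_cancel]
        _ ≤ _ := norm_add_le _ _
    nlinarith [norm_nonneg (ξ - η), norm_nonneg η, mul_nonneg (norm_nonneg (ξ - η)) (norm_nonneg η)]
  have h2 := one_add_mul_W 0 (ξ - η)
  have h3 := one_add_mul_W 0 η
  rw [W_zero, zero_add] at h2 h3
  rw [abs_mul, abs_mul]
  have w1 := W_pos 1 (ξ - η)
  have w2 := W_pos 1 η
  have p1 := P_pos (ξ - η)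
  have p2 := P_pos η
  calc |kern ξ η| * (|f (ξ - η)| * |g η|) ≤ (‖ξ‖ * ‖η‖⁻¹) * ((c * W 1 (ξ - η)) * (c' * W 1 η)) := by
        apply mul_le_mul (kern_bound ξ η) _ (by positivity) (by positivity)
        exact mul_le_mul (hf _) (hg _) (abs_nonneg _) (by positivity)
    _ ≤ (((1 + ‖ξ - η‖) * (1 + ‖η‖)) * ‖η‖⁻¹) * ((c * W 1 (ξ - η)) * (c' * W 1 η)) := by
        apply mul_le_mul_of_nonneg_right _ (by positivity)
        exact mul_le_mul_of_nonneg_right h1 (by positivity)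
    _ = c * c' * (((1 + ‖ξ - η‖) * W 1 (ξ - η)) * (‖η‖⁻¹ * ((1 + ‖η‖) * W 1 η))) := by ring
    _ ≤ c * c' * ((2 * P (ξ - η)) * (‖η‖⁻¹ * (2 * P η))) := by
        apply mul_le_mul_of_nonneg_left _ (by positivity)
        apply mul_le_mul h2 _ (by positivity) (by positivity)
        exact mul_le_mul_of_nonneg_left h3 (by positivity)
    _ = _ := by ring

theorem meas_kern2 : Measurable fun q : E × E => kern q.1 q.2 := by unfold kern; fun_prop

attribute [local irreducible] P W kern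

section
variable {N0 : E → ℝ} {N : ℝ → E → ℝ}

def Np (N : ℝ → E → ℝ) (t : ℝ) (ξ : E) : ℝ := -(kap * ‖ξ‖ ^ 2) * N t ξ + Bf N t ξ
def Bp (N : ℝ → E → ℝ) (t : ℝ) (ξ : E) : ℝ := ∫ η, kern ξ η * (Np N t (ξ - η) * N t η + N t (ξ - η) * Np N t η)
def Npp (N : ℝ → E → ℝ) (t : ℝ) (ξ : E) : ℝ := -(kap * ‖ξ‖ ^ 2) * Np N t ξ + Bp N t ξ

theorem kap_pos : 0 < kap := by have := kap_ge; linarith

theorem Sol.Np_cont (h : Sol N0 N) : Continuous fun q : ℝ × E => Np N q.1 q.2 := by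
  unfold Np
  exact ((by fun_prop : Continuous fun q : ℝ × E => -(kap * ‖q.2‖ ^ 2)).mul h.cont).add h.Bcont

theorem Sol.Np_bd (h : Sol N0 N) : ∃ C, 0 ≤ C ∧ ∀ t ξ, |Np N t ξ| ≤ C * W 2 ξ := by
  obtain ⟨C, hC, hb⟩ := h.bd
  obtain ⟨C', hC', hb'⟩ := h.Bbd
  have hk := kap_pos
  refine ⟨kap * C + C', by positivity, fun t ξ => ?_⟩
  unfold Np
  refine (abs_add_le _ _).trans ?_
  rw [abs_mul, abs_neg, abs_of_nonneg (by positivity : 0 ≤ kap * ‖ξ‖ ^ 2)]
  have h1 := norm_mul_W 2 ξ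
  have h2 := norm_sq_mul_W 2 ξ
  calc kap * ‖ξ‖ ^ 2 * |N t ξ| + |Bf N t ξ| ≤ kap * ‖ξ‖ ^ 2 * (C * W 3 ξ) + C' * (‖ξ‖ * W 3 ξ) :=
        add_le_add (mul_le_mul_of_nonneg_left (hb t ξ) (by positivity)) (hb' t ξ)
    _ = kap * C * (‖ξ‖ ^ 2 * W 3 ξ) + C' * (‖ξ‖ * W 3 ξ) := by ring
    _ ≤ kap * C * W 2 ξ + C' * W 2 ξ := by gcongr
    _ = _ := by ring

theorem Sol.hasDerivAt_N (h : Sol N0 N) (ξ : E) (t : ℝ) (ht : 0 < t) :
    HasDerivAt (fun t => N t ξ) (Np N t ξ) t := by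
  have hcB : Continuous fun s : ℝ => Bf N s ξ := slice2 h.Bcont ξ
  let a : ℝ := kap * ‖ξ‖ ^ 2
  have e1 : ∀ t, 0 ≤ t → N t ξ = Real.exp (-(a * t)) * (N0 ξ + ∫ s in (0 : ℝ)..t, Real.exp (a * s) * Bf N s ξ) := by
    intro t ht
    rw [h.duh t ξ ht, mul_add, ← intervalIntegral.integral_const_mul]
    congr 1
    apply intervalIntegral.integral_congr
    intro s _
    simp only [a]
    rw [← mul_assoc, ← Real.exp_add]
    congr 2
    ring
  have hcI : Continuous fun s => Real.exp (a * s) * Bf N s ξ := (by fun_prop : Continuous fun s => Real.exp (a * s)).mul hcB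
  have h2 : HasDerivAt (fun t => ∫ s in (0 : ℝ)..t, Real.exp (a * s) * Bf N s ξ) (Real.exp (a * t) * Bf N t ξ) t :=
    intervalIntegral.integral_hasDerivAt_right (hcI.intervalIntegrable _ _) (hcI.stronglyMeasurableAtFilter _ _) hcI.continuousAt
  have h3 : HasDerivAt (fun t => Real.exp (-(a * t))) (Real.exp (-(a * t)) * (-a)) t := by
    have := ((hasDerivAt_id t).const_mul a).neg.exp
    refine this.congr_deriv ?_
    simp
  have h4 := h3.mul (h2.const_add (N0 ξ))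
  have h5 : HasDerivAt (fun t => N t ξ) _ t := h4.congr_of_eventuallyEq (by
    filter_upwards [lt_mem_nhds ht] with s hs
    exact e1 s hs.le)
  refine h5.congr_deriv ?_
  have e2 : Real.exp (-(a * t)) * Real.exp (a * t) = 1 := by rw [← Real.exp_add]; simp
  unfold Np
  rw [e1 t ht.le]
  simp only [a] at *
  linear_combination (Bf N t ξ) * e2

theorem Sol.hasDerivAt_B (h : Sol N0 N) (ξ : E) (t : ℝ) (ht : 0 < t) :
    HasDerivAt (fun t => Bf N t ξ) (Bp N t ξ) t := by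
  obtain ⟨C, hC, hb⟩ := h.bd
  obtain ⟨C', hC', hb'⟩ := h.Np_bd
  have hbW : ∀ t ζ, |N t ζ| ≤ C * W 1 ζ := fun t ζ => (hb t ζ).trans
    (mul_le_mul_of_nonneg_left ((W_succ_le 2 ζ).trans (W_succ_le 1 ζ)) hC)
  have hbW' : ∀ t ζ, |Np N t ζ| ≤ C' * W 1 ζ := fun t ζ => (hb' t ζ).trans
    (mul_le_mul_of_nonneg_left (W_succ_le 1 ζ) hC')
  have hN : ∀ (t : ℝ), Continuous (N t) := fun t => slice1 h.cont t
  have hNp : ∀ (t : ℝ), Continuous (Np N t) := fun t => slice1 h.Np_cont t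
  have hs : Set.Ioi (0 : ℝ) ∈ nhds t := Ioi_mem_nhds ht
  unfold Bp
  have key := hasDerivAt_integral_of_dominated_loc_of_deriv_le (μ := (volume : Measure E)) (𝕜 := ℝ)
    (F := fun t η => kern ξ η * (N t (ξ - η) * N t η))
    (F' := fun t η => kern ξ η * (Np N t (ξ - η) * N t η + N t (ξ - η) * Np N t η)) (x₀ := t)
    (s := Set.Ioi 0) (bound := fun η => (4 * C' * C) * (P (ξ - η) * (‖η‖⁻¹ * P η)) + (4 * C * C') * (P (ξ - η) * (‖η‖⁻¹ * P η)))
    hs ?_ ?_ ?_ ?_ ?_ ?_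
  · exact key.2
  · filter_upwards with t
    apply (meas_kern ξ).aestronglyMeasurable.mul
    exact (((hN t).comp (by fun_prop)).mul (hN t)).aestronglyMeasurable
  · refine ((Q_int ξ).const_mul (4 * C * C)).mono' ?_ ?_
    · apply (meas_kern ξ).aestronglyMeasurable.mul
      exact (((hN t).comp (by fun_prop)).mul (hN t)).aestronglyMeasurable
    · filter_upwards with η
      exact kern_W_bound hC hC (hbW t) (hbW t) ξ η
  · apply (meas_kern ξ).aestronglyMeasurable.mul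
    exact ((((hNp t).comp (by fun_prop)).mul (hN t)).add (((hN t).comp (by fun_prop)).mul (hNp t))).aestronglyMeasurable
  · filter_upwards with η s _
    rw [mul_add]
    refine (norm_add_le _ _).trans (add_le_add ?_ ?_)
    · exact kern_W_bound hC' hC (hbW' s) (hbW s) ξ η
    · exact kern_W_bound hC hC' (hbW s) (hbW' s) ξ η
  · exact ((Q_int ξ).const_mul _).add ((Q_int ξ).const_mul _)
  · filter_upwards with η s hs
    exact ((h.hasDerivAt_N (ξ - η) s hs).mul (h.hasDerivAt_N η s hs)).const_mul _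

theorem Dom_of {A : ℝ → E → ℝ} (hc : Continuous fun q : ℝ × E => A q.1 q.2) {C : ℝ}
    (hb : ∀ t ξ, |A t ξ| ≤ C * P ξ) : Dom A where
  cont ξ := slice2 hc ξ
  meas t := (slice1 hc t).aestronglyMeasurable
  dom := ⟨fun ξ => C * P ξ, integrable_P.const_mul C, hb⟩

theorem cont_xi {A : ℝ → E → ℝ} (hc : Continuous fun q : ℝ × E => A q.1 q.2) (j : Fin 4) :
    Continuous fun q : ℝ × E => xi j A q.1 q.2 := by
  unfold xi
  exact (by fun_prop : Continuous fun q : ℝ × E => q.2 j).mul hc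

theorem bd_xi {A : ℝ → E → ℝ} {C : ℝ} (hC : 0 ≤ C) {k : ℕ} (hb : ∀ t ξ, |A t ξ| ≤ C * W (k + 1) ξ) (j : Fin 4) :
    ∀ t ξ, |xi j A t ξ| ≤ C * W k ξ := by
  intro t ξ
  unfold xi
  rw [abs_mul]
  have h1 : |ξ j| ≤ ‖ξ‖ := by
    have := PiLp.norm_apply_le ξ j
    simpa using this
  calc |ξ j| * |A t ξ| ≤ ‖ξ‖ * (C * W (k + 1) ξ) := mul_le_mul h1 (hb t ξ) (abs_nonneg _) (norm_nonneg _)
    _ = C * (‖ξ‖ * W (k + 1) ξ) := by ring
    _ ≤ _ := mul_le_mul_of_nonneg_left (norm_mul_W k ξ) hC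

theorem bd_P {A : ℝ → E → ℝ} {C : ℝ} (hC : 0 ≤ C) {k : ℕ} (hb : ∀ t ξ, |A t ξ| ≤ C * W k ξ) :
    ∀ t ξ, |A t ξ| ≤ C * P ξ := fun t ξ => (hb t ξ).trans (mul_le_mul_of_nonneg_left (W_le_P k ξ) hC)

theorem Sol.Dom_Npp (h : Sol N0 N) : Dom (Npp N) := by
  obtain ⟨C, hC, hb⟩ := h.bd
  obtain ⟨C', hC', hb'⟩ := h.Np_bd
  have hbW : ∀ t ζ, |N t ζ| ≤ C * W 1 ζ := fun t ζ => (hb t ζ).trans
    (mul_le_mul_of_nonneg_left ((W_succ_le 2 ζ).trans (W_succ_le 1 ζ)) hC)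
  have hbW' : ∀ t ζ, |Np N t ζ| ≤ C' * W 1 ζ := fun t ζ => (hb' t ζ).trans
    (mul_le_mul_of_nonneg_left (W_succ_le 1 ζ) hC')
  have hBb : ∀ t ξ η, ‖kern ξ η * (Np N t (ξ - η) * N t η + N t (ξ - η) * Np N t η)‖ ≤
      (8 * C * C') * (P (ξ - η) * (‖η‖⁻¹ * P η)) := by
    intro t ξ η
    rw [mul_add]
    refine (norm_add_le _ _).trans ?_
    have h1 := kern_W_bound hC' hC (hbW' t) (hbW t) ξ η
    have h2 := kern_W_bound hC hC' (hbW t) (hbW' t) ξ η
    rw [Real.norm_eq_abs, Real.norm_eq_abs]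
    linarith
  have hN2 : ∀ (t : ℝ), Continuous (N t) := fun t => slice1 h.cont t
  have hNp : ∀ (t : ℝ), Continuous (Np N t) := fun t => slice1 h.Np_cont t
  have hk := kap_pos
  refine ⟨?_, ?_, fun ξ => kap * C' * P ξ + (8 * C * C') * Q ξ, ?_, ?_⟩
  · intro ξ
    unfold Npp
    apply Continuous.add
    · exact continuous_const.mul (slice2 h.Np_cont ξ)
    · unfold Bp
      apply continuous_of_dominated (bound := fun η => (8 * C * C') * (P (ξ - η) * (‖η‖⁻¹ * P η)))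
      · intro t
        apply (meas_kern ξ).aestronglyMeasurable.mul
        exact ((((hNp t).comp (by fun_prop)).mul (hN2 t)).add (((hN2 t).comp (by fun_prop)).mul (hNp t))).aestronglyMeasurable
      · intro t
        filter_upwards with η
        exact hBb t ξ η
      · exact (Q_int ξ).const_mul _
      · filter_upwards with η
        have c1 : ∀ ζ, Continuous fun t => N t ζ := fun ζ => slice2 h.cont ζ
        have c2 : ∀ ζ, Continuous fun t => Np N t ζ := fun ζ => slice2 h.Np_cont ζ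
        exact continuous_const.mul (((c2 _).mul (c1 _)).add ((c1 _).mul (c2 _)))
  · intro t
    unfold Npp
    apply AEStronglyMeasurable.add
    · exact ((by fun_prop : Continuous fun ξ : E => -(kap * ‖ξ‖ ^ 2)).mul (hNp t)).aestronglyMeasurable
    · unfold Bp
      have hm : StronglyMeasurable (fun q : E × E => kern q.1 q.2 * (Np N t (q.1 - q.2) * N t q.2 + N t (q.1 - q.2) * Np N t q.2)) := by
        apply Measurable.stronglyMeasurable
        apply meas_kern2.mul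
        apply Continuous.measurable
        exact (((hNp t).comp (by fun_prop)).mul ((hN2 t).comp (by fun_prop))).add (((hN2 t).comp (by fun_prop)).mul ((hNp t).comp (by fun_prop)))
      exact (hm.integral_prod_right' (ν := volume)).aestronglyMeasurable
  · exact (integrable_P.const_mul _).add (integrable_Q.const_mul _)
  · intro t ξ
    unfold Npp
    refine (abs_add_le _ _).trans (add_le_add ?_ ?_)
    · rw [abs_mul, abs_neg, abs_of_nonneg (by positivity : 0 ≤ kap * ‖ξ‖ ^ 2)]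
      calc kap * ‖ξ‖ ^ 2 * |Np N t ξ| ≤ kap * ‖ξ‖ ^ 2 * (C' * W 2 ξ) := mul_le_mul_of_nonneg_left (hb' t ξ) (by positivity)
        _ = kap * C' * (‖ξ‖ ^ 2 * W 2 ξ) := by ring
        _ ≤ kap * C' * P ξ := mul_le_mul_of_nonneg_left ((norm_sq_mul_W 1 ξ).trans (W_le_P 1 ξ)) (by positivity)
    · unfold Bp Q
      rw [← integral_const_mul, ← Real.norm_eq_abs]
      apply norm_integral_le_of_norm_le ((Q_int ξ).const_mul _)
      filter_upwards with η
      exact hBb t ξ η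

theorem Sol.nice (h : Sol N0 N) : Nice 2 N := by
  obtain ⟨C, hC, hb⟩ := h.bd
  obtain ⟨C', hC', hb'⟩ := h.Np_bd
  have hk := kap_pos
  refine ⟨Dom_of h.cont (bd_P hC hb), ?_, Np N, h.hasDerivAt_N, ?_⟩
  · intro j
    refine ⟨Dom_of (cont_xi h.cont j) (bd_P hC (bd_xi hC hb j)), ?_, xi j (Np N), ?_, ?_⟩
    · intro k
      exact Dom_of (cont_xi (cont_xi h.cont j) k) (bd_P hC (bd_xi hC (bd_xi hC hb j) k))
    · intro ξ t ht
      exact (h.hasDerivAt_N ξ t ht).const_mul _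
    · exact Dom_of (cont_xi h.Np_cont j) (bd_P hC' (bd_xi hC' hb' j))
  · refine ⟨Dom_of h.Np_cont (bd_P hC' hb'), ?_, Npp N, ?_, h.Dom_Npp⟩
    · intro j
      exact Dom_of (cont_xi h.Np_cont j) (bd_P hC' (bd_xi hC' hb' j))
    · intro ξ t ht
      exact ((h.hasDerivAt_N ξ t ht).const_mul _).add (h.hasDerivAt_B ξ t ht)

end

end

end Pool.Agent.H133R3.KS
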