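import Pool.Agent.H133R3.KS.K6

set_option autoImplicit false

open MeasureTheory
open scoped BoundedContinuousFunction Convolution

namespace Pool.Agent.H133R3.KS

noncomputable section

/-! ### Convolution -/

theorem conv_facts {f g : E → ℂ} (hf : Integrable f) (hg : Integrable g) :
    (∀ᵐ ξ : E, Integrable (fun η => f (ξ - η) * g η)) ∧
      Integrable (fun ξ => ∫ η, f (ξ - η) * g η) ∧
      ∫ ξ, ∫ η, f (ξ - η) * g η = (∫ ξ, f ξ) * ∫ ξ, g ξ := by
  have e : (g ⋆[ContinuousLinearMap.mul ℂ ℂ, volume] f) = fun ξ => ∫ η, f (ξ - η) * g η := by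
    ext ξ
    unfold convolution
    congr 1
    ext η
    simp [mul_comm]
  refine ⟨?_, ?_, ?_⟩
  · have := Integrable.ae_convolution_exists (ContinuousLinearMap.mul ℂ ℂ) hg hf
    filter_upwards [this] with ξ hξ
    refine hξ.congr ?_
    filter_upwards with η
    simp [mul_comm]
  · have := Integrable.integrable_convolution (ContinuousLinearMap.mul ℂ ℂ) hg hf
    rw [e] at this
    exact this
  · have := integral_convolution (ContinuousLinearMap.mul ℂ ℂ) hg hf (μ := (volume : Measure E)) (ν := volume)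
    rw [e] at this
    rw [this]
    simp [mul_comm]

def Rj (j : Fin 4) (N : ℝ → E → ℝ) : ℝ → E → ℝ := fun t ξ => ξ j / ‖ξ‖ ^ 2 * N t ξ

theorem ee_add (x a b : E) : ee x (a + b) = ee x a * ee x b := by
  unfold ee
  rw [← Complex.exp_add, inner_add_right]
  congr 1
  push_cast
  ring

theorem kern_split {ξ η : E} (h : η ≠ 0) : kern ξ η = 1 + ∑ j, (ξ - η) j * (η j / ‖η‖ ^ 2) := by
  have hn : ‖η‖ ^ 2 ≠ 0 := by
    have := norm_pos_iff.2 h
    positivity
  have e1 : ∑ j, (ξ - η) j * (η j / ‖η‖ ^ 2) = (inner ℝ (ξ - η) η) / ‖η‖ ^ 2 := by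
    rw [inner_sum, Finset.sum_div]
    apply Finset.sum_congr rfl
    intro j _
    ring
  rw [e1, inner_sub_left, real_inner_self_eq_norm_sq]
  unfold kern
  field_simp
  ring

section
variable {N0 : E → ℝ} {N : ℝ → E → ℝ}

theorem Sol.Dom_N (h : Sol N0 N) : Dom N := by
  obtain ⟨C, hC, hb⟩ := h.bd
  exact Dom_of h.cont (bd_P hC hb)

theorem Sol.Dom_x (h : Sol N0 N) (j : Fin 4) : Dom (xi j N) := by
  obtain ⟨C, hC, hb⟩ := h.bd
  exact Dom_of (cont_xi h.cont j) (bd_P hC (bd_xi hC hb j))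

theorem Sol.Dom_xx (h : Sol N0 N) (i j : Fin 4) : Dom (xi i (xi j N)) := by
  obtain ⟨C, hC, hb⟩ := h.bd
  exact Dom_of (cont_xi (cont_xi h.cont j) i) (bd_P hC (bd_xi hC (bd_xi hC hb j) i))

theorem Sol.Dom_Np (h : Sol N0 N) : Dom (Np N) := by
  obtain ⟨C, hC, hb⟩ := h.Np_bd
  exact Dom_of h.Np_cont (bd_P hC hb)

theorem abs_le_norm (ξ : E) (j : Fin 4) : |ξ j| ≤ ‖ξ‖ := by
  have := PiLp.norm_apply_le ξ j
  simpa using this

theorem Sol.Rbd (h : Sol N0 N) : ∃ C, 0 ≤ C ∧ ∀ t ξ, |N t ξ| ≤ C * P ξ := by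
  obtain ⟨C, hC, hb⟩ := h.bd
  exact ⟨C, hC, bd_P hC hb⟩

theorem Rj_abs (j : Fin 4) (t : ℝ) (ξ : E) : |Rj j N t ξ| ≤ ‖ξ‖⁻¹ * |N t ξ| := by
  unfold Rj
  rw [abs_mul]
  apply mul_le_mul_of_nonneg_right _ (abs_nonneg _)
  rcases eq_or_ne ξ 0 with rfl | h
  · simp
  have hn : 0 < ‖ξ‖ := norm_pos_iff.2 h
  rw [abs_div, abs_of_pos (by positivity : 0 < ‖ξ‖ ^ 2), div_le_iff₀ (by positivity)]
  calc |ξ j| ≤ ‖ξ‖ := abs_le_norm ξ j
    _ = _ := by field_simp

theorem Sol.Dom_R (h : Sol N0 N) (j : Fin 4) : Dom (Rj j N) := by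
  obtain ⟨C, hC, hb⟩ := h.Rbd
  refine ⟨fun ξ => continuous_const.mul (slice2 h.cont ξ), fun t => ?_, fun ξ => C * (‖ξ‖⁻¹ * P ξ),
    integrable_norm_inv_P.const_mul C, fun t ξ => ?_⟩
  · unfold Rj
    exact ((by fun_prop : Measurable fun ξ : E => ξ j / ‖ξ‖ ^ 2).mul (slice1 h.cont t).measurable).aestronglyMeasurable
  · refine (Rj_abs j t ξ).trans ?_
    calc ‖ξ‖⁻¹ * |N t ξ| ≤ ‖ξ‖⁻¹ * (C * P ξ) := mul_le_mul_of_nonneg_left (hb t ξ) (by positivity)
      _ = _ := by ring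

theorem Sol.FF_B (h : Sol N0 N) (p : ℝ × E) :
    FF (Bf N) p = FF N p * FF N p + ∑ j, FF (xi j N) p * FF (Rj j N) p := by
  obtain ⟨t, x⟩ := p
  have iN := integrable_FF h.Dom_N (t, x)
  have iX := fun j => integrable_FF (h.Dom_x j) (t, x)
  have iR := fun j => integrable_FF (h.Dom_R j) (t, x)
  obtain ⟨a1, a2, a3⟩ := conv_facts iN iN
  have b := fun j => conv_facts (iX j) (iR j)
  have hae : ∀ᵐ ξ : E, ∀ j : Fin 4, Integrable (fun η => ((xi j N t (ξ - η) : ℝ) : ℂ) * ee x (ξ - η) * (((Rj j N t η : ℝ) : ℂ) * ee x η)) :=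
    ae_all_iff.2 fun j => (b j).1
  have e0 : ∀ᵐ ξ : E, ((Bf N t ξ : ℝ) : ℂ) * ee x ξ =
      (∫ η, ((N t (ξ - η) : ℝ) : ℂ) * ee x (ξ - η) * (((N t η : ℝ) : ℂ) * ee x η)) +
      ∑ j, ∫ η, ((xi j N t (ξ - η) : ℝ) : ℂ) * ee x (ξ - η) * (((Rj j N t η : ℝ) : ℂ) * ee x η) := by
    filter_upwards [a1, hae] with ξ h1 h2
    rw [← integral_finsetSum _ (fun j _ => h2 j), ← integral_add h1 (integrable_finsetSum _ (fun j _ => h2 j))]
    unfold Bf
    rw [← integral_complex_ofReal, ← integral_mul_const]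
    apply integral_congr_ae
    filter_upwards [compl_mem_ae_iff.2 (measure_singleton (0 : E))] with η hη
    have hη0 : η ≠ 0 := hη
    have e1 : ee x ξ = ee x (ξ - η) * ee x η := by rw [← ee_add, sub_add_cancel]
    rw [kern_split hη0, e1]
    simp only [xi, Rj]
    push_cast
    rw [add_mul, Finset.sum_mul, add_mul, Finset.sum_mul]
    congr 1
    · ring
    · apply Finset.sum_congr rfl
      intro j _
      ring
  have e2 : FF (Bf N) (t, x) = ∫ ξ, ((∫ η, ((N t (ξ - η) : ℝ) : ℂ) * ee x (ξ - η) * (((N t η : ℝ) : ℂ) * ee x η)) +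
      ∑ j, ∫ η, ((xi j N t (ξ - η) : ℝ) : ℂ) * ee x (ξ - η) * (((Rj j N t η : ℝ) : ℂ) * ee x η)) := integral_congr_ae e0
  rw [e2, integral_add a2 (integrable_finsetSum _ (fun j _ => (b j).2.1)), a3,
    integral_finsetSum _ (fun j _ => (b j).2.1)]
  congr 1
  apply Finset.sum_congr rfl
  intro j _
  exact (b j).2.2

/-! ### Reality -/

theorem ee_neg (x ξ : E) : ee x (-ξ) = (starRingEnd ℂ) (ee x ξ) := by
  unfold ee
  rw [← Complex.exp_conj, inner_neg_right, map_mul, Complex.conj_ofReal, Complex.conj_I]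
  congr 1
  push_cast
  ring

theorem FF_even_im {A : ℝ → E → ℝ} (he : ∀ t ξ, A t (-ξ) = A t ξ) (p : ℝ × E) : (FF A p).im = 0 := by
  have h1 : (starRingEnd ℂ) (FF A p) = FF A p := by
    unfold FF
    rw [← integral_conj, ← integral_neg_eq_self]
    congr 1
    ext ξ
    rw [map_mul, Complex.conj_ofReal, ee_neg, he, Complex.conj_conj]
  exact Complex.conj_eq_iff_im.1 h1

theorem FF_odd_re {A : ℝ → E → ℝ} (he : ∀ t ξ, A t (-ξ) = -A t ξ) (p : ℝ × E) : (FF A p).re = 0 := by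
  have h1 : (starRingEnd ℂ) (FF A p) = -FF A p := by
    unfold FF
    rw [← integral_conj, ← integral_neg_eq_self, ← integral_neg]
    congr 1
    ext ξ
    rw [map_mul, Complex.conj_ofReal, ee_neg, he, Complex.conj_conj]
    push_cast
    ring
  have h2 := congrArg Complex.re h1
  rw [Complex.conj_re, Complex.neg_re] at h2
  linarith

/-! ### The real solution -/

def nn (N : ℝ → E → ℝ) (t : ℝ) (x : E) : ℝ := (FF N (t, x)).re
def gr (N : ℝ → E → ℝ) (j : Fin 4) (t : ℝ) (x : E) : ℝ := (cI * FF (xi j N) (t, x)).re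
def hs (N : ℝ → E → ℝ) (i j : Fin 4) (t : ℝ) (x : E) : ℝ := (cI * (cI * FF (xi i (xi j N)) (t, x))).re
def Kc (N : ℝ → E → ℝ) (j : Fin 4) (t : ℝ) (x : E) : ℝ := -(1 / (2 * Real.pi)) * (FF (Rj j N) (t, x)).im

def projL (j : Fin 4) : E →L[ℝ] ℝ := EuclideanSpace.proj (𝕜 := ℝ) j

theorem cI_re (z : ℂ) : (cI * z).re = -(2 * Real.pi) * z.im := by
  unfold cI
  simp

theorem cI_im (z : ℂ) : (cI * z).im = (2 * Real.pi) * z.re := by
  unfold cI
  simp

theorem hs_eq (i j : Fin 4) (t : ℝ) (x : E) : hs N i j t x = -kap * (FF (xi i (xi j N)) (t, x)).re := by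
  unfold hs
  rw [cI_re, cI_im]
  unfold kap
  ring

/-- the pde in real form -/
theorem Sol.pde_re (h : Sol N0 N) (t : ℝ) (x : E) :
    (FF (Np N) (t, x)).re = ∑ i, hs N i i t x - ∑ j, gr N j t x * Kc N j t x + nn N t x ^ 2 := by
  have e1 : FF (Np N) (t, x) = -(kap : ℂ) * ∑ i, FF (xi i (xi i N)) (t, x) + FF (Bf N) (t, x) := by
    have iX := fun i => integrable_FF (h.Dom_xx i i) (t, x)
    have iP := integrable_FF h.Dom_Np (t, x)
    have iS : Integrable (fun ξ : E => -(kap : ℂ) * ∑ i, (((xi i (xi i N)) t ξ : ℝ) : ℂ) * ee x ξ) :=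
      (integrable_finsetSum _ (fun i _ => iX i)).const_mul _
    have e2 : ∀ ξ : E, ((Np N t ξ : ℝ) : ℂ) * ee x ξ = -(kap : ℂ) * ∑ i, (((xi i (xi i N)) t ξ : ℝ) : ℂ) * ee x ξ +
        ((Bf N t ξ : ℝ) : ℂ) * ee x ξ := by
      intro ξ
      have e3 : ‖ξ‖ ^ 2 * N t ξ = ∑ i, xi i (xi i N) t ξ := by
        rw [norm_sq_eq, Finset.sum_mul]
        apply Finset.sum_congr rfl
        intro i _
        unfold xi
        ring
      have e4 : Np N t ξ = -kap * (∑ i, xi i (xi i N) t ξ) + Bf N t ξ := by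
        rw [← e3]; unfold Np; ring
      rw [e4]
      push_cast
      rw [add_mul, Finset.mul_sum, Finset.sum_mul, Finset.mul_sum]
      congr 1
      apply Finset.sum_congr rfl
      intro i _
      ring
    have iB : Integrable (fun ξ : E => ((Bf N t ξ : ℝ) : ℂ) * ee x ξ) := by
      refine (iP.sub iS).congr ?_
      filter_upwards with ξ
      simp only [Pi.sub_apply]
      rw [e2 ξ]
      ring
    calc FF (Np N) (t, x) = ∫ ξ, (-(kap : ℂ) * ∑ i, (((xi i (xi i N)) t ξ : ℝ) : ℂ) * ee x ξ + ((Bf N t ξ : ℝ) : ℂ) * ee x ξ) :=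
          integral_congr_ae (Filter.Eventually.of_forall e2)
      _ = _ := by
        rw [integral_add iS iB, integral_const_mul, integral_finsetSum _ (fun i _ => iX i)]
        rfl
  have hNi : (FF N (t, x)).im = 0 := FF_even_im h.even _
  have hXr : ∀ j, (FF (xi j N) (t, x)).re = 0 := fun j => FF_odd_re (fun t ξ => by
    unfold xi; rw [h.even]; simp) _
  have hRr : ∀ j, (FF (Rj j N) (t, x)).re = 0 := fun j => FF_odd_re (fun t ξ => by
    unfold Rj; rw [h.even, norm_neg]; simp [neg_div]) _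
  rw [e1, h.FF_B]
  simp only [hs_eq]
  rw [Complex.add_re, Complex.add_re, Complex.mul_re, Complex.mul_re, hNi, Complex.re_sum, Complex.re_sum]
  have e5 : ∀ j, (FF (xi j N) (t, x) * FF (Rj j N) (t, x)).re = -(gr N j t x * Kc N j t x) := by
    intro j
    unfold gr Kc
    rw [cI_re, Complex.mul_re, hXr, hRr]
    have := Real.pi_pos.ne'
    field_simp
    ring
  simp only [e5, Finset.sum_neg_distrib]
  rw [← Finset.mul_sum]
  simp only [Complex.neg_re, Complex.ofReal_re, Complex.neg_im, Complex.ofReal_im]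
  unfold nn
  ring

end

end

end Pool.Agent.H133R3.KS
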