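import Pool.Agent.H133R3.KS.K7

set_option autoImplicit false

open MeasureTheory
open scoped BoundedContinuousFunction Convolution

namespace Pool.Agent.H133R3.KS

noncomputable section

variable {N0 : E → ℝ} {N : ℝ → E → ℝ}

theorem yL_apply (j : Fin 4) (v : E) : projL j v = v j := rfl

theorem time_deriv {A A' : ℝ → E → ℝ} (h : Dom A) (hx : ∀ j, Dom (xi j A)) (h' : Dom A')
    (hd : ∀ ξ t, 0 < t → HasDerivAt (fun t => A t ξ) (A' t ξ) t) (t : ℝ) (ht : 0 < t) (x : E) :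
    HasDerivAt (fun s => FF A (s, x)) (FF A' (t, x)) t := by
  have h1 := hasFDerivAt_FF h hx h' hd (t, x) ht
  have h2 : HasDerivAt (fun s : ℝ => (s, x)) ((1 : ℝ), (0 : E)) t := (hasDerivAt_id t).prodMk (hasDerivAt_const t x)
  have h3 := h1.comp_hasDerivAt t h2
  refine h3.congr_deriv ?_
  unfold LL
  rw [_root_.add_apply, _root_.sum_apply, _root_.smul_apply, tL_apply]
  simp [_root_.smul_apply, xL_apply]

theorem space_deriv {A A' : ℝ → E → ℝ} (h : Dom A) (hx : ∀ j, Dom (xi j A)) (h' : Dom A')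
    (hd : ∀ ξ t, 0 < t → HasDerivAt (fun t => A t ξ) (A' t ξ) t) (t : ℝ) (ht : 0 < t) (x : E) (c : ℂ) :
    HasFDerivAt (fun y => (c * FF A (t, y)).re) (∑ j, ((c * (cI * FF (xi j A) (t, x))).re) • projL j) x := by
  have h1 := hasFDerivAt_FF h hx h' hd (t, x) ht
  have h2 : HasFDerivAt (fun y : E => (t, y)) (ContinuousLinearMap.inr ℝ ℝ E) x := hasFDerivAt_prodMk_right t x
  have h3 := h1.comp x h2
  have h4 : HasFDerivAt (fun y => c * FF A (t, y)) (c • ((LL A A' (t, x)).comp (ContinuousLinearMap.inr ℝ ℝ E))) x :=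
    h3.const_mul c
  have h5 := Complex.reCLM.hasFDerivAt.comp x h4
  refine h5.congr_fderiv (ContinuousLinearMap.ext fun v => ?_)
  rw [_root_.sum_apply]
  simp only [ContinuousLinearMap.comp_apply, Complex.reCLM_apply, _root_.smul_apply, LL, _root_.add_apply,
    _root_.sum_apply, tL_apply, xL_apply, ContinuousLinearMap.inr_apply, yL_apply, smul_eq_mul]
  rw [Complex.ofReal_zero, mul_zero, zero_add, Finset.mul_sum, Complex.re_sum]
  apply Finset.sum_congr rfl
  intro j _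
  rw [← mul_assoc, Complex.re_mul_ofReal]

theorem Sol.deriv_t (h : Sol N0 N) (t : ℝ) (ht : 0 < t) (x : E) :
    HasDerivAt (fun s => nn N s x) (FF (Np N) (t, x)).re t := by
  have h1 := time_deriv h.Dom_N h.Dom_x h.Dom_Np h.hasDerivAt_N t ht x
  exact Complex.reCLM.hasFDerivAt.comp_hasDerivAt t h1

theorem Sol.fderiv_x (h : Sol N0 N) (t : ℝ) (ht : 0 < t) (x : E) :
    HasFDerivAt (nn N t) (∑ j, gr N j t x • projL j) x := by
  have h1 := space_deriv h.Dom_N h.Dom_x h.Dom_Np h.hasDerivAt_N t ht x 1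
  simp only [one_mul] at h1
  exact h1

theorem Sol.Dom_xNp (h : Sol N0 N) (j : Fin 4) : Dom (xi j (Np N)) := by
  obtain ⟨C, hC, hb⟩ := h.Np_bd
  exact Dom_of (cont_xi h.Np_cont j) (bd_P hC (bd_xi hC hb j))

theorem Sol.gr_deriv (h : Sol N0 N) (j : Fin 4) (t : ℝ) (ht : 0 < t) (x : E) :
    HasFDerivAt (gr N j t) (∑ i, hs N i j t x • projL i) x := by
  have h1 := space_deriv (A := xi j N) (A' := xi j (Np N)) (h.Dom_x j) (fun i => h.Dom_xx i j) (h.Dom_xNp j)
    (fun ξ t ht => (h.hasDerivAt_N ξ t ht).const_mul _) t ht x cI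
  exact h1

theorem Sol.iter (h : Sol N0 N) (i : Fin 4) (t : ℝ) (ht : 0 < t) (x : E) :
    iteratedFDeriv ℝ 2 (nn N t) x ![EuclideanSpace.single i (1 : ℝ), EuclideanSpace.single i (1 : ℝ)] = hs N i i t x := by
  rw [iteratedFDeriv_two_apply]
  have e1 : fderiv ℝ (nn N t) = fun y => ∑ j, gr N j t y • projL j := by
    ext1 y
    exact (h.fderiv_x t ht y).fderiv
  rw [e1]
  have e2 : HasFDerivAt (fun y => ∑ j, gr N j t y • projL j)
      (∑ j : Fin 4, (ContinuousLinearMap.smulRight (∑ i, hs N i j t x • projL i) (projL j) : E →L[ℝ] (E →L[ℝ] ℝ))) x := by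
    apply HasFDerivAt.fun_sum
    intro j _
    exact (h.gr_deriv j t ht x).smul_const (projL j)
  rw [e2.fderiv]
  simp only [_root_.sum_apply, ContinuousLinearMap.smulRight_apply, _root_.smul_apply, yL_apply, smul_eq_mul,
    Matrix.cons_val_zero, Matrix.cons_val_one]
  simp [PiLp.single_apply]

theorem Sol.cont_nn (h : Sol N0 N) : Continuous fun p : ℝ × E => nn N p.1 p.2 := by
  unfold nn
  exact Complex.continuous_re.comp (FF_cont h.Dom_N)

theorem Sol.contDiff_nn (h : Sol N0 N) : ContDiffOn ℝ 2 (fun p : ℝ × E => nn N p.1 p.2) (Set.Ioi (0 : ℝ) ×ˢ Set.univ) := by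
  have h1 := contDiffOn_FF 2 N h.nice
  have h2 := Complex.reCLM.contDiff.comp_contDiffOn h1
  exact h2

theorem Sol.pde (h : Sol N0 N) (t : ℝ) (ht : 0 < t) (x : E) (K : E) (hK : ∀ j, K j = Kc N j t x) :
    deriv (fun s => nn N s x) t =
      (∑ i : Fin 4, iteratedFDeriv ℝ 2 (nn N t) x ![EuclideanSpace.single i (1 : ℝ), EuclideanSpace.single i (1 : ℝ)])
      - fderiv ℝ (nn N t) x K + nn N t x ^ 2 := by
  rw [(h.deriv_t t ht x).deriv, h.pde_re, (h.fderiv_x t ht x).fderiv]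
  simp only [h.iter _ t ht x, _root_.sum_apply, _root_.smul_apply, yL_apply, smul_eq_mul, hK]

end

end Pool.Agent.H133R3.KS
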