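import Pool.Agent.H133R3.KS.K8

set_option autoImplicit false

open MeasureTheory Filter Topology

namespace Pool.Agent.H133R3.KS

noncomputable section

theorem second_min {f f' : ℝ → ℝ} {c : ℝ} (hf : ∀ s, HasDerivAt f (f' s) s) (hf' : HasDerivAt f' c 0)
    (hmin : ∀ s, f 0 ≤ f s) : 0 ≤ c := by
  by_contra hc
  push Not at hc
  have h0 : f' 0 = 0 := by
    have hloc : IsLocalMin f 0 := Eventually.of_forall hmin
    exact hloc.hasDerivAt_eq_zero (hf 0)
  have h1 := hf'.tendsto_slope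
  have h2 : ∀ᶠ s in 𝓝[≠] (0 : ℝ), slope f' 0 s < 0 := h1.eventually (gt_mem_nhds hc)
  rw [eventually_nhdsWithin_iff, Metric.eventually_nhds_iff] at h2
  obtain ⟨r, hr, h3⟩ := h2
  obtain ⟨s, hs, hs'⟩ := exists_hasDerivAt_eq_slope f f' (by linarith : (0 : ℝ) < r / 2)
    (fun x _ => (hf x).continuousAt.continuousWithinAt) (fun x _ => hf x)
  have h4 : slope f' 0 s < 0 := h3 (by rw [Real.dist_eq, sub_zero, abs_of_pos hs.1]; linarith [hs.2]) hs.1.ne'
  rw [slope_def_field, h0, sub_zero, sub_zero, div_lt_iff₀ hs.1, zero_mul] at h4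
  rw [hs', div_lt_iff₀ (by linarith)] at h4
  have := hmin (r / 2)
  linarith

theorem left_deriv {f : ℝ → ℝ} {c t : ℝ} (hf : HasDerivAt f c t) (ht : 0 < t) (h : ∀ s, 0 ≤ s → s < t → f t ≤ f s) : c ≤ 0 := by
  have h1 : Tendsto (slope f t) (𝓝[<] t) (𝓝 c) :=
    hf.tendsto_slope.mono_left (nhdsWithin_mono _ (fun s hs => ne_of_lt hs))
  refine le_of_tendsto h1 ?_
  have h2 : ∀ᶠ s in 𝓝[<] t, 0 < s := nhdsWithin_le_nhds (lt_mem_nhds ht)
  filter_upwards [h2, self_mem_nhdsWithin] with s hs hst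
  rw [slope_def_field]
  have := h s hs.le hst
  exact div_nonpos_of_nonneg_of_nonpos (by linarith) (by have : s < t := hst; linarith)

theorem hasFDerivAt_one_add_norm_sq (c : ℝ) (x : E) :
    HasFDerivAt (fun x : E => c * (1 + ‖x‖ ^ 2)) (∑ j, (c * (2 * x j)) • projL j) x := by
  have e : (fun x : E => c * (1 + ‖x‖ ^ 2)) = fun x => c * (1 + ∑ j, (x j) ^ 2) := by
    ext y; rw [norm_sq_eq]
  rw [e]
  have h1 : ∀ j : Fin 4, HasFDerivAt (fun x : E => (x j) ^ 2) ((2 * x j) • projL j) x := by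
    intro j
    have h2 : HasFDerivAt (fun x : E => x j) (projL j) x := (projL j).hasFDerivAt
    have h3 := h2.pow 2
    refine h3.congr_fderiv ?_
    ext v
    simp
  have h4 : HasFDerivAt (fun x : E => ∑ j, (x j) ^ 2) (∑ j, (2 * x j) • projL j) x := HasFDerivAt.fun_sum (fun j _ => h1 j)
  refine ((h4.const_add 1).const_mul c).congr_fderiv ?_
  rw [Finset.smul_sum]
  apply Finset.sum_congr rfl
  intro j _
  rw [smul_smul]

theorem projL_single (i j : Fin 4) : projL j (EuclideanSpace.single i (1 : ℝ)) = if j = i then 1 else 0 := by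
  rw [yL_apply]
  simp [PiLp.single_apply]

theorem min_principle {n D : ℝ → E → ℝ} {g hh K : Fin 4 → ℝ → E → ℝ} {K0 K1 : ℝ}
    (hc : Continuous fun p : ℝ × E => n p.1 p.2) (hb : ∀ t x, |n t x| ≤ K0) (hK : ∀ j t x, |K j t x| ≤ K1)
    (h0 : ∀ x, 0 ≤ n 0 x) (ht : ∀ t x, 0 < t → HasDerivAt (fun s => n s x) (D t x) t)
    (hx : ∀ t x, 0 < t → HasFDerivAt (n t) (∑ j, g j t x • projL j) x)
    (hxx : ∀ i t x, 0 < t → HasDerivAt (fun s : ℝ => g i t (x + s • EuclideanSpace.single i (1 : ℝ))) (hh i t x) 0)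
    (pde : ∀ t x, 0 < t → D t x = ∑ i, hh i t x - ∑ j, g j t x * K j t x + n t x ^ 2) :
    ∀ t x, 0 ≤ t → 0 ≤ n t x := by
  have hK1 : 0 ≤ K1 := (abs_nonneg _).trans (hK 0 0 0)
  have hK0 : 0 ≤ K0 := (abs_nonneg _).trans (hb 0 0)
  obtain ⟨Λ, hΛ⟩ : ∃ Λ, Λ = 9 + 4 * K1 := ⟨_, rfl⟩
  -- main claim
  have main : ∀ ε : ℝ, 0 < ε → ∀ t x, 0 ≤ t → 0 < n t x + ε * Real.exp (Λ * t) * (1 + ‖x‖ ^ 2) := by
    intro ε hε
    by_contra hcon
    push Not at hcon
    obtain ⟨t1, x1, ht1, hv1⟩ := hcon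
    obtain ⟨v, hv⟩ : ∃ v : ℝ → E → ℝ, v = fun t x => n t x + ε * Real.exp (Λ * t) * (1 + ‖x‖ ^ 2) := ⟨_, rfl⟩
    have hvd : ∀ t x, v t x = n t x + ε * Real.exp (Λ * t) * (1 + ‖x‖ ^ 2) := by intro t x; rw [hv]
    have hvc : Continuous fun p : ℝ × E => v p.1 p.2 := by
      simp only [hvd]
      exact hc.add (by fun_prop)
    have hexp : ∀ t, 0 ≤ t → 1 ≤ Real.exp (Λ * t) := by
      intro t ht
      apply Real.one_le_exp
      rw [hΛ]; positivity
    have hR : ∀ t x, 0 ≤ t → v t x ≤ 0 → ‖x‖ ≤ √(K0 / ε) := by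
      intro t x ht hvx
      apply Real.le_sqrt_of_sq_le
      rw [le_div_iff₀ hε]
      rw [hvd] at hvx
      have h1 := abs_le.1 (hb t x)
      have h2 := hexp t ht
      have h3 : ε * (1 + ‖x‖ ^ 2) ≤ ε * Real.exp (Λ * t) * (1 + ‖x‖ ^ 2) := by
        have : 0 ≤ ε * (1 + ‖x‖ ^ 2) := by positivity
        nlinarith
      linarith [h1.1]
    let Z : Set (ℝ × E) := (Set.Icc 0 t1 ×ˢ Metric.closedBall 0 (√(K0 / ε))) ∩ {p | v p.1 p.2 ≤ 0}
    have hZc : IsCompact Z := (isCompact_Icc.prod (isCompact_closedBall _ _)).inter_right (isClosed_le hvc continuous_const)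
    have hZn : Z.Nonempty := by
      refine ⟨(t1, x1), ⟨⟨ht1, le_rfl⟩, ?_⟩, ?_⟩
      · rw [mem_closedBall_zero_iff]
        exact hR t1 x1 ht1 (by rw [hvd]; exact hv1)
      · show v t1 x1 ≤ 0
        rw [hvd]; exact hv1
    obtain ⟨⟨ts, xs⟩, hZs, hmin⟩ := hZc.exists_isMinOn hZn (continuous_fst.continuousOn)
    have hts0 : 0 ≤ ts := hZs.1.1.1
    have htst1 : ts ≤ t1 := hZs.1.1.2
    have hvs : v ts xs ≤ 0 := hZs.2
    have hpos : ∀ t x, 0 ≤ t → t < ts → 0 < v t x := by
      intro t x ht htts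
      by_contra hneg
      push Not at hneg
      have hmem : (t, x) ∈ Z := ⟨⟨⟨ht, by linarith⟩, by rw [mem_closedBall_zero_iff]; exact hR t x ht hneg⟩, hneg⟩
      have h3 : ts ≤ t := hmin hmem
      linarith
    have hts : 0 < ts := by
      rcases hts0.lt_or_eq with h | h
      · exact h
      · exfalso
        rw [← h, hvd] at hvs
        have := h0 xs
        have : 0 < ε * Real.exp (Λ * 0) * (1 + ‖xs‖ ^ 2) := by positivity
        linarith
    have hnn : ∀ x, 0 ≤ v ts x := by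
      intro x
      have h1 : Tendsto (fun t => v t x) (𝓝[<] ts) (𝓝 (v ts x)) :=
        ((slice2 hvc x).continuousAt.tendsto).mono_left nhdsWithin_le_nhds
      refine ge_of_tendsto h1 ?_
      have h2 : ∀ᶠ s in 𝓝[<] ts, 0 < s := nhdsWithin_le_nhds (lt_mem_nhds hts)
      filter_upwards [h2, self_mem_nhdsWithin] with s hs hst
      exact (hpos s x hs.le hst).le
    have hvs0 : v ts xs = 0 := le_antisymm hvs (hnn xs)
    have hglob : ∀ x, v ts xs ≤ v ts x := fun x => by rw [hvs0]; exact hnn x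
    -- time derivative
    have hdt : HasDerivAt (fun s => v s xs) (D ts xs + Λ * (ε * Real.exp (Λ * ts) * (1 + ‖xs‖ ^ 2))) ts := by
      simp only [hvd]
      refine (ht ts xs hts).add ?_
      have := ((((hasDerivAt_id ts).const_mul Λ).exp.const_mul ε).mul_const (1 + ‖xs‖ ^ 2))
      refine this.congr_deriv ?_
      simp only [id]
      ring
    have hdt0 := left_deriv hdt hts (fun s hs hst => by
      show v ts xs ≤ v s xs
      rw [hvs0]; exact (hpos s xs hs hst).le)
    -- gradient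
    obtain ⟨c, hcc⟩ : ∃ c, c = ε * Real.exp (Λ * ts) := ⟨_, rfl⟩
    have hc0 : 0 < c := by rw [hcc]; positivity
    have hdx : ∀ x, HasFDerivAt (v ts) (∑ j, (g j ts x + c * (2 * x j)) • projL j) x := by
      intro x
      have e : v ts = fun x => n ts x + c * (1 + ‖x‖ ^ 2) := by
        ext x; rw [hvd, hcc]
      rw [e]
      refine ((hx ts x hts).add (hasFDerivAt_one_add_norm_sq c x)).congr_fderiv ?_
      rw [← Finset.sum_add_distrib]
      apply Finset.sum_congr rfl
      intro j _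
      rw [add_smul]
    have hgrad : ∀ j, g j ts xs = -(c * (2 * xs j)) := by
      intro j
      have hloc : IsLocalMin (v ts) xs := Eventually.of_forall hglob
      have h1 := hloc.hasFDerivAt_eq_zero (hdx xs)
      have h2 := congrArg (fun L : E →L[ℝ] ℝ => L (EuclideanSpace.single j (1 : ℝ))) h1
      simp only [_root_.sum_apply, _root_.smul_apply, projL_single, smul_eq_mul, mul_ite, mul_one, mul_zero,
        Finset.sum_ite_eq', Finset.mem_univ, if_true, _root_.zero_apply] at h2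
      linarith
    have hsec : ∀ i, -(2 * c) ≤ hh i ts xs := by
      intro i
      have h1 : ∀ s : ℝ, HasDerivAt (fun s : ℝ => v ts (xs + s • EuclideanSpace.single i (1 : ℝ)))
          (g i ts (xs + s • EuclideanSpace.single i (1 : ℝ)) + c * (2 * (xs i + s))) s := by
        intro s
        have h2 : HasDerivAt (fun s : ℝ => xs + s • (EuclideanSpace.single i (1 : ℝ) : E)) (EuclideanSpace.single i (1 : ℝ)) s := by
          have := ((hasDerivAt_id s).smul_const (EuclideanSpace.single i (1 : ℝ) : E)).const_add xs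
          simpa using this
        have h3 := (hdx (xs + s • EuclideanSpace.single i (1 : ℝ))).comp_hasDerivAt s h2
        refine h3.congr_deriv ?_
        simp only [_root_.sum_apply, _root_.smul_apply, projL_single, smul_eq_mul, mul_ite, mul_one, mul_zero,
          Finset.sum_ite_eq', Finset.mem_univ, if_true]
        simp
      have h4 : HasDerivAt (fun s : ℝ => g i ts (xs + s • EuclideanSpace.single i (1 : ℝ)) + c * (2 * (xs i + s)))
          (hh i ts xs + 2 * c) 0 := by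
        refine (hxx i ts xs hts).add ?_
        have := (((hasDerivAt_id (0 : ℝ)).const_add (xs i)).const_mul 2).const_mul c
        refine this.congr_deriv ?_
        ring
      have h5 := second_min h1 h4 (fun s => by
        simp only [zero_smul, add_zero]
        exact hglob _)
      linarith
    -- contradiction
    have hnval : n ts xs = -(c * (1 + ‖xs‖ ^ 2)) := by
      have := hvs0
      rw [hvd, ← hcc] at this
      linarith
    rw [pde ts xs hts, ← hcc] at hdt0
    have s1 : -(8 * c) ≤ ∑ i, hh i ts xs := by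
      rw [Fin.sum_univ_four]
      linarith [hsec 0, hsec 1, hsec 2, hsec 3]
    have s2 : ∑ j, g j ts xs * K j ts xs ≤ 8 * c * K1 * ‖xs‖ := by
      have : ∀ j, g j ts xs * K j ts xs ≤ 2 * c * K1 * ‖xs‖ := by
        intro j
        rw [hgrad]
        have a1 := abs_le_norm xs j
        have a2 := hK j ts xs
        calc -(c * (2 * xs j)) * K j ts xs ≤ |-(c * (2 * xs j)) * K j ts xs| := le_abs_self _
          _ = 2 * c * (|xs j| * |K j ts xs|) := by
            rw [abs_mul, abs_neg, abs_mul, abs_mul, abs_of_pos hc0, abs_two]; ring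
          _ ≤ 2 * c * (‖xs‖ * K1) := by
            apply mul_le_mul_of_nonneg_left _ (by positivity)
            exact mul_le_mul a1 a2 (abs_nonneg _) (norm_nonneg _)
          _ = _ := by ring
      rw [Fin.sum_univ_four]
      linarith [this 0, this 1, this 2, this 3]
    have s3 : 8 * c * K1 * ‖xs‖ ≤ 4 * c * K1 * (1 + ‖xs‖ ^ 2) := by
      have : 0 ≤ c * K1 := by positivity
      nlinarith [sq_nonneg (‖xs‖ - 1)]
    rw [hΛ] at hdt0
    have s4 : 0 ≤ n ts xs ^ 2 := sq_nonneg _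
    nlinarith [mul_pos hc0 (by positivity : 0 < 1 + ‖xs‖ ^ 2), sq_nonneg ‖xs‖, mul_nonneg hc0.le (sq_nonneg ‖xs‖)]
  intro t x ht0
  by_contra hneg
  push Not at hneg
  have hA : 0 < Real.exp (Λ * t) * (1 + ‖x‖ ^ 2) := by positivity
  have := main (-n t x / (Real.exp (Λ * t) * (1 + ‖x‖ ^ 2))) (by apply div_pos (by linarith) hA) t x ht0
  rw [mul_assoc, div_mul_cancel₀ _ hA.ne'] at this
  linarith

section
variable {N0 : E → ℝ} {N : ℝ → E → ℝ}

theorem Dom.bd_FF {A : ℝ → E → ℝ} (h : Dom A) : ∃ C, ∀ p, ‖FF A p‖ ≤ C := by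
  obtain ⟨g, hg, hb⟩ := h.dom
  refine ⟨∫ ξ, g ξ, fun p => ?_⟩
  apply norm_integral_le_of_norm_le hg
  filter_upwards with ξ
  rw [norm_FF_integrand]
  exact hb _ _

theorem Sol.nn_bd (h : Sol N0 N) : ∃ C, ∀ t x, |nn N t x| ≤ C := by
  obtain ⟨C, hC⟩ := h.Dom_N.bd_FF
  exact ⟨C, fun t x => (Complex.abs_re_le_norm _).trans (hC _)⟩

theorem Sol.Kc_bd (h : Sol N0 N) : ∃ C, ∀ j t x, |Kc N j t x| ≤ C := by
  choose C hC using fun j => (h.Dom_R j).bd_FF
  refine ⟨1 / (2 * Real.pi) * ∑ j, C j, fun j t x => ?_⟩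
  unfold Kc
  have hp := Real.pi_pos
  rw [abs_mul, abs_neg, abs_of_pos (by positivity : 0 < 1 / (2 * Real.pi))]
  apply mul_le_mul_of_nonneg_left _ (by positivity)
  refine (Complex.abs_im_le_norm _).trans ((hC j _).trans ?_)
  exact Finset.single_le_sum (fun j _ => (norm_nonneg _).trans (hC j (0, 0))) (Finset.mem_univ j)

theorem Sol.nonneg (h : Sol N0 N) (h0 : ∀ x, 0 ≤ nn N 0 x) : ∀ t x, 0 ≤ t → 0 ≤ nn N t x := by
  obtain ⟨K0, hK0⟩ := h.nn_bd
  obtain ⟨K1, hK1⟩ := h.Kc_bd
  apply min_principle (D := fun t x => (FF (Np N) (t, x)).re) (g := gr N) (hh := fun i => hs N i i) (K := Kc N) h.cont_nn hK0 hK1 h0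
  · intro t x ht
    exact h.deriv_t t ht x
  · intro t x ht
    exact h.fderiv_x t ht x
  · intro i t x ht
    have h2 : HasDerivAt (fun s : ℝ => x + s • (EuclideanSpace.single i (1 : ℝ) : E)) (EuclideanSpace.single i (1 : ℝ)) 0 := by
      have := ((hasDerivAt_id (0 : ℝ)).smul_const (EuclideanSpace.single i (1 : ℝ) : E)).const_add x
      simpa using this
    have h3 : HasFDerivAt (gr N i t) (∑ k, hs N k i t x • projL k) (x + (0 : ℝ) • (EuclideanSpace.single i (1 : ℝ) : E)) := by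
      rw [zero_smul, add_zero]
      exact h.gr_deriv i t ht x
    have h4 := h3.comp_hasDerivAt (0 : ℝ) h2
    refine h4.congr_deriv ?_
    simp only [_root_.sum_apply, _root_.smul_apply, projL_single, smul_eq_mul, mul_ite, mul_one, mul_zero,
      Finset.sum_ite_eq', Finset.mem_univ, if_true]
  · intro t x ht
    exact h.pde_re t x

end

end

end Pool.Agent.H133R3.KS
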